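import Pool.Agent.Lib.MP_a3e05c_co.KL.Pot

/-!
# EULER, scalar block S1: elementary properties of the explicit potential
-/

open Finset

namespace MP_a3e05c_co.KL

theorem xx_nonneg {s : ℝ} {i : ℕ} (hi : (i : ℝ) ≤ s + 1) : 0 ≤ xx s i := by
  unfold xx
  have h1 : (0 : ℝ) ≤ (i : ℝ) * ((i : ℝ) - 1) := by
    rcases Nat.eq_zero_or_pos i with h | h
    · rw [h]; simp
    · have h2 : (1 : ℝ) ≤ (i : ℝ) := by exact_mod_cast h
      exact mul_nonneg (by linarith) (by linarith)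
  have h2 : (0 : ℝ) ≤ s ^ 2 * (s + 2 - i) := mul_nonneg (sq_nonneg s) (by linarith)
  exact div_nonneg h1 h2

/-- `1 - x_i ≥ (s + 1 - i) / (s + 2 - i)` -/
theorem one_sub_xx_ge {s : ℝ} {i : ℕ} (h1 : 1 ≤ i) (hi : (i : ℝ) ≤ s) :
    (s + 1 - i) / (s + 2 - i) ≤ 1 - xx s i := by
  unfold xx
  have h2 : (1 : ℝ) ≤ (i : ℝ) := by exact_mod_cast h1
  have hs : 0 < s := by linarith
  have hd : 0 < s + 2 - i := by linarith
  have h3 : (i : ℝ) * ((i : ℝ) - 1) / (s ^ 2 * (s + 2 - i)) ≤ 1 / (s + 2 - i) := by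
    rw [div_le_div_iff₀ (by positivity) hd]
    have h4 : (i : ℝ) * ((i : ℝ) - 1) ≤ s ^ 2 := by nlinarith
    nlinarith
  have h4 : (s + 1 - i) / (s + 2 - i) = 1 - 1 / (s + 2 - i) := by
    rw [eq_sub_iff_add_eq, ← add_div, div_eq_one_iff_eq hd.ne']
    ring
  rw [h4]
  linarith

theorem one_sub_xx_pos {s : ℝ} {i : ℕ} (h1 : 1 ≤ i) (hi : (i : ℝ) ≤ s) : 0 < 1 - xx s i := by
  have h2 : 0 < (s + 1 - i) / (s + 2 - i) := div_pos (by linarith) (by linarith)
  exact lt_of_lt_of_le h2 (one_sub_xx_ge h1 hi)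

theorem gg_zero (s : ℝ) : gg s 0 = 0 := by
  unfold gg xx
  simp

theorem gg_one (s : ℝ) : gg s 1 = 0 := by
  unfold gg xx
  simp

theorem gg_nonneg {s : ℝ} {i : ℕ} (hi : (i : ℝ) ≤ s) : 0 ≤ gg s i := by
  rcases Nat.eq_zero_or_pos i with h | h
  · rw [h, gg_zero]
  · unfold gg
    have h1 : Real.log (1 - xx s i) ≤ 0 := by
      refine Real.log_nonpos (one_sub_xx_pos h hi).le ?_
      have h2 : 0 ≤ xx s i := xx_nonneg (by linarith)
      linarith
    linarith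

/-- `-log (1 - x) ≥ x` -/
theorem gg_ge {s : ℝ} {i : ℕ} (h1 : 1 ≤ i) (hi : (i : ℝ) ≤ s) : xx s i / 2 ≤ gg s i := by
  unfold gg
  have h2 := Real.log_le_sub_one_of_pos (one_sub_xx_pos h1 hi)
  linarith

theorem gg_le {s : ℝ} {i : ℕ} (h1 : 1 ≤ i) (hi : (i : ℝ) ≤ s) :
    gg s i ≤ 1 / 2 * Real.log ((s + 2 - i) / (s + 1 - i)) := by
  have hp : 0 < (s + 1 - i) / (s + 2 - i) := div_pos (by linarith) (by linarith)
  have h2 := Real.log_le_log hp (one_sub_xx_ge h1 hi)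
  have h3 : Real.log ((s + 2 - i) / (s + 1 - i)) = -Real.log ((s + 1 - i) / (s + 2 - i)) := by
    rw [← Real.log_inv, inv_div]
  unfold gg
  rw [h3]
  linarith

/-- `g_i / (i (i - 1))` is increasing -/
theorem gg_ratio {s : ℝ} {i : ℕ} (h1 : 1 ≤ i) (hi : (i : ℝ) + 1 ≤ s) :
    ((i : ℝ) + 1) * gg s i ≤ ((i : ℝ) - 1) * gg s (i + 1) := by
  have h2 : (1 : ℝ) ≤ (i : ℝ) := by exact_mod_cast h1
  have hs : 0 < s := by linarith
  have hi' : ((i + 1 : ℕ) : ℝ) ≤ s := by push_cast; exact hi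
  have hx := one_sub_xx_pos (s := s) (i := i) h1 (by linarith)
  have hy := one_sub_xx_pos (s := s) (i := i + 1) (by omega) hi'
  have hy0 : 0 ≤ xx s (i + 1) := xx_nonneg (by linarith)
  have hpos : (0 : ℝ) < (i : ℝ) + 1 := by linarith
  set l : ℝ := ((i : ℝ) - 1) / ((i : ℝ) + 1) with hl
  have hl0 : 0 ≤ l := div_nonneg (by linarith) hpos.le
  have hl1 : l ≤ 1 := by
    rw [hl, div_le_one hpos]
    linarith
  -- x_i ≤ l x_(i+1)
  have hxl : xx s i ≤ l * xx s (i + 1) := by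
    have e : l * xx s (i + 1) = (i : ℝ) * ((i : ℝ) - 1) / (s ^ 2 * (s + 1 - i)) := by
      rw [hl]
      unfold xx
      push_cast
      have h3 : s + 2 - ((i : ℝ) + 1) = s + 1 - i := by ring
      have h4 : s + 1 - (i : ℝ) ≠ 0 := by
        have : (0 : ℝ) < s + 1 - i := by linarith
        exact this.ne'
      have h5 : ((i : ℝ) + 1) ≠ 0 := hpos.ne'
      rw [h3]
      field_simp
      ring
    rw [e]
    unfold xx
    have h3 : (0 : ℝ) ≤ (i : ℝ) * ((i : ℝ) - 1) := mul_nonneg (by linarith) (by linarith)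
    have h4 : (0 : ℝ) < s ^ 2 * (s + 1 - i) := mul_pos (by positivity) (by linarith)
    refine div_le_div_of_nonneg_left h3 h4 ?_
    exact mul_le_mul_of_nonneg_left (by linarith) (sq_nonneg s)
  -- concavity
  have hc : l * Real.log (1 - xx s (i + 1)) ≤ Real.log (1 - l * xx s (i + 1)) := by
    have h3 := (strictConcaveOn_log_Ioi.concaveOn).2 (Set.mem_Ioi.2 one_pos) (Set.mem_Ioi.2 hy)
      (by linarith : (0 : ℝ) ≤ 1 - l) hl0 (by ring)
    simp only [smul_eq_mul, Real.log_one, mul_zero, zero_add] at h3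
    have h4 : (1 - l) * 1 + l * (1 - xx s (i + 1)) = 1 - l * xx s (i + 1) := by ring
    rw [h4] at h3
    exact h3
  have hpos2 : 0 < 1 - l * xx s (i + 1) := by
    have h3 : l * xx s (i + 1) ≤ 1 * xx s (i + 1) := mul_le_mul_of_nonneg_right hl1 hy0
    linarith
  have hm : Real.log (1 - l * xx s (i + 1)) ≤ Real.log (1 - xx s i) :=
    Real.log_le_log hpos2 (by linarith)
  have hfin : gg s i ≤ l * gg s (i + 1) := by
    unfold gg
    nlinarith
  have h5 : ((i : ℝ) + 1) * (l * gg s (i + 1)) = ((i : ℝ) - 1) * gg s (i + 1) := by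
    rw [hl]
    field_simp
  rw [← h5]
  exact mul_le_mul_of_nonneg_left hfin hpos.le

theorem gg_mono {s : ℝ} {i : ℕ} (hi : (i : ℝ) + 1 ≤ s) : gg s i ≤ gg s (i + 1) := by
  have hg : 0 ≤ gg s (i + 1) := gg_nonneg (by push_cast; exact hi)
  rcases Nat.eq_zero_or_pos i with h | h
  · rw [h, gg_zero]
    rw [h] at hg
    exact hg
  · have h1 := gg_ratio (s := s) h hi
    have h2 : (1 : ℝ) ≤ (i : ℝ) := by exact_mod_cast h
    have h3 : ((i : ℝ) - 1) * gg s (i + 1) ≤ ((i : ℝ) + 1) * gg s (i + 1) :=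
      mul_le_mul_of_nonneg_right (by linarith) hg
    exact le_of_mul_le_mul_left (h1.trans h3) (by linarith)

theorem S1Basic_pp_mul (s : ℝ) (k : ℕ) :
    ((k : ℝ) + 1) * pp s k = ∑ i ∈ range (k + 1), gg s i := by
  unfold pp
  have h : (0 : ℝ) < (k : ℝ) + 1 := by positivity
  rw [mul_div_cancel₀ _ h.ne']

/-- recursion: `p_k + k h_k = g_k` -/
theorem hp_rec (s : ℝ) {k : ℕ} (hk : 1 ≤ k) : pp s k + k * hp s k = gg s k := by
  obtain ⟨m, rfl⟩ : ∃ m, k = m + 1 := ⟨k - 1, by omega⟩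
  have h1 := S1Basic_pp_mul s (m + 1)
  have h2 := S1Basic_pp_mul s m
  rw [sum_range_succ] at h1
  unfold hp
  rw [Nat.add_sub_cancel]
  push_cast at h1 ⊢
  linarith

theorem pp_nonneg {s : ℝ} {k : ℕ} (hk : (k : ℝ) ≤ s) : 0 ≤ pp s k := by
  unfold pp
  refine div_nonneg (sum_nonneg fun i hi => gg_nonneg ?_) (by positivity)
  have h1 : i ≤ k := by
    have := mem_range.1 hi
    omega
  have h2 : (i : ℝ) ≤ (k : ℝ) := by exact_mod_cast h1
  linarith

theorem pp_le {s : ℝ} {k : ℕ} (h1 : 1 ≤ k) (hk : (k : ℝ) ≤ s) : pp s k ≤ gg s k / 3 := by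
  have key : ∀ k : ℕ, 1 ≤ k → (k : ℝ) ≤ s →
      ∑ i ∈ range (k + 1), gg s i ≤ ((k : ℝ) + 1) * gg s k / 3 := by
    intro k h1
    induction k, h1 using Nat.le_induction with
    | base =>
      intro _
      rw [sum_range_succ, sum_range_succ, sum_range_zero, gg_zero, gg_one]
      simp
    | succ k hk1 ih =>
      intro hk2
      push_cast at hk2
      have h2 := ih (by linarith)
      have h3 := gg_ratio (s := s) hk1 hk2
      rw [sum_range_succ]
      push_cast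
      linarith
  have h2 := key k h1 hk
  rw [← S1Basic_pp_mul] at h2
  have h3 : (0 : ℝ) < (k : ℝ) + 1 := by positivity
  have h4 : ((k : ℝ) + 1) * pp s k ≤ ((k : ℝ) + 1) * (gg s k / 3) := by linarith
  exact le_of_mul_le_mul_left h4 h3

/-- `h_k ≥ ρ_k / (3 s)` -/
theorem hp_ge {s : ℝ} {k : ℕ} (h1 : 1 ≤ k) (hk : (k : ℝ) ≤ s) : rr s k / (3 * s) ≤ hp s k := by
  have h2 := hp_rec s h1
  have h3 := pp_le h1 hk
  have h4 := gg_ge h1 hk
  have h5 : (1 : ℝ) ≤ (k : ℝ) := by exact_mod_cast h1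
  have hs : 0 < s := by linarith
  have hd : (0 : ℝ) < s + 2 - k := by linarith
  have h6 : (k : ℝ) * (rr s k / (3 * s)) = xx s k / 3 := by
    unfold rr xx
    field_simp
  have h7 : (k : ℝ) * (rr s k / (3 * s)) ≤ k * hp s k := by
    rw [h6]
    linarith
  exact le_of_mul_le_mul_left h7 (by linarith)

theorem hp_nonneg {s : ℝ} {k : ℕ} (hk : (k : ℝ) ≤ s) : 0 ≤ hp s k := by
  rcases Nat.eq_zero_or_pos k with h | h
  · rw [h]
    unfold hp
    simp
  · refine le_trans ?_ (hp_ge h hk)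
    have h5 : (1 : ℝ) ≤ (k : ℝ) := by exact_mod_cast h
    unfold rr
    refine div_nonneg (div_nonneg (by linarith) (mul_nonneg (by linarith) (by linarith)))
      (by linarith)

/-- `∑ g_i ≤ (1/2) log (n + 1)` (telescoping product of `gg_le`) -/
theorem sum_gg_le (n : ℕ) (hn : 1 ≤ n) :
    ∑ i ∈ range (n + 1), gg (n : ℝ) i ≤ 1 / 2 * Real.log ((n : ℝ) + 1) := by
  have key : ∀ m : ℕ, m ≤ n → ∑ i ∈ range (m + 1), gg (n : ℝ) i ≤
      1 / 2 * (Real.log ((n : ℝ) + 1) - Real.log ((n : ℝ) + 1 - m)) := by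
    intro m
    induction m with
    | zero =>
      intro _
      rw [sum_range_succ, sum_range_zero, gg_zero]
      simp
    | succ m ih =>
      intro hm
      have h1 := ih (by omega)
      have hm' : ((m + 1 : ℕ) : ℝ) ≤ (n : ℝ) := by exact_mod_cast hm
      have h2 := gg_le (s := (n : ℝ)) (i := m + 1) (by omega) hm'
      push_cast at hm' h2 ⊢
      have e1 : (n : ℝ) + 2 - ((m : ℝ) + 1) = (n : ℝ) + 1 - m := by ring
      have h3 : (0 : ℝ) < (n : ℝ) + 1 - m := by linarith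
      have h4 : (0 : ℝ) < (n : ℝ) + 1 - ((m : ℝ) + 1) := by linarith
      rw [e1, Real.log_div h3.ne' h4.ne'] at h2
      rw [sum_range_succ]
      linarith
  have h1 := key n le_rfl
  have h2 : (n : ℝ) + 1 - n = 1 := by ring
  rw [h2, Real.log_one, sub_zero] at h1
  exact h1

end MP_a3e05c_co.KL
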