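import Pool.Agent.Lib.MP_a3e05c_co.S1.Bb
import Pool.Agent.Lib.MP_a3e05c_co.S1.Basic
import Pool.Agent.Lib.MP_a3e05c_co.NCS.Chain

/-!
# EULER, scalar block S1: the loss `T_d` and the gain `AA d - phi d (d - 1)`
-/

open Finset

namespace MP_a3e05c_co.KL

/-- the lower bound for the number of regular tournaments (block RT) -/
def RTmain : Prop := ∀ n : ℕ, Odd n → 23 ≤ n → NCS.mainR n ≤ Real.log (PK n)

/-- the loss at the start -/
noncomputable def TT (d : ℕ) : ℝ := ∑ j ∈ range d, ffp d j - ((d : ℝ) + 1) * AA d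

/-- the gain of a full neighbour -/
noncomputable def hs (d : ℕ) : ℝ := AA d - phi d (d - 1)

theorem phi_G {d k : ℕ} (hk : k < d) :
    phi d k = Real.log (bb (d / 2)) + pp ((d : ℝ) - 1) k := by
  unfold phi pp
  rw [if_pos hk]
  simp only [ffp, Finset.sum_add_distrib, Finset.sum_const, Finset.card_range, nsmul_eq_mul]
  have h1 : ((k : ℝ) + 1) ≠ 0 := by positivity
  push_cast
  field_simp

/-- `A_d + d (A_d - φ_d(d-1)) = -T_d` -/
theorem TT_eq {d : ℕ} (hd : 1 ≤ d) : AA d + d * hs d = -TT d := by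
  obtain ⟨m, rfl⟩ : ∃ m, d = m + 1 := ⟨d - 1, by omega⟩
  unfold hs TT phi
  rw [if_pos (by omega)]
  have e1 : m + 1 - 1 + 1 = m + 1 := by omega
  rw [e1]
  have e2 : ((m + 1 - 1 : ℕ) : ℝ) = m := by
    have : m + 1 - 1 = m := by omega
    rw [this]
  rw [e2]
  have h1 : ((m : ℝ) + 1) ≠ 0 := by positivity
  push_cast
  field_simp
  ring

theorem TT_eq_Ud {d : ℕ} (h : 2 ≤ d) : TT d = NCS.Ud d - Real.log (PK (d + 1)) := by
  unfold TT NCS.Ud AA
  have h1 : ((d : ℝ) + 1) ≠ 0 := by positivity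
  have h2 : ((d : ℝ) + 1) * (Real.log (PK (d + 1)) / ((d : ℝ) + 1)) = Real.log (PK (d + 1)) := by
    field_simp
  rw [h2]
  simp only [ffp, Finset.sum_add_distrib, Finset.sum_const, Finset.card_range, nsmul_eq_mul]
  have h3 : ∑ j ∈ range d, gg ((d : ℝ) - 1) j =
      1 / 2 * ∑ k ∈ Ico 2 d,
        -Real.log (1 - (k : ℝ) * (k - 1) / (((d : ℝ) - 1) ^ 2 * (d - k + 1))) := by
    rw [Finset.range_eq_Ico, ← Finset.sum_Ico_consecutive _ (Nat.zero_le 2) h]
    have h4 : ∑ j ∈ Ico 0 2, gg ((d : ℝ) - 1) j = 0 := by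
      rw [← Finset.range_eq_Ico, Finset.sum_range_succ, Finset.sum_range_one, gg_zero, gg_one,
        add_zero]
    rw [h4, zero_add, Finset.mul_sum]
    refine Finset.sum_congr rfl fun k _ => ?_
    unfold gg xx
    have h5 : ((d : ℝ) - 1 + 2 - k) = d - k + 1 := by ring
    rw [h5]
    ring
  rw [h3]
  have h6 : bb (d / 2) = NCS.cb (d / 2) := rfl
  rw [h6]

theorem TT_le (hRT : RTmain) {d : ℕ} (hd : Even d) (h : 22 ≤ d) :
    TT d ≤ (Real.log ((d : ℝ) + 1) / 2 + 1 / 20) / (d + 1) := by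
  have h1 := hRT (d + 1) hd.add_one (by omega)
  have h2 := NCS.Ud_le d hd (by omega)
  rw [TT_eq_Ud (by omega)]
  push_cast at h1
  linarith

/-- `hs d = (-log bb (d/2) - p_(d-1) - T_d) / (d + 1)` -/
theorem hs_eq {d : ℕ} (h : 2 ≤ d) : ((d : ℝ) + 1) * hs d =
    -Real.log (bb (d / 2)) - pp ((d : ℝ) - 1) (d - 1) - TT d := by
  have h1 := TT_eq (d := d) (by omega)
  have h2 : hs d = AA d - phi d (d - 1) := rfl
  rw [phi_G (by omega : d - 1 < d)] at h2
  linarith

private theorem hs_log_pi_half : (45 / 100 : ℝ) ≤ Real.log (Real.pi / 2) := by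
  have a1 := Real.le_log_one_add_of_nonneg (x := 1 / 10) (by norm_num)
  have a2 := Real.le_log_one_add_of_nonneg (x := 72 / 1000) (by norm_num)
  have hp := Real.pi_gt_d4
  have h1 : (1 + 1 / 10 : ℝ) ^ 4 * (1 + 72 / 1000) ≤ Real.pi / 2 := by
    norm_num at hp ⊢
    linarith
  have h2 : Real.log ((1 + 1 / 10 : ℝ) ^ 4 * (1 + 72 / 1000)) ≤ Real.log (Real.pi / 2) :=
    Real.log_le_log (by norm_num) h1
  rw [Real.log_mul (by norm_num) (by norm_num), Real.log_pow] at h2
  norm_num at a1 a2 h2 ⊢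
  linarith

private theorem hs_log_le {x : ℝ} (hx : 0 < x) : Real.log x ≤ 24658 / 10000 + x / 32 := by
  have h1 := Real.log_le_sub_one_of_pos (x := x / 32) (by positivity)
  have h2 : Real.log (x / 32) = Real.log x - 5 * Real.log 2 := by
    rw [Real.log_div hx.ne' (by norm_num)]
    have h3 : (32 : ℝ) = 2 ^ 5 := by norm_num
    rw [h3, Real.log_pow]
    norm_num
  have h4 := Real.log_two_lt_d9
  rw [h2] at h1
  norm_num at h4 ⊢
  linarith

/-- lower bound for the gain; `-log bb (d/2) ≥ (1/2) log (π (2 d + 1) / 4)` (`NCS.log_cb_le`),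
`p ≤ (1/2) log d / d` (`sum_gg_le`), `TT_le` -/
theorem hs_ge (hRT : RTmain) {d : ℕ} (hd : Even d) (h : 22 ≤ d) :
    Real.log d / (2 * (d + 1)) ≤ hs d := by
  have hT := TT_le hRT hd h
  have hE := hs_eq (d := d) (by omega)
  have hd22 : (22 : ℝ) ≤ (d : ℝ) := by exact_mod_cast h
  have hd0 : (0 : ℝ) < (d : ℝ) := by linarith
  -- the central binomial coefficient
  have hb : Real.log (bb (d / 2)) ≤ -(1 / 2) * (Real.log (Real.pi / 2) + Real.log d) := by
    have h1 := NCS.log_cb_le (d / 2)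
    have h2 : ((d / 2 : ℕ) : ℝ) = d / 2 := by
      obtain ⟨m, rfl⟩ := hd
      have h3 : (m + m) / 2 = m := by omega
      rw [h3]
      push_cast
      ring
    rw [h2] at h1
    have h4 : Real.log (Real.pi / 2) + Real.log d ≤
        Real.log (Real.pi * (2 * ((d : ℝ) / 2) + 1 / 2) / 2) := by
      have hp := Real.pi_pos
      rw [← Real.log_mul (by positivity) hd0.ne']
      apply Real.log_le_log (by positivity)
      nlinarith
    have h5 : bb (d / 2) = NCS.cb (d / 2) := rfl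
    rw [h5]
    linarith
  -- the potential
  have hp1 : pp ((d : ℝ) - 1) (d - 1) ≤ 75 / 1000 := by
    have h1 := sum_gg_le (d - 1) (by omega)
    have h2 : ((d - 1 : ℕ) : ℝ) = (d : ℝ) - 1 := by
      rw [Nat.cast_sub (by omega)]
      push_cast
      ring
    rw [h2] at h1
    unfold pp
    rw [h2]
    have h3 : (d : ℝ) - 1 + 1 = d := by ring
    rw [h3] at h1 ⊢
    rw [div_le_iff₀ hd0]
    have h4 := hs_log_le hd0
    linarith
  have hT1 : (Real.log ((d : ℝ) + 1) / 2 + 1 / 20) / (d + 1) ≤ 75 / 1000 := by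
    rw [div_le_iff₀ (by linarith)]
    have h4 := hs_log_le (x := (d : ℝ) + 1) (by linarith)
    linarith
  have hpi := hs_log_pi_half
  have key : Real.log d / 2 ≤ ((d : ℝ) + 1) * hs d := by
    rw [hE]
    linarith
  rw [div_le_iff₀ (by linarith)]
  linarith

/-- upper bound for the gain; `-log bb (d/2) ≤ (1/2) log (π (d + 1) / 2)`, `T_d ≥ 0` -/
theorem hs_le {d : ℕ} (hd : Even d) (h : 2 ≤ d) (hT : 0 ≤ TT d) :
    hs d ≤ Real.log (Real.pi * (d + 1) / 2) / (2 * (d + 1)) := by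
  have hE := hs_eq h
  have hd2 : (2 : ℝ) ≤ (d : ℝ) := by exact_mod_cast h
  have hpp : 0 ≤ pp ((d : ℝ) - 1) (d - 1) := by
    apply pp_nonneg
    rw [Nat.cast_sub (by omega)]
    push_cast
    exact le_rfl
  have hb : -Real.log (bb (d / 2)) ≤ 1 / 2 * Real.log (Real.pi * (d + 1) / 2) := by
    have h1 := NCS.cb_wallis (d / 2)
    have h2 : ((d / 2 : ℕ) : ℝ) = d / 2 := by
      obtain ⟨m, rfl⟩ := hd
      have h3 : (m + m) / 2 = m := by omega
      rw [h3]
      push_cast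
      ring
    rw [h2] at h1
    have h3 : 2 * ((d : ℝ) / 2) + 1 = d + 1 := by ring
    rw [h3] at h1
    have h4 := Real.Wallis.W_le (d / 2)
    have h5 := NCS.cb_pos (d / 2)
    have h6 : 1 ≤ NCS.cb (d / 2) ^ 2 * (Real.pi * (d + 1) / 2) := by
      have h7 : NCS.cb (d / 2) ^ 2 * ((d : ℝ) + 1) * Real.Wallis.W (d / 2) ≤
          NCS.cb (d / 2) ^ 2 * ((d : ℝ) + 1) * (Real.pi / 2) :=
        mul_le_mul_of_nonneg_left h4 (by positivity)
      rw [h1] at h7
      calc (1 : ℝ) ≤ _ := h7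
        _ = _ := by ring
    have h8 := Real.log_nonneg h6
    have hp := Real.pi_pos
    rw [Real.log_mul (by positivity) (by positivity), Real.log_pow] at h8
    have h9 : bb (d / 2) = NCS.cb (d / 2) := rfl
    rw [h9]
    push_cast at h8
    linarith
  rw [le_div_iff₀ (by linarith)]
  have h10 : hs d * (2 * ((d : ℝ) + 1)) = 2 * (((d : ℝ) + 1) * hs d) := by ring
  rw [h10, hE]
  linarith

end MP_a3e05c_co.KL
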