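import Pool.Agent.Lib.MP_a3e05c_co.NUM.TabA
import Pool.Agent.Lib.MP_a3e05c_co.S1.Hs

/-!
# EULER, scalar block S1: table of `hs d` (lower bounds) and `TT d` (upper bounds), `d ≤ 22`
-/

open Finset

namespace MP_a3e05c_co.KL

/-- upper bound of `- S * AA d`, `d ≤ 22` -/
def HsTab_a (d : ℕ) : ℤ :=
  (NUM.lgU (2 ^ ((d + 1) * d / 2)) (NUM.RTl (d + 1)) : ℤ) / (d + 1 : ℕ) + 1

private theorem HsTab_logPK (hR : NUM.RTlow) {d : ℕ} (hd : Even d) (h2 : 2 ≤ d) (h : d ≤ 22) :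
    -Real.log (PK (d + 1)) ≤
      Real.log (((2 ^ ((d + 1) * d / 2) : ℕ) : ℝ) / (NUM.RTl (d + 1) : ℝ)) := by
  obtain ⟨h3, h4, h5⟩ := NUM.RTl_le hR hd.add_one (by omega) (by omega)
  have e1 : (d + 1) * (d + 1 - 1) / 2 = (d + 1) * d / 2 := rfl
  rw [← Real.log_inv]
  have h9 : (0 : ℝ) < NUM.RTl (d + 1) := by exact_mod_cast h4
  have h10 : (NUM.RTl (d + 1) : ℝ) ≤ RT (d + 1) := by exact_mod_cast h3
  unfold PK
  rw [inv_div, e1]
  apply Real.log_le_log
  · have h13 : (0 : ℝ) < RT (d + 1) := lt_of_lt_of_le h9 h10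
    exact div_pos (pow_pos two_pos _) h13
  · rw [Nat.cast_pow, Nat.cast_ofNat]
    exact div_le_div_of_nonneg_left (pow_pos two_pos _).le h9 h10

private theorem HsTab_le (hR : NUM.RTlow) {d : ℕ} (hd : Even d) (h2 : 2 ≤ d) (h : d ≤ 22) :
    NUM.S * -AA d ≤ (HsTab_a d : ℝ) := by
  have hS := NUM.S_pos
  have hd1 : (0 : ℝ) < (d : ℝ) + 1 := by positivity
  obtain ⟨h3, h4, h5⟩ := NUM.RTl_le hR hd.add_one (by omega) (by omega)
  have e1 : (d + 1) * (d + 1 - 1) / 2 = (d + 1) * d / 2 := rfl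
  rw [e1] at h5
  have h6 := NUM.le_lgU h4 h5
  have h7 := NUM.lt_ediv_add_one (NUM.lgU (2 ^ ((d + 1) * d / 2)) (NUM.RTl (d + 1)) : ℤ) (d + 1)
    (Nat.succ_pos d)
  rw [Int.cast_natCast] at h7
  have h8 := HsTab_logPK hR hd h2 h
  unfold AA HsTab_a
  have h11 : NUM.S * -(Real.log (PK (d + 1)) / ((d : ℝ) + 1)) =
      (NUM.S * -Real.log (PK (d + 1))) / ((d : ℝ) + 1) := by ring
  rw [h11]
  have h12 : (NUM.S * -Real.log (PK (d + 1))) ≤
      (NUM.lgU (2 ^ ((d + 1) * d / 2)) (NUM.RTl (d + 1)) : ℝ) :=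
    (mul_le_mul_of_nonneg_left h8 hS.le).trans h6
  calc (NUM.S * -Real.log (PK (d + 1))) / ((d : ℝ) + 1)
      ≤ (NUM.lgU (2 ^ ((d + 1) * d / 2)) (NUM.RTl (d + 1)) : ℝ) / ((d : ℝ) + 1) :=
        div_le_div_of_nonneg_right h12 hd1.le
    _ = (NUM.lgU (2 ^ ((d + 1) * d / 2)) (NUM.RTl (d + 1)) : ℝ) / ((d + 1 : ℕ) : ℝ) := by
        push_cast; rfl
    _ ≤ _ := by
      refine h7.trans (le_of_eq ?_)
      push_cast
      rfl

/-- lower bound of `hs d` from an integer inequality -/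
private theorem HsTab_hs (hR : NUM.RTlow) {d : ℕ} (hd : Even d) (h2 : 2 ≤ d) (h : d ≤ 22) {c : ℤ}
    (hc : c * (NUM.S : ℤ) ≤ 10000 * (NUM.pL d (d - 1) - HsTab_a d)) :
    (c : ℝ) / 10000 ≤ hs d := by
  have hS := NUM.S_pos
  have h3 := HsTab_le hR hd h2 h
  have h4 := NUM.pL_le h2 (show d - 1 < d by omega)
  have h5 : (c : ℝ) * NUM.S ≤ 10000 * ((NUM.pL d (d - 1) : ℝ) - HsTab_a d) := by exact_mod_cast hc
  have h6 : (c : ℝ) * NUM.S ≤ 10000 * (NUM.S * hs d) := by
    unfold hs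
    nlinarith
  rw [div_le_iff₀ (by norm_num)]
  have h7 : NUM.S * (c : ℝ) ≤ NUM.S * (hs d * 10000) := by linarith
  exact le_of_mul_le_mul_left h7 hS

/-- upper bound of `TT d` from an integer inequality -/
private theorem HsTab_TT (hR : NUM.RTlow) {d : ℕ} (hd : Even d) (h2 : 2 ≤ d) (h : d ≤ 22) {c : ℤ}
    (hc : 10000 * ((d + 1 : ℕ) * HsTab_a d - (d : ℕ) * NUM.pL d (d - 1)) ≤ c * (NUM.S : ℤ)) :
    TT d ≤ (c : ℝ) / 10000 := by
  have hS := NUM.S_pos
  have h3 := HsTab_le hR hd h2 h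
  have h4 := NUM.pL_le h2 (show d - 1 < d by omega)
  have h5 : 10000 * (((d : ℝ) + 1) * HsTab_a d - (d : ℝ) * NUM.pL d (d - 1)) ≤ (c : ℝ) * NUM.S := by
    exact_mod_cast hc
  have h8 : TT d = d * phi d (d - 1) - ((d : ℝ) + 1) * AA d := by
    have h9 := TT_eq (d := d) (by omega)
    unfold hs at h9
    linarith
  have hd0 : (0 : ℝ) ≤ (d : ℝ) := Nat.cast_nonneg d
  have h10 : ((d : ℝ) + 1) * (NUM.S * -AA d) ≤ ((d : ℝ) + 1) * HsTab_a d :=
    mul_le_mul_of_nonneg_left h3 (by linarith)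
  have h11 : (d : ℝ) * NUM.pL d (d - 1) ≤ (d : ℝ) * (NUM.S * -phi d (d - 1)) :=
    mul_le_mul_of_nonneg_left h4 hd0
  rw [le_div_iff₀ (by norm_num)]
  have h7 : NUM.S * (TT d * 10000) ≤ NUM.S * (c : ℝ) := by
    rw [h8]
    linarith
  exact le_of_mul_le_mul_left h7 hS

/-- lower bound of `pp (d - 1) k` from an integer inequality -/
private theorem HsTab_pp {d k : ℕ} (h2 : 2 ≤ d) (hk : k < d) {c : ℤ}
    (hc : c * (NUM.S : ℤ) ≤
      10000 * ((NUM.lgL (4 ^ (d / 2)) (NUM.cbN (d / 2)) : ℤ) - NUM.pU d k)) :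
    (c : ℝ) / 10000 ≤ pp ((d : ℝ) - 1) k := by
  have hS := NUM.S_pos
  have h3 := NUM.le_pU h2 hk
  have h4 := NUM.lgL_le (NUM.cbN_pos (d / 2)) (NUM.cbN_le (d / 2))
  have h5 : Real.log (bb (d / 2)) = -Real.log ((4 ^ (d / 2) : ℕ) / (NUM.cbN (d / 2) : ℕ)) := by
    rw [← Real.log_inv, inv_div, NUM.cbN_eq]
    unfold bb
    push_cast
    rfl
  have h6 := phi_G hk
  have h7 : (c : ℝ) * NUM.S ≤
      10000 * ((NUM.lgL (4 ^ (d / 2)) (NUM.cbN (d / 2)) : ℝ) - NUM.pU d k) := by exact_mod_cast hc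
  rw [div_le_iff₀ (by norm_num)]
  have h8 : pp ((d : ℝ) - 1) k = phi d k - Real.log (bb (d / 2)) := by linarith
  have h9 : NUM.S * (c : ℝ) ≤ NUM.S * (pp ((d : ℝ) - 1) k * 10000) := by
    rw [h8, h5]
    linarith
  exact le_of_mul_le_mul_left h9 hS

theorem hs_tab (hR : NUM.RTlow) : 2310 / 10000 ≤ hs 2 ∧ 1698 / 10000 ≤ hs 4 ∧
    1456 / 10000 ≤ hs 6 ∧ 1286 / 10000 ≤ hs 8 ∧ 1155 / 10000 ≤ hs 10 ∧ 1051 / 10000 ≤ hs 12 ∧
    965 / 10000 ≤ hs 14 ∧ 893 / 10000 ≤ hs 16 ∧ 832 / 10000 ≤ hs 18 ∧ 780 / 10000 ≤ hs 20 := by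
  refine ⟨?_, ?_, ?_, ?_, ?_, ?_, ?_, ?_, ?_, ?_⟩
  · simpa only [Int.cast_ofNat] using HsTab_hs hR (d := 2) (c := 2310) (by decide) (by decide) (by decide)
      (by decide +kernel)
  · simpa only [Int.cast_ofNat] using HsTab_hs hR (d := 4) (c := 1698) (by decide) (by decide) (by decide)
      (by decide +kernel)
  · simpa only [Int.cast_ofNat] using HsTab_hs hR (d := 6) (c := 1456) (by decide) (by decide) (by decide)
      (by decide +kernel)
  · simpa only [Int.cast_ofNat] using HsTab_hs hR (d := 8) (c := 1286) (by decide) (by decide) (by decide)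
      (by decide +kernel)
  · simpa only [Int.cast_ofNat] using HsTab_hs hR (d := 10) (c := 1155) (by decide) (by decide) (by decide)
      (by decide +kernel)
  · simpa only [Int.cast_ofNat] using HsTab_hs hR (d := 12) (c := 1051) (by decide) (by decide) (by decide)
      (by decide +kernel)
  · simpa only [Int.cast_ofNat] using HsTab_hs hR (d := 14) (c := 965) (by decide) (by decide) (by decide)
      (by decide +kernel)
  · simpa only [Int.cast_ofNat] using HsTab_hs hR (d := 16) (c := 893) (by decide) (by decide) (by decide)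
      (by decide +kernel)
  · simpa only [Int.cast_ofNat] using HsTab_hs hR (d := 18) (c := 832) (by decide) (by decide) (by decide)
      (by decide +kernel)
  · simpa only [Int.cast_ofNat] using HsTab_hs hR (d := 20) (c := 780) (by decide) (by decide) (by decide)
      (by decide +kernel)

private theorem HsTab_TT_two (hR : NUM.RTlow) : TT 2 ≤ 0 := by
  have h1 := HsTab_logPK hR (d := 2) (by decide) (by decide) (by decide)
  have e1 : (((2 ^ ((2 + 1) * 2 / 2) : ℕ) : ℝ) / (NUM.RTl (2 + 1) : ℝ)) = 2 ^ 2 := by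
    norm_num [NUM.RTl]
  rw [e1, Real.log_pow] at h1
  have h2 : Real.log (bb (2 / 2)) = -Real.log 2 := by
    rw [← Real.log_inv]
    congr 1
    unfold bb
    norm_num [Nat.centralBinom]
  have h3 : gg (((2 : ℕ) : ℝ) - 1) 0 = 0 := gg_zero _
  have h4 : gg (((2 : ℕ) : ℝ) - 1) 1 = 0 := gg_one _
  unfold TT AA
  rw [Finset.sum_range_succ, Finset.sum_range_one]
  unfold ffp
  rw [h2, h3, h4]
  have h5 : (((2 : ℕ) : ℝ) + 1) * (Real.log (PK (2 + 1)) / (((2 : ℕ) : ℝ) + 1)) =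
      Real.log (PK (2 + 1)) := by
    field_simp
  rw [h5]
  push_cast at h1 ⊢
  linarith

/-- upper bounds of the loss (`d = 22` with the kernel value of `RT 23`) -/
theorem TT_tab (hR : NUM.RTlow) : TT 2 ≤ 0 ∧ TT 4 ≤ 714 / 10000 ∧ TT 6 ≤ 803 / 10000 ∧
    TT 8 ≤ 780 / 10000 ∧ TT 10 ≤ 735 / 10000 ∧ TT 12 ≤ 689 / 10000 ∧ TT 14 ≤ 647 / 10000 ∧
    TT 16 ≤ 608 / 10000 ∧ TT 18 ≤ 574 / 10000 ∧ TT 20 ≤ 544 / 10000 ∧ TT 22 ≤ 562 / 10000 := by
  refine ⟨HsTab_TT_two hR, ?_, ?_, ?_, ?_, ?_, ?_, ?_, ?_, ?_, ?_⟩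
  · simpa only [Int.cast_ofNat] using HsTab_TT hR (d := 4) (c := 714) (by decide) (by decide) (by decide)
      (by decide +kernel)
  · simpa only [Int.cast_ofNat] using HsTab_TT hR (d := 6) (c := 803) (by decide) (by decide) (by decide)
      (by decide +kernel)
  · simpa only [Int.cast_ofNat] using HsTab_TT hR (d := 8) (c := 780) (by decide) (by decide) (by decide)
      (by decide +kernel)
  · simpa only [Int.cast_ofNat] using HsTab_TT hR (d := 10) (c := 735) (by decide) (by decide) (by decide)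
      (by decide +kernel)
  · simpa only [Int.cast_ofNat] using HsTab_TT hR (d := 12) (c := 689) (by decide) (by decide) (by decide)
      (by decide +kernel)
  · simpa only [Int.cast_ofNat] using HsTab_TT hR (d := 14) (c := 647) (by decide) (by decide) (by decide)
      (by decide +kernel)
  · simpa only [Int.cast_ofNat] using HsTab_TT hR (d := 16) (c := 608) (by decide) (by decide) (by decide)
      (by decide +kernel)
  · simpa only [Int.cast_ofNat] using HsTab_TT hR (d := 18) (c := 574) (by decide) (by decide) (by decide)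
      (by decide +kernel)
  · simpa only [Int.cast_ofNat] using HsTab_TT hR (d := 20) (c := 544) (by decide) (by decide) (by decide)
      (by decide +kernel)
  · simpa only [Int.cast_ofNat] using HsTab_TT hR (d := 22) (c := 562) (by decide) (by decide) (by decide)
      (by decide +kernel)

/-- lower bounds for the potential near the top -/
theorem pp_tab : 128 / 10000 ≤ pp 3 2 ∧ 603 / 10000 ≤ pp 3 3 ∧ 252 / 10000 ≤ pp 5 4 ∧
    635 / 10000 ≤ pp 5 5 ∧ 607 / 10000 ≤ pp 7 7 ∧ 570 / 10000 ≤ pp 9 9 ∧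
    500 / 10000 ≤ pp 11 11 := by
  have e4 : ((4 : ℕ) : ℝ) - 1 = 3 := by norm_num
  have e6 : ((6 : ℕ) : ℝ) - 1 = 5 := by norm_num
  have e8 : ((8 : ℕ) : ℝ) - 1 = 7 := by norm_num
  have e10 : ((10 : ℕ) : ℝ) - 1 = 9 := by norm_num
  have e12 : ((12 : ℕ) : ℝ) - 1 = 11 := by norm_num
  refine ⟨?_, ?_, ?_, ?_, ?_, ?_, ?_⟩
  · have h := HsTab_pp (d := 4) (k := 2) (c := 128) (by decide) (by decide) (by decide +kernel)
    rw [e4] at h
    simpa only [Int.cast_ofNat] using h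
  · have h := HsTab_pp (d := 4) (k := 3) (c := 603) (by decide) (by decide) (by decide +kernel)
    rw [e4] at h
    simpa only [Int.cast_ofNat] using h
  · have h := HsTab_pp (d := 6) (k := 4) (c := 252) (by decide) (by decide) (by decide +kernel)
    rw [e6] at h
    simpa only [Int.cast_ofNat] using h
  · have h := HsTab_pp (d := 6) (k := 5) (c := 635) (by decide) (by decide) (by decide +kernel)
    rw [e6] at h
    simpa only [Int.cast_ofNat] using h
  · have h := HsTab_pp (d := 8) (k := 7) (c := 607) (by decide) (by decide) (by decide +kernel)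
    rw [e8] at h
    simpa only [Int.cast_ofNat] using h
  · have h := HsTab_pp (d := 10) (k := 9) (c := 570) (by decide) (by decide) (by decide +kernel)
    rw [e10] at h
    simpa only [Int.cast_ofNat] using h
  · have h := HsTab_pp (d := 12) (k := 11) (c := 500) (by decide) (by decide) (by decide +kernel)
    rw [e12] at h
    simpa only [Int.cast_ofNat] using h

end MP_a3e05c_co.KL
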