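import Pool.Agent.Lib.MP_a3e05c_co.S1.N2A
import Pool.Agent.Lib.MP_a3e05c_co.S1.HsTab

/-!
# EULER, scalar block S1: full neighbours, `k ≥ 16`
-/

open Finset

namespace MP_a3e05c_co.KL

/-- lower bound of `hs e` for even `e ≤ k` (`e₀ = 2 (k / 2)` is the largest even number `≤ k`) -/
noncomputable def sg1 (k : ℕ) : ℝ :=
  Real.log (((2 * (k / 2) : ℕ) : ℝ)) / (2 * (((2 * (k / 2) : ℕ) : ℝ) + 1))

theorem N2L_log {x : ℝ} (hx : 16 ≤ x) : Real.log x ≤ 27726 / 10000 + (x - 16) / 16 := by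
  have h1 := Real.log_le_sub_one_of_pos (x := x / 16) (by positivity)
  have h2 : Real.log (x / 16) = Real.log x - 4 * Real.log 2 := by
    rw [Real.log_div (by linarith) (by norm_num)]
    have h3 : (16 : ℝ) = 2 ^ 4 := by norm_num
    rw [h3, Real.log_pow]
    norm_num
  have h4 := Real.log_two_lt_d9
  rw [h2] at h1
  norm_num at h4 ⊢
  linarith

/-- `log x / (2 (x + 1))` is decreasing for `x ≥ 4`; `hs_ge` for `e ≥ 22`, `hs_tab` below -/
theorem sg1_le (hRT : RTmain) (hR : NUM.RTlow) {k e : ℕ} (hk : 16 ≤ k) (he : Even e)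
    (h2 : 2 ≤ e) (hek : e ≤ k) : sg1 k ≤ hs e := by
  unfold sg1
  have he0 : e ≤ 2 * (k / 2) := by
    obtain ⟨m, rfl⟩ := he
    omega
  have h16 : 16 ≤ 2 * (k / 2) := by omega
  generalize 2 * (k / 2) = n at he0 h16
  have hn16 : (16 : ℝ) ≤ (n : ℝ) := by exact_mod_cast h16
  have hlog := N2L_log hn16
  have hden : (0 : ℝ) < 2 * ((n : ℝ) + 1) := by linarith
  by_cases h22 : 22 ≤ e
  · have h3 := hs_ge hRT he h22
    refine le_trans ?_ h3
    have he22 : (22 : ℝ) ≤ (e : ℝ) := by exact_mod_cast h22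
    have hen : (e : ℝ) ≤ (n : ℝ) := by exact_mod_cast he0
    have he0' : (0 : ℝ) < (e : ℝ) := by linarith
    have h4 : Real.log n ≤ Real.log e + ((n : ℝ) / e - 1) := by
      have h5 := Real.log_le_sub_one_of_pos (x := (n : ℝ) / e) (by positivity)
      rw [Real.log_div (by linarith) (by linarith)] at h5
      linarith
    have h5 : (2 : ℝ) ≤ Real.log e := by
      have h6 : Real.log (2 ^ 4) ≤ Real.log e := Real.log_le_log (by norm_num) (by linarith)
      rw [Real.log_pow] at h6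
      have h7 := Real.log_two_gt_d9
      norm_num at h6 h7 ⊢
      linarith
    rw [div_le_div_iff₀ hden (by linarith)]
    have h6 : (n : ℝ) / e - 1 = ((n : ℝ) - e) / e := by
      field_simp
    have h7 : ((e : ℝ) + 1) * (((n : ℝ) - e) / e) ≤ ((n : ℝ) - e) * Real.log e := by
      have h8 : ((e : ℝ) + 1) * (((n : ℝ) - e) / e) = ((n : ℝ) - e) * (((e : ℝ) + 1) / e) := by
        field_simp
      rw [h8]
      refine mul_le_mul_of_nonneg_left ?_ (by linarith)
      refine le_trans ?_ h5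
      rw [div_le_iff₀ he0']
      linarith
    have h8 : Real.log n * ((e : ℝ) + 1) ≤ (Real.log e + ((n : ℝ) - e) / e) * ((e : ℝ) + 1) := by
      rw [h6] at h4
      exact mul_le_mul_of_nonneg_right h4 (by linarith)
    nlinarith
  · obtain ⟨t2, t4, t6, t8, t10, t12, t14, t16, t18, t20⟩ := hs_tab hR
    have hA : Real.log n / (2 * ((n : ℝ) + 1)) ≤ 825 / 10000 := by
      rw [div_le_iff₀ hden]
      linarith
    obtain ⟨m, rfl⟩ := he
    have hm : m ≤ 10 := by omega
    have hm1 : 1 ≤ m := by omega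
    interval_cases m
    · exact hA.trans (le_trans (by norm_num) t2)
    · exact hA.trans (le_trans (by norm_num) t4)
    · exact hA.trans (le_trans (by norm_num) t6)
    · exact hA.trans (le_trans (by norm_num) t8)
    · exact hA.trans (le_trans (by norm_num) t10)
    · exact hA.trans (le_trans (by norm_num) t12)
    · exact hA.trans (le_trans (by norm_num) t14)
    · exact hA.trans (le_trans (by norm_num) t16)
    · exact hA.trans (le_trans (by norm_num) t18)
    · have h20 : (20 : ℝ) ≤ (n : ℝ) := by exact_mod_cast he0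
      refine le_trans ?_ t20
      rw [div_le_iff₀ hden]
      linarith

theorem N2L_even {k : ℕ} (hk : Even k) (hk16 : 16 ≤ k) : Simp (k + 2) k (sg1 k) := by
  obtain ⟨m, rfl⟩ := hk
  have hm : (8 : ℝ) ≤ (m : ℝ) := by
    have : 8 ≤ m := by omega
    exact_mod_cast this
  have e1 : (m + m) / 2 = m := by omega
  have hr := rk_lt_half (m + m)
  unfold Simp
  have hY : ((m + m : ℕ) : ℝ) - YY (m + m + 2) (m + m) = 6 * m / (4 * m + 5) := by
    unfold YY
    rw [e1]
    push_cast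
    have h1 : (4 * (m : ℝ) + 5) ≠ 0 := by positivity
    have h2 : 2 * ((m : ℝ) + m + 2) + 1 = 4 * m + 5 := by ring
    rw [h2]
    field_simp
    ring
  have hG : GG (((m + m + 2 : ℕ) : ℝ) - 1) (YY (m + m + 2) (m + m)) =
      1 / 2 * Real.log ((4 * m + 5) / 5) := by
    unfold GG YY
    rw [e1]
    push_cast
    have h1 : (4 * (m : ℝ) + 5) ≠ 0 := by positivity
    have h3 : ((m : ℝ) + m + 2 - 1) ≠ 0 := by
      have : (0 : ℝ) < (m : ℝ) + m + 2 - 1 := by linarith
      exact this.ne'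
    have h2 : 2 * ((m : ℝ) + m + 2) + 1 = 4 * m + 5 := by ring
    rw [h2]
    have h4 : 1 - 4 * (m : ℝ) * ((m : ℝ) + m + 2 - 1) / (4 * m + 5) / ((m : ℝ) + m + 2 - 1) =
        ((4 * (m : ℝ) + 5) / 5)⁻¹ := by
      rw [inv_div, div_right_comm, mul_div_cancel_right₀ _ h3]
      field_simp
      ring
    rw [h4, Real.log_inv]
    ring
  have hS : sg1 (m + m) = Real.log (2 * m) / (2 * (2 * m + 1)) := by
    unfold sg1
    rw [e1]
    push_cast
    rfl
  rw [hY, hG, hS]
  push_cast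
  have hlog := N2L_log (x := 2 * (m : ℝ)) (by linarith)
  have h5 : Real.log ((4 * m + 5) / 5) ≤ Real.log (2 * m) - 69 / 100 := by
    have h6 : Real.log (2 * ((4 * (m : ℝ) + 5) / 5)) ≤ Real.log (2 * m) :=
      Real.log_le_log (by positivity) (by linarith)
    rw [Real.log_mul (by norm_num) (by positivity)] at h6
    have h7 := Real.log_two_gt_d9
    norm_num at h7 ⊢
    linarith
  have hL0 : 0 ≤ Real.log (2 * (m : ℝ)) := Real.log_nonneg (by linarith)
  set L := Real.log (2 * (m : ℝ)) with hL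
  set W := Real.log ((4 * (m : ℝ) + 5) / 5) with hW
  -- the key inequality
  have hS1 : (2 * (m : ℝ)) * (L / (2 * (2 * m + 1))) = L / 2 - L / (2 * (2 * m + 1)) := by
    field_simp
    ring
  have hq : L / (2 * m + 1) ≤ 165 / 1000 := by
    rw [div_le_iff₀ (by linarith)]
    linarith
  have hq2 : L / (2 * (2 * m + 1)) = L / (2 * m + 1) / 2 := by
    field_simp
  have hkS : (2 * (m : ℝ)) * (L / (2 * (2 * m + 1))) ≤ L / 2 := by
    rw [hS1]
    have : 0 ≤ L / (2 * (2 * (m : ℝ) + 1)) := by positivity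
    linarith
  have hkS2 : (L - 165 / 1000) / 2 ≤ (2 * (m : ℝ)) * (L / (2 * (2 * m + 1))) := by
    rw [hS1, hq2]
    linarith
  have hmm : (m : ℝ) + m = 2 * m := by ring
  rw [hmm]
  set S := (2 * (m : ℝ)) * (L / (2 * (2 * m + 1))) with hSd
  have h8 : 0 ≤ S - 1 / 2 * W := by linarith
  have h9 : 6 / (4 * (m : ℝ) + 5) * S ≤ S - 1 / 2 * W := by
    have h10 : 6 / (4 * (m : ℝ) + 5) * S ≤ 6 / (4 * (m : ℝ) + 5) * (L / 2) :=
      mul_le_mul_of_nonneg_left hkS (by positivity)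
    have h11 : 6 / (4 * (m : ℝ) + 5) * (L / 2) ≤ 3 / 2 * (L / (2 * m + 1)) := by
      have h12 : 3 / 2 * (L / (2 * m + 1)) - 6 / (4 * (m : ℝ) + 5) * (L / 2) =
          9 * L / (2 * (2 * m + 1) * (4 * m + 5)) := by
        field_simp
        ring
      have h13 : 0 ≤ 9 * L / (2 * (2 * (m : ℝ) + 1) * (4 * m + 5)) := by positivity
      linarith
    linarith
  have h10 : 6 * (m : ℝ) / (4 * m + 5) * S = m * (6 / (4 * (m : ℝ) + 5) * S) := by
    field_simp
  rw [h10]
  have h11 : (m : ℝ) * (6 / (4 * (m : ℝ) + 5) * S) ≤ m * (S - 1 / 2 * W) :=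
    mul_le_mul_of_nonneg_left h9 (by linarith)
  have h12 : (m : ℝ) * (S - 1 / 2 * W) ≤ 2 * m * (1 - rk (m + m)) * (S - 1 / 2 * W) := by
    refine mul_le_mul_of_nonneg_right ?_ h8
    nlinarith
  linarith

theorem N2L_odd {k : ℕ} (hk : Odd k) (hk16 : 16 ≤ k) : Simp (k + 1) k (sg1 k) := by
  obtain ⟨m, rfl⟩ := hk
  have hm : (8 : ℝ) ≤ (m : ℝ) := by
    have : 8 ≤ m := by omega
    exact_mod_cast this
  have e1 : (2 * m + 1) / 2 = m := by omega
  have hr := rk_lt_half (2 * m + 1)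
  unfold Simp
  have hY : ((2 * m + 1 : ℕ) : ℝ) - YY (2 * m + 1 + 1) (2 * m + 1) =
      5 * (2 * m + 1) / (4 * m + 5) := by
    unfold YY
    rw [e1]
    push_cast
    have h1 : (4 * (m : ℝ) + 5) ≠ 0 := by positivity
    have h2 : 2 * (2 * (m : ℝ) + 1 + 1) + 1 = 4 * m + 5 := by ring
    rw [h2]
    field_simp
    ring
  have hG : GG (((2 * m + 1 + 1 : ℕ) : ℝ) - 1) (YY (2 * m + 1 + 1) (2 * m + 1)) =
      1 / 2 * Real.log ((4 * m + 5) / 5) := by
    unfold GG YY
    rw [e1]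
    push_cast
    have h1 : (4 * (m : ℝ) + 5) ≠ 0 := by positivity
    have h3 : (2 * (m : ℝ) + 1 + 1 - 1) ≠ 0 := by
      have : (0 : ℝ) < 2 * (m : ℝ) + 1 + 1 - 1 := by linarith
      exact this.ne'
    have h2 : 2 * (2 * (m : ℝ) + 1 + 1) + 1 = 4 * m + 5 := by ring
    rw [h2]
    have h4 : 1 - 4 * (m : ℝ) * (2 * (m : ℝ) + 1 + 1 - 1) / (4 * m + 5) /
        (2 * (m : ℝ) + 1 + 1 - 1) = ((4 * (m : ℝ) + 5) / 5)⁻¹ := by
      rw [inv_div, div_right_comm, mul_div_cancel_right₀ _ h3]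
      field_simp
      ring
    rw [h4, Real.log_inv]
    ring
  have hS : sg1 (2 * m + 1) = Real.log (2 * m) / (2 * (2 * m + 1)) := by
    unfold sg1
    rw [e1]
    push_cast
    rfl
  rw [hY, hG, hS]
  push_cast
  have hlog := N2L_log (x := 2 * (m : ℝ)) (by linarith)
  have h5 : Real.log ((4 * m + 5) / 5) ≤ Real.log (2 * m) - 768 / 1000 := by
    have h6 : Real.log (80 / 37 * ((4 * (m : ℝ) + 5) / 5)) ≤ Real.log (2 * m) :=
      Real.log_le_log (by positivity) (by linarith)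
    rw [Real.log_mul (by norm_num) (by positivity)] at h6
    have h7 := Real.log_two_gt_d9
    have h8 : Real.log (80 / 37) = Real.log 2 + Real.log (40 / 37) := by
      rw [← Real.log_mul (by norm_num) (by norm_num)]
      norm_num
    have h9 : (75 / 1000 : ℝ) ≤ Real.log (40 / 37) := by
      have h10 := Real.one_sub_inv_le_log_of_pos (x := (40 / 37 : ℝ)) (by norm_num)
      refine le_trans ?_ h10
      norm_num
    norm_num at h7 h9 ⊢
    linarith
  have hL0 : 0 ≤ Real.log (2 * (m : ℝ)) := Real.log_nonneg (by linarith)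
  set L := Real.log (2 * (m : ℝ)) with hL
  set W := Real.log ((4 * (m : ℝ) + 5) / 5) with hW
  have hS1 : (2 * (m : ℝ) + 1) * (L / (2 * (2 * m + 1))) = L / 2 := by
    field_simp
  rw [hS1]
  have h8 : 0 ≤ L / 2 - 1 / 2 * W := by linarith
  have h9 : 5 / (4 * (m : ℝ) + 5) * (L / 2) ≤ 1 / 2 * (L / 2 - 1 / 2 * W) := by
    have h10 : 5 / (4 * (m : ℝ) + 5) * (L / 2) ≤ 1875 / 10000 := by
      rw [div_mul_eq_mul_div, div_le_iff₀ (by linarith)]
      linarith
    linarith
  have h10 : 5 * (2 * (m : ℝ) + 1) / (4 * m + 5) * (L / 2) =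
      (2 * m + 1) * (5 / (4 * (m : ℝ) + 5) * (L / 2)) := by
    field_simp
  rw [h10]
  have h11 : (2 * (m : ℝ) + 1) * (5 / (4 * (m : ℝ) + 5) * (L / 2)) ≤
      (2 * m + 1) * (1 / 2 * (L / 2 - 1 / 2 * W)) :=
    mul_le_mul_of_nonneg_left h9 (by linarith)
  have h12 : (2 * (m : ℝ) + 1) * (1 / 2 * (L / 2 - 1 / 2 * W)) ≤
      (2 * m + 1) * (1 - rk (2 * m + 1)) * (L / 2 - 1 / 2 * W) := by
    rw [← mul_assoc]
    refine mul_le_mul_of_nonneg_right ?_ h8
    nlinarith
  linarith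

/-- `Simp` at the smallest `d` (`k + 2` for even `k`, `k + 1` for odd `k`) and `simp_mono` -/
theorem N2_large {d k : ℕ} (hd : Even d) (hk : k < d) (hk16 : 16 ≤ k) : Crit d k (sg1 k) := by
  have hσ : 0 ≤ sg1 k := by
    unfold sg1
    have h16 : 16 ≤ 2 * (k / 2) := by omega
    have h1 : (1 : ℝ) ≤ ((2 * (k / 2) : ℕ) : ℝ) := by
      have : 1 ≤ 2 * (k / 2) := by omega
      exact_mod_cast this
    have h2 := Real.log_nonneg h1
    positivity
  refine crit_of_simp hd (by omega) hk hσ ?_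
  rcases Nat.even_or_odd k with h | h
  · refine simp_mono (d₀ := k + 2) ?_ (by omega) (by omega) hσ (N2L_even h hk16)
    obtain ⟨a, rfl⟩ := hd
    obtain ⟨b, rfl⟩ := h
    omega
  · exact simp_mono (d₀ := k + 1) (by omega) (by omega) (by omega) hσ (N2L_odd h hk16)

end MP_a3e05c_co.KL
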