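import Pool.Agent.Lib.MP_a3e05c_co.S1.N2A
import Pool.Agent.Lib.MP_a3e05c_co.S1.HsTab

/-!
# EULER, scalar block S1: full neighbours, `k ≤ 15`
-/

open Finset

namespace MP_a3e05c_co.KL

/-- lower bound of `hs e`, `e ≤ k`, for `2 ≤ k ≤ 15` -/
noncomputable def sg0 (k : ℕ) : ℝ :=
  if k ≤ 3 then 2310 / 10000 else if k ≤ 5 then 1698 / 10000 else if k ≤ 7 then 1456 / 10000
  else if k ≤ 9 then 1286 / 10000 else if k ≤ 11 then 1155 / 10000
  else if k ≤ 13 then 1051 / 10000 else 965 / 10000

theorem sg0_le (hR : NUM.RTlow) {k e : ℕ} (hk : k ≤ 15) (he : Even e) (h2 : 2 ≤ e)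
    (hek : e ≤ k) : sg0 k ≤ hs e := by
  obtain ⟨t2, t4, t6, t8, t10, t12, t14, _⟩ := hs_tab hR
  obtain ⟨f, hf⟩ := he
  have hf7 : f ≤ 7 := by omega
  have hf1 : 1 ≤ f := by omega
  subst hf
  unfold sg0
  interval_cases f <;> norm_num at * <;> split_ifs <;> linarith

private theorem N2S_up {s y : ℝ} {a b c : ℕ} (hb : 0 < b) (hab : b ≤ a)
    (h : 1 - y / s = (b : ℝ) / a) (hc : NUM.lgU a b ≤ c) :
    GG s y ≤ (c : ℝ) / 2000000000000000 := by
  have h1 := NUM.le_lgU hb hab
  have h2 : (NUM.lgU a b : ℝ) ≤ c := by exact_mod_cast hc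
  have h3 : ((NUM.S : ℕ) : ℝ) = 1000000000000000 := by norm_num [NUM.S]
  rw [h3] at h1
  have h4 : Real.log ((b : ℝ) / a) = -Real.log ((a : ℝ) / b) := by
    rw [← Real.log_inv, inv_div]
  unfold GG
  rw [h, h4, le_div_iff₀ (by norm_num)]
  linarith

private theorem N2S_low {s y : ℝ} {a b c : ℕ} (hb : 0 < b) (hab : b ≤ a)
    (h : 1 - y / s = (b : ℝ) / a) (hc : c ≤ NUM.lgL a b) :
    (c : ℝ) / 2000000000000000 ≤ GG s y := by
  have h1 := NUM.lgL_le hb hab
  have h2 : (c : ℝ) ≤ NUM.lgL a b := by exact_mod_cast hc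
  have h3 : ((NUM.S : ℕ) : ℝ) = 1000000000000000 := by norm_num [NUM.S]
  rw [h3] at h1
  have h4 : Real.log ((b : ℝ) / a) = -Real.log ((a : ℝ) / b) := by
    rw [← Real.log_inv, inv_div]
  unfold GG
  rw [h, h4, div_le_iff₀ (by norm_num)]
  linarith

private theorem N2S_YY {d k K : ℕ} {Y : ℝ} (hK : k / 2 = K)
    (h : 4 * (K : ℝ) * ((d : ℝ) - 1) / (2 * d + 1) = Y) : YY d k = Y := by
  unfold YY
  rw [hK, h]

private theorem N2S_simp {d k : ℕ} {σ Y r G : ℝ} (hY : YY d k = Y) (hr : rk k = r)
    (hG : GG ((d : ℝ) - 1) Y ≤ G) (hkr : 0 ≤ (k : ℝ) * (1 - r))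
    (h : ((k : ℝ) - Y) * (k * σ) ≤ k * (1 - r) * (k * σ - G)) : Simp d k σ := by
  unfold Simp
  rw [hY, hr]
  exact h.trans (mul_le_mul_of_nonneg_left (by linarith) hkr)

private theorem N2S_end {d k : ℕ} (hd : Even d) (hk2 : 2 ≤ k) (hk : k < d)
    {σ P Y z G H' : ℝ} (hσ : 0 ≤ σ) (hP : P ≤ pp ((d : ℝ) - 1) k) (hY : YY d k = Y)
    (hz : (k : ℝ) * rk k = z) (hG : GG ((d : ℝ) - 1) Y ≤ G) (hH : H' ≤ GG ((d : ℝ) - 1) z)
    (h1 : ((k : ℝ) - Y) / (2 * ((d : ℝ) - 1 - z)) ≤ P + k * σ - G)
    (h2 : ((k : ℝ) - Y) * (P + k * σ - H') ≤ (k - z) * (P + k * σ - G))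
    (hkY : 0 ≤ (k : ℝ) - Y) (hkz : 0 ≤ (k : ℝ) - z) : Crit d k σ := by
  refine crit_of_end hd hk2 hk hσ hP ?_ ?_
  · rw [hY, hz]
    linarith
  · rw [mul_sub (k : ℝ) 1, mul_one, hY, hz]
    have h3 := mul_le_mul_of_nonneg_left (sub_le_sub_left hH (P + k * σ)) hkY
    have h4 := mul_le_mul_of_nonneg_left (sub_le_sub_left hG (P + k * σ)) hkz
    linarith

private theorem N2S_2 {d : ℕ} (hd : Even d) (hk : 2 < d) : Crit d 2 (sg0 2) := by
  have hs : sg0 2 = 2310 / 10000 := by
    unfold sg0
    norm_num
  rw [hs]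
  by_cases h4 : d = 4
  · subst h4
    refine N2S_end (Y := 4 / 3) (z := 2 / 9) (P := 128 / 10000) hd (by norm_num) hk (by norm_num) ?_
      (N2S_YY (K := 1) (by norm_num) (by norm_num)) ?_
      (N2S_up (a := 9) (b := 5) (c := 587786665902119) (by norm_num)
        (by norm_num) (by norm_num) (by decide +kernel))
      (N2S_low (a := 27) (b := 25) (c := 76961040136128) (by norm_num)
        (by norm_num) (by norm_num) (by decide +kernel)) (by norm_num) (by norm_num) (by norm_num)
      (by norm_num)
    · have h1 := pp_tab.1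
      have h2 : (((4 : ℕ) : ℝ) - 1) = 3 := by norm_num
      rw [h2]
      exact h1
    · unfold rk
      norm_num
  · have h0 : 6 ≤ d := by
      obtain ⟨e, he⟩ := hd
      omega
    refine crit_of_simp hd (by norm_num) hk (by norm_num) (simp_mono h0 (by norm_num)
      (by norm_num) (by norm_num) ?_)
    refine N2S_simp (Y := 20 / 13) (r := 1 / 9)
      (N2S_YY (K := 1) (by norm_num) (by norm_num)) ?_
      (N2S_up (a := 13) (b := 9) (c := 367724781125317) (by norm_num) (by norm_num)
        (by norm_num) (by decide +kernel)) (by norm_num) (by norm_num)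
    unfold rk
    norm_num

private theorem N2S_3 {d : ℕ} (hd : Even d) (hk : 3 < d) : Crit d 3 (sg0 3) := by
  have hs : sg0 3 = 2310 / 10000 := by
    unfold sg0
    norm_num
  rw [hs]
  by_cases h4 : d = 4
  · subst h4
    refine N2S_end (Y := 4 / 3) (z := 1 / 1) (P := 603 / 10000) hd (by norm_num) hk (by norm_num) ?_
      (N2S_YY (K := 1) (by norm_num) (by norm_num)) ?_
      (N2S_up (a := 9) (b := 5) (c := 587786665902119) (by norm_num)
        (by norm_num) (by norm_num) (by decide +kernel))
      (N2S_low (a := 3) (b := 2) (c := 405465107108164) (by norm_num)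
        (by norm_num) (by norm_num) (by decide +kernel)) (by norm_num) (by norm_num) (by norm_num)
      (by norm_num)
    · have h1 := pp_tab.2.1
      have h2 : (((4 : ℕ) : ℝ) - 1) = 3 := by norm_num
      rw [h2]
      exact h1
    · unfold rk
      norm_num
  · have h0 : 6 ≤ d := by
      obtain ⟨e, he⟩ := hd
      omega
    refine crit_of_simp hd (by norm_num) hk (by norm_num) (simp_mono h0 (by norm_num)
      (by norm_num) (by norm_num) ?_)
    refine N2S_simp (Y := 20 / 13) (r := 1 / 3)
      (N2S_YY (K := 1) (by norm_num) (by norm_num)) ?_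
      (N2S_up (a := 13) (b := 9) (c := 367724781125317) (by norm_num) (by norm_num)
        (by norm_num) (by decide +kernel)) (by norm_num) (by norm_num)
    unfold rk
    norm_num

private theorem N2S_4 {d : ℕ} (hd : Even d) (hk : 4 < d) : Crit d 4 (sg0 4) := by
  have hs : sg0 4 = 1698 / 10000 := by
    unfold sg0
    norm_num
  rw [hs]
  by_cases h4 : d = 6
  · subst h4
    refine N2S_end (Y := 40 / 13) (z := 4 / 3) (P := 252 / 10000) hd (by norm_num) hk (by norm_num) ?_
      (N2S_YY (K := 2) (by norm_num) (by norm_num)) ?_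
      (N2S_up (a := 13) (b := 5) (c := 955511446027436) (by norm_num)
        (by norm_num) (by norm_num) (by decide +kernel))
      (N2S_low (a := 15) (b := 11) (c := 310154927303839) (by norm_num)
        (by norm_num) (by norm_num) (by decide +kernel)) (by norm_num) (by norm_num) (by norm_num)
      (by norm_num)
    · have h1 := pp_tab.2.2.1
      have h2 : (((6 : ℕ) : ℝ) - 1) = 5 := by norm_num
      rw [h2]
      exact h1
    · unfold rk
      norm_num
  · have h0 : 8 ≤ d := by
      obtain ⟨e, he⟩ := hd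
      omega
    refine crit_of_simp hd (by norm_num) hk (by norm_num) (simp_mono h0 (by norm_num)
      (by norm_num) (by norm_num) ?_)
    refine N2S_simp (Y := 56 / 17) (r := 1 / 3)
      (N2S_YY (K := 2) (by norm_num) (by norm_num)) ?_
      (N2S_up (a := 17) (b := 9) (c := 635988767719996) (by norm_num) (by norm_num)
        (by norm_num) (by decide +kernel)) (by norm_num) (by norm_num)
    unfold rk
    norm_num

private theorem N2S_5 {d : ℕ} (hd : Even d) (hk : 5 < d) : Crit d 5 (sg0 5) := by
  have hs : sg0 5 = 1698 / 10000 := by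
    unfold sg0
    norm_num
  rw [hs]
  by_cases h4 : d = 6
  · subst h4
    refine N2S_end (Y := 40 / 13) (z := 2 / 1) (P := 635 / 10000) hd (by norm_num) hk (by norm_num) ?_
      (N2S_YY (K := 2) (by norm_num) (by norm_num)) ?_
      (N2S_up (a := 13) (b := 5) (c := 955511446027436) (by norm_num)
        (by norm_num) (by norm_num) (by decide +kernel))
      (N2S_low (a := 5) (b := 3) (c := 510825622765990) (by norm_num)
        (by norm_num) (by norm_num) (by decide +kernel)) (by norm_num) (by norm_num) (by norm_num)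
      (by norm_num)
    · have h1 := pp_tab.2.2.2.1
      have h2 : (((6 : ℕ) : ℝ) - 1) = 5 := by norm_num
      rw [h2]
      exact h1
    · unfold rk
      norm_num
  · have h0 : 8 ≤ d := by
      obtain ⟨e, he⟩ := hd
      omega
    refine crit_of_simp hd (by norm_num) hk (by norm_num) (simp_mono h0 (by norm_num)
      (by norm_num) (by norm_num) ?_)
    refine N2S_simp (Y := 56 / 17) (r := 2 / 5)
      (N2S_YY (K := 2) (by norm_num) (by norm_num)) ?_
      (N2S_up (a := 17) (b := 9) (c := 635988767719996) (by norm_num) (by norm_num)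
        (by norm_num) (by decide +kernel)) (by norm_num) (by norm_num)
    unfold rk
    norm_num

private theorem N2S_6 {d : ℕ} (hd : Even d) (hk : 6 < d) : Crit d 6 (sg0 6) := by
  have hs : sg0 6 = 1456 / 10000 := by
    unfold sg0
    norm_num
  rw [hs]
  have h0 : 8 ≤ d := by
    obtain ⟨e, he⟩ := hd
    omega
  refine crit_of_simp hd (by norm_num) hk (by norm_num) (simp_mono h0 (by norm_num)
    (by norm_num) (by norm_num) ?_)
  refine N2S_simp (Y := 84 / 17) (r := 2 / 5)
    (N2S_YY (K := 3) (by norm_num) (by norm_num)) ?_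
    (N2S_up (a := 17) (b := 5) (c := 1223775432622115) (by norm_num) (by norm_num)
      (by norm_num) (by decide +kernel)) (by norm_num) (by norm_num)
  unfold rk
  norm_num

private theorem N2S_7 {d : ℕ} (hd : Even d) (hk : 7 < d) : Crit d 7 (sg0 7) := by
  have hs : sg0 7 = 1456 / 10000 := by
    unfold sg0
    norm_num
  rw [hs]
  by_cases h4 : d = 8
  · subst h4
    refine N2S_end (Y := 84 / 17) (z := 3 / 1) (P := 607 / 10000) hd (by norm_num) hk (by norm_num) ?_
      (N2S_YY (K := 3) (by norm_num) (by norm_num)) ?_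
      (N2S_up (a := 17) (b := 5) (c := 1223775432622115) (by norm_num)
        (by norm_num) (by norm_num) (by decide +kernel))
      (N2S_low (a := 7) (b := 4) (c := 559615786935422) (by norm_num)
        (by norm_num) (by norm_num) (by decide +kernel)) (by norm_num) (by norm_num) (by norm_num)
      (by norm_num)
    · have h1 := pp_tab.2.2.2.2.1
      have h2 : (((8 : ℕ) : ℝ) - 1) = 7 := by norm_num
      rw [h2]
      exact h1
    · unfold rk
      norm_num
  · have h0 : 10 ≤ d := by
      obtain ⟨e, he⟩ := hd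
      omega
    refine crit_of_simp hd (by norm_num) hk (by norm_num) (simp_mono h0 (by norm_num)
      (by norm_num) (by norm_num) ?_)
    refine N2S_simp (Y := 36 / 7) (r := 3 / 7)
      (N2S_YY (K := 3) (by norm_num) (by norm_num)) ?_
      (N2S_up (a := 7) (b := 3) (c := 847297861387203) (by norm_num) (by norm_num)
        (by norm_num) (by decide +kernel)) (by norm_num) (by norm_num)
    unfold rk
    norm_num

private theorem N2S_8 {d : ℕ} (hd : Even d) (hk : 8 < d) : Crit d 8 (sg0 8) := by
  have hs : sg0 8 = 1286 / 10000 := by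
    unfold sg0
    norm_num
  rw [hs]
  have h0 : 10 ≤ d := by
    obtain ⟨e, he⟩ := hd
    omega
  refine crit_of_simp hd (by norm_num) hk (by norm_num) (simp_mono h0 (by norm_num)
    (by norm_num) (by norm_num) ?_)
  refine N2S_simp (Y := 48 / 7) (r := 3 / 7)
    (N2S_YY (K := 4) (by norm_num) (by norm_num)) ?_
    (N2S_up (a := 21) (b := 5) (c := 1435084526289322) (by norm_num) (by norm_num)
      (by norm_num) (by decide +kernel)) (by norm_num) (by norm_num)
  unfold rk
  norm_num

private theorem N2S_9 {d : ℕ} (hd : Even d) (hk : 9 < d) : Crit d 9 (sg0 9) := by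
  have hs : sg0 9 = 1286 / 10000 := by
    unfold sg0
    norm_num
  rw [hs]
  by_cases h4 : d = 10
  · subst h4
    refine N2S_end (Y := 48 / 7) (z := 4 / 1) (P := 570 / 10000) hd (by norm_num) hk (by norm_num) ?_
      (N2S_YY (K := 4) (by norm_num) (by norm_num)) ?_
      (N2S_up (a := 21) (b := 5) (c := 1435084526289322) (by norm_num)
        (by norm_num) (by norm_num) (by decide +kernel))
      (N2S_low (a := 9) (b := 5) (c := 587786663902119) (by norm_num)
        (by norm_num) (by norm_num) (by decide +kernel)) (by norm_num) (by norm_num) (by norm_num)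
      (by norm_num)
    · have h1 := pp_tab.2.2.2.2.2.1
      have h2 : (((10 : ℕ) : ℝ) - 1) = 9 := by norm_num
      rw [h2]
      exact h1
    · unfold rk
      norm_num
  · have h0 : 12 ≤ d := by
      obtain ⟨e, he⟩ := hd
      omega
    refine crit_of_simp hd (by norm_num) hk (by norm_num) (simp_mono h0 (by norm_num)
      (by norm_num) (by norm_num) ?_)
    refine N2S_simp (Y := 176 / 25) (r := 4 / 9)
      (N2S_YY (K := 4) (by norm_num) (by norm_num)) ?_
      (N2S_up (a := 25) (b := 9) (c := 1021651248531981) (by norm_num) (by norm_num)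
        (by norm_num) (by decide +kernel)) (by norm_num) (by norm_num)
    unfold rk
    norm_num

private theorem N2S_10 {d : ℕ} (hd : Even d) (hk : 10 < d) : Crit d 10 (sg0 10) := by
  have hs : sg0 10 = 1155 / 10000 := by
    unfold sg0
    norm_num
  rw [hs]
  have h0 : 12 ≤ d := by
    obtain ⟨e, he⟩ := hd
    omega
  refine crit_of_simp hd (by norm_num) hk (by norm_num) (simp_mono h0 (by norm_num)
    (by norm_num) (by norm_num) ?_)
  refine N2S_simp (Y := 44 / 5) (r := 4 / 9)
    (N2S_YY (K := 5) (by norm_num) (by norm_num)) ?_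
    (N2S_up (a := 5) (b := 1) (c := 1609437913434100) (by norm_num) (by norm_num)
      (by norm_num) (by decide +kernel)) (by norm_num) (by norm_num)
  unfold rk
  norm_num

private theorem N2S_11 {d : ℕ} (hd : Even d) (hk : 11 < d) : Crit d 11 (sg0 11) := by
  have hs : sg0 11 = 1155 / 10000 := by
    unfold sg0
    norm_num
  rw [hs]
  by_cases h4 : d = 12
  · subst h4
    refine N2S_end (Y := 44 / 5) (z := 5 / 1) (P := 500 / 10000) hd (by norm_num) hk (by norm_num) ?_
      (N2S_YY (K := 5) (by norm_num) (by norm_num)) ?_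
      (N2S_up (a := 5) (b := 1) (c := 1609437913434100) (by norm_num)
        (by norm_num) (by norm_num) (by decide +kernel))
      (N2S_low (a := 11) (b := 6) (c := 606135802570315) (by norm_num)
        (by norm_num) (by norm_num) (by decide +kernel)) (by norm_num) (by norm_num) (by norm_num)
      (by norm_num)
    · have h1 := pp_tab.2.2.2.2.2.2
      have h2 : (((12 : ℕ) : ℝ) - 1) = 11 := by norm_num
      rw [h2]
      exact h1
    · unfold rk
      norm_num
  · have h0 : 14 ≤ d := by
      obtain ⟨e, he⟩ := hd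
      omega
    refine crit_of_simp hd (by norm_num) hk (by norm_num) (simp_mono h0 (by norm_num)
      (by norm_num) (by norm_num) ?_)
    refine N2S_simp (Y := 260 / 29) (r := 5 / 11)
      (N2S_YY (K := 5) (by norm_num) (by norm_num)) ?_
      (N2S_up (a := 29) (b := 9) (c := 1170071253650254) (by norm_num) (by norm_num)
        (by norm_num) (by decide +kernel)) (by norm_num) (by norm_num)
    unfold rk
    norm_num

private theorem N2S_12 {d : ℕ} (hd : Even d) (hk : 12 < d) : Crit d 12 (sg0 12) := by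
  have hs : sg0 12 = 1051 / 10000 := by
    unfold sg0
    norm_num
  rw [hs]
  have h0 : 14 ≤ d := by
    obtain ⟨e, he⟩ := hd
    omega
  refine crit_of_simp hd (by norm_num) hk (by norm_num) (simp_mono h0 (by norm_num)
    (by norm_num) (by norm_num) ?_)
  refine N2S_simp (Y := 312 / 29) (r := 5 / 11)
    (N2S_YY (K := 6) (by norm_num) (by norm_num)) ?_
    (N2S_up (a := 29) (b := 5) (c := 1757857918552373) (by norm_num) (by norm_num)
      (by norm_num) (by decide +kernel)) (by norm_num) (by norm_num)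
  unfold rk
  norm_num

private theorem N2S_13 {d : ℕ} (hd : Even d) (hk : 13 < d) : Crit d 13 (sg0 13) := by
  have hs : sg0 13 = 1051 / 10000 := by
    unfold sg0
    norm_num
  rw [hs]
  have h0 : 14 ≤ d := by
    obtain ⟨e, he⟩ := hd
    omega
  refine crit_of_simp hd (by norm_num) hk (by norm_num) (simp_mono h0 (by norm_num)
    (by norm_num) (by norm_num) ?_)
  refine N2S_simp (Y := 312 / 29) (r := 6 / 13)
    (N2S_YY (K := 6) (by norm_num) (by norm_num)) ?_
    (N2S_up (a := 29) (b := 5) (c := 1757857918552373) (by norm_num) (by norm_num)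
      (by norm_num) (by decide +kernel)) (by norm_num) (by norm_num)
  unfold rk
  norm_num

private theorem N2S_14 {d : ℕ} (hd : Even d) (hk : 14 < d) : Crit d 14 (sg0 14) := by
  have hs : sg0 14 = 965 / 10000 := by
    unfold sg0
    norm_num
  rw [hs]
  have h0 : 16 ≤ d := by
    obtain ⟨e, he⟩ := hd
    omega
  refine crit_of_simp hd (by norm_num) hk (by norm_num) (simp_mono h0 (by norm_num)
    (by norm_num) (by norm_num) ?_)
  refine N2S_simp (Y := 140 / 11) (r := 6 / 13)
    (N2S_YY (K := 7) (by norm_num) (by norm_num)) ?_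
    (N2S_up (a := 33) (b := 5) (c := 1887069650032379) (by norm_num) (by norm_num)
      (by norm_num) (by decide +kernel)) (by norm_num) (by norm_num)
  unfold rk
  norm_num

private theorem N2S_15 {d : ℕ} (hd : Even d) (hk : 15 < d) : Crit d 15 (sg0 15) := by
  have hs : sg0 15 = 965 / 10000 := by
    unfold sg0
    norm_num
  rw [hs]
  have h0 : 16 ≤ d := by
    obtain ⟨e, he⟩ := hd
    omega
  refine crit_of_simp hd (by norm_num) hk (by norm_num) (simp_mono h0 (by norm_num)
    (by norm_num) (by norm_num) ?_)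
  refine N2S_simp (Y := 140 / 11) (r := 7 / 15)
    (N2S_YY (K := 7) (by norm_num) (by norm_num)) ?_
    (N2S_up (a := 33) (b := 5) (c := 1887069650032379) (by norm_num) (by norm_num)
      (by norm_num) (by decide +kernel)) (by norm_num) (by norm_num)
  unfold rk
  norm_num

/-- `Simp` at `d₀ = 6 6 8 8 8 10 10 12 12 14 14 14 16 16` for `k = 2 .. 15`, `simp_mono`;
`crit_of_end` with `pp_tab` for `(d,k) = (4,2) (4,3) (6,4) (6,5) (8,7) (10,9) (12,11)` -/
theorem N2_small (hR : NUM.RTlow) {d k : ℕ} (hd : Even d) (hk2 : 2 ≤ k) (hk : k < d)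
    (hk15 : k ≤ 15) : Crit d k (sg0 k) := by
  interval_cases k
  · exact N2S_2 hd hk
  · exact N2S_3 hd hk
  · exact N2S_4 hd hk
  · exact N2S_5 hd hk
  · exact N2S_6 hd hk
  · exact N2S_7 hd hk
  · exact N2S_8 hd hk
  · exact N2S_9 hd hk
  · exact N2S_10 hd hk
  · exact N2S_11 hd hk
  · exact N2S_12 hd hk
  · exact N2S_13 hd hk
  · exact N2S_14 hd hk
  · exact N2S_15 hd hk

end MP_a3e05c_co.KL
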