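import Pool.Agent.Lib.MP_a3e05c_co.S1.Pure
import Pool.Agent.Lib.MP_a3e05c_co.S1.N2S
import Pool.Agent.Lib.MP_a3e05c_co.S1.N2L

/-!
# EULER, scalar block S1: the step inequality for a non-full vertex
-/

open Finset

namespace MP_a3e05c_co.KL

private theorem S1_rh_full {D : ℕ} (h : 2 ≤ D) : rh D D = 1 := by
  have h2 : (2 : ℝ) ≤ D := by exact_mod_cast h
  unfold rh
  have e : (D : ℝ) - D + 1 = 1 := by ring
  rw [e, mul_one, div_self (by linarith)]

private theorem S1_inc {D J : ℕ} (h1 : 1 ≤ J) (hJ : J < D) :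
    phi D J - phi D (J - 1) = hp ((D : ℝ) - 1) J := by
  rw [phi_G hJ, phi_G (by omega : J - 1 < D)]
  unfold hp
  ring

private theorem S1_GG_zero (s : ℝ) : GG s 0 = 0 := by
  unfold GG
  simp

private theorem S1_GG_mono {s a b : ℝ} (hs : 0 < s) (hab : a ≤ b) (hb : b < s) :
    GG s a ≤ GG s b := by
  have h1 : b / s < 1 := (div_lt_one hs).2 hb
  have h2 : a / s ≤ b / s := div_le_div_of_nonneg_right hab hs.le
  have h3 := Real.log_le_log (x := 1 - b / s) (y := 1 - a / s) (by linarith) (by linarith)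
  unfold GG
  linarith

private theorem S1_cast_sub {n : ℕ} (h : 1 ≤ n) : ((n - 1 : ℕ) : ℝ) = (n : ℝ) - 1 := by
  rw [Nat.cast_sub h, Nat.cast_one]

/-- a non-full neighbour -/
private theorem S1_nonfull {d k D J : ℕ} (hd : Even d) (hk : k < d) (hD : Even D) (h1 : 1 ≤ J)
    (hJ : J < D) (hJk : J ≤ k) : 0 ≤ rh D J ∧
      GG ((d : ℝ) - 1) (k * rh D J) ≤
        pp ((d : ℝ) - 1) k + k * (phi D J - phi D (J - 1)) := by
  have hJ' : (J : ℝ) ≤ (D : ℝ) - 1 := by
    have : (J : ℝ) + 1 ≤ D := by exact_mod_cast hJ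
    linarith
  rw [S1_inc h1 hJ, rh_eq_rr]
  refine ⟨rr_nonneg h1 hJ', ?_⟩
  obtain ⟨a, ha⟩ := hd
  obtain ⟨b, hb⟩ := hD
  have h := RR_nonneg (n := d - 1) (n' := D - 1) (k := k) (j := J) (by omega) h1 hJk
    (by omega) (by omega)
  unfold RR at h
  rw [S1_cast_sub (by omega : 1 ≤ d), S1_cast_sub (by omega : 1 ≤ D)] at h
  linarith

private theorem S1_small {d k : ℕ} (hd : Even d) (hk : k < d) (hk1 : k ≤ 1)
    (D J : Fin k → ℕ) (hD : ∀ i, Even (D i)) (hJ1 : ∀ i, 1 ≤ J i) (hJD : ∀ i, J i ≤ D i)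
    (hJk : ∀ i, J i ≤ k) :
    FM k (d - k) ((k : ℝ) - ∑ i, rh (D i) (J i)) ≤
      Real.exp (phi d k + ∑ i, (phi (D i) (J i) - phi (D i) (J i - 1))) := by
  have hJ : ∀ i, J i = 1 := fun i => le_antisymm ((hJk i).trans hk1) (hJ1 i)
  have hlt : ∀ i, J i < D i := by
    intro i
    obtain ⟨m, hm⟩ := hD i
    have h1 := hJ i
    have h2 := hJD i
    omega
  have hd2 : 2 ≤ d := by
    obtain ⟨m, hm⟩ := hd
    omega
  have hd2' : (2 : ℝ) ≤ d := by exact_mod_cast hd2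
  have hk' : (k : ℝ) ≤ (d : ℝ) - 1 := by
    have : (k : ℝ) + 1 ≤ d := by exact_mod_cast hk
    linarith
  have h0 : ∑ i, rh (D i) (J i) = 0 := by
    apply sum_eq_zero
    intro i _
    rw [hJ i]
    unfold rh
    simp
  rw [h0, sub_zero]
  have h1 : 0 ≤ ∑ i, (phi (D i) (J i) - phi (D i) (J i - 1)) := by
    apply sum_nonneg
    intro i _
    rw [S1_inc (hJ1 i) (hlt i)]
    apply hp_nonneg
    have : (J i : ℝ) + 1 ≤ D i := by exact_mod_cast hlt i
    linarith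
  have h2 := log_FM_le_G hd hk (y := 0) le_rfl (Nat.cast_nonneg k) (by linarith)
  rw [S1_GG_zero, sub_zero, add_zero] at h2
  have h3 := FM_pos (k := k) (M := d - k) (v := (k : ℝ)) le_rfl
  rw [← Real.log_le_iff_le_exp h3, phi_G hk]
  have h4 := pp_nonneg hk'
  linarith

private theorem S1_large {d k : ℕ} (hd : Even d) (hk : k < d) (hk2 : 2 ≤ k) {σ : ℝ}
    (hσ : ∀ e : ℕ, Even e → 2 ≤ e → e ≤ k → σ ≤ hs e) (hC : Crit d k σ)
    (D J : Fin k → ℕ) (hD : ∀ i, Even (D i)) (hJ1 : ∀ i, 1 ≤ J i) (hJD : ∀ i, J i ≤ D i)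
    (hJk : ∀ i, J i ≤ k) :
    FM k (d - k) ((k : ℝ) - ∑ i, rh (D i) (J i)) ≤
      Real.exp (phi d k + ∑ i, (phi (D i) (J i) - phi (D i) (J i - 1))) := by
  classical
  have hd2 : 2 ≤ d := by omega
  have hd2' : (2 : ℝ) ≤ d := by exact_mod_cast hd2
  have hs0 : (0 : ℝ) < (d : ℝ) - 1 := by linarith
  obtain ⟨hYk, hYd⟩ := YY_le (d := d) (k := k) hd2 hk
  have hD2 : ∀ i, 2 ≤ D i := by
    intro i
    obtain ⟨m, hm⟩ := hD i
    have h1 := hJ1 i
    have h2 := hJD i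
    omega
  have hfull : ∀ i, J i = D i → rh (D i) (J i) = 1 := by
    intro i hi
    rw [hi]
    exact S1_rh_full (hD2 i)
  have hnf : ∀ i, J i ≠ D i → 0 ≤ rh (D i) (J i) ∧ rh (D i) (J i) ≤ rk k ∧
      GG ((d : ℝ) - 1) (k * rh (D i) (J i)) ≤
        pp ((d : ℝ) - 1) k + k * (phi (D i) (J i) - phi (D i) (J i - 1)) := by
    intro i hi
    have hlt : J i < D i := lt_of_le_of_ne (hJD i) hi
    obtain ⟨h1, h2⟩ := S1_nonfull hd hk (hD i) (hJ1 i) hlt (hJk i)
    refine ⟨h1, ?_, h2⟩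
    rw [rh_eq_rr]
    exact rr_le_rk (hD i) (hJ1 i) hlt (hJk i) hk2
  have hrk := rk_lt_half k
  have hρ0 : ∀ i, 0 ≤ rh (D i) (J i) := by
    intro i
    by_cases hi : J i = D i
    · rw [hfull i hi]
      norm_num
    · exact (hnf i hi).1
  have hρ1 : ∀ i, rh (D i) (J i) ≤ 1 := by
    intro i
    by_cases hi : J i = D i
    · exact (hfull i hi).le
    · have := (hnf i hi).2.1
      linarith
  have hy0 : 0 ≤ ∑ i, rh (D i) (J i) := sum_nonneg fun i _ => hρ0 i
  have hyk : ∑ i, rh (D i) (J i) ≤ k := by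
    have h := sum_le_sum fun (i : Fin k) (_ : i ∈ (univ : Finset (Fin k))) => hρ1 i
    simpa using h
  set y := ∑ i, rh (D i) (J i) with hy
  have hpos := FM_pos (k := k) (M := d - k) (v := (k : ℝ) - y) (by linarith)
  have hmix := mix_full2 (k := k) (by omega) (L := GG ((d : ℝ) - 1)) (Y := YY d k) (r := rk k)
    (p := pp ((d : ℝ) - 1) k) (σ := σ)
    (Λ := Real.log (FM k (d - k) ((k : ℝ) - y)) - Real.log (bb (d / 2)))
    (ρ := fun i => rh (D i) (J i)) (h := fun i => phi (D i) (J i) - phi (D i) (J i - 1))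
    (univ.filter fun i => J i = D i) hYk
    ((GG_convexOn hs0).subset (fun x hx => ⟨hx.1, hx.2.trans_lt hYd⟩) (convex_Icc _ _))
    (fun x hx => ⟨GG_nonneg hs0 hx.1 (hx.2.trans_lt hYd), S1_GG_mono hs0 hx.2 hYd⟩)
    (k_rk_le_YY hd hk2 hk) (by linarith)
    (by
      intro i hi
      have hi' : J i = D i := by simpa using hi
      refine ⟨hfull i hi', ?_⟩
      have h1 := hσ (D i) (hD i) (hD2 i) (by rw [← hi']; exact hJk i)
      rw [hi', phi_full]
      exact h1)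
    (by
      intro i hi
      have hi' : J i ≠ D i := by simpa using hi
      exact hnf i hi')
    hC.2 hC.1
    (by
      intro hyY
      have h1 := log_FM_le_G hd hk hy0 hyk (lt_of_le_of_lt hyY hYd)
      linarith)
    (by
      have h1 := log_FM_le_cap hd hk (v := (k : ℝ) - y) (by linarith)
      linarith)
  rw [← Real.log_le_iff_le_exp hpos, phi_G hk]
  linarith

/-- **S1.**  `k < d` alive neighbours, the `i`-th one of degree `D i` with `J i ≤ k` alive
neighbours. -/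
theorem S1_step (hRT : RTmain) (hR : NUM.RTlow) {d k : ℕ} (hd : Even d) (hk : k < d)
    (D J : Fin k → ℕ) (hD : ∀ i, Even (D i)) (hJ1 : ∀ i, 1 ≤ J i) (hJD : ∀ i, J i ≤ D i)
    (hJk : ∀ i, J i ≤ k) :
    FM k (d - k) ((k : ℝ) - ∑ i, rh (D i) (J i)) ≤
      Real.exp (phi d k + ∑ i, (phi (D i) (J i) - phi (D i) (J i - 1))) := by
  rcases Nat.lt_or_ge k 2 with h | h
  · exact S1_small hd hk (by omega) D J hD hJ1 hJD hJk
  · rcases Nat.lt_or_ge k 16 with h' | h'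
    · exact S1_large hd hk h (fun e he h2 hek => sg0_le hR (by omega) he h2 hek)
        (N2_small hR hd h hk (by omega)) D J hD hJ1 hJD hJk
    · exact S1_large hd hk h (fun e he h2 hek => sg1_le hRT hR h' he h2 hek)
        (N2_large hd hk h') D J hD hJ1 hJD hJk

end MP_a3e05c_co.KL
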