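import Pool.Agent.Lib.MP_a3e05c_co.NUM.TabA
import Pool.Agent.Lib.MP_a3e05c_co.S1.Hs
import Pool.Agent.Lib.MP_a3e05c_co.RTK.NumC
import Pool.Agent.Lib.MP_a3e05c_co.RT.Low2

/-!
# EULER: the lower bounds for the number of regular tournaments, unconditional
-/

open Finset

namespace MP_a3e05c_co.KL

/-- with the second term -/
theorem PK_low_c (n : ℕ) (hn : Odd n) (h3 : 3 ≤ n) :
    Real.exp (NCS.mainR n + 9 / (100 * n)) ≤ PK n := by
  have hn0 : (0 : ℝ) < n := by exact_mod_cast (by omega : 0 < n)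
  rcases le_or_gt n 21 with h1 | h1
  · refine le_trans (Real.exp_le_exp.2 ?_) (RTK.PK_low_quarter n hn h3 h1)
    have h2 : 9 / (100 * (n : ℝ)) ≤ 1 / (4 * (n : ℝ)) := by
      rw [div_le_div_iff₀ (by positivity) (by positivity)]
      nlinarith
    linarith
  · rcases Nat.lt_or_ge n 25 with h2 | h2
    · have h4 : n = 23 := by
        obtain ⟨k, rfl⟩ := hn
        omega
      subst h4
      refine le_trans (Real.exp_le_exp.2 ?_) RTK.PK_low_23
      norm_num
    · exact RT.PK_low2 n hn h2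

theorem rt_low : NUM.RTlow := by
  intro n hn h3 h
  have h1 : n = 3 ∨ n = 5 ∨ n = 7 ∨ n = 9 ∨ n = 11 ∨ n = 13 ∨ n = 15 ∨ n = 17 ∨ n = 19 ∨
      n = 21 ∨ n = 23 := by
    obtain ⟨k, rfl⟩ := hn
    omega
  rcases h1 with rfl | rfl | rfl | rfl | rfl | rfl | rfl | rfl | rfl | rfl | rfl
  · exact RTK.RT_3
  · exact RTK.RT_5
  · exact RTK.RT_7
  · exact RTK.RT_9
  · exact RTK.RT_11
  · exact RTK.RT_13
  · exact RTK.RT_15
  · exact RTK.RT_17
  · exact RTK.RT_19
  · exact RTK.RT_21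
  · exact RTK.RT_23

theorem rt_gen : NUM.RTgen := by
  intro n hn h
  refine le_trans (Real.exp_le_exp.2 ?_) (PK_low_c n hn (by omega))
  have h2 : (0 : ℝ) ≤ 9 / (100 * (n : ℝ)) := by positivity
  linarith

theorem rt_main : RTmain := by
  intro n hn h
  exact (Real.le_log_iff_exp_le ((Real.exp_pos _).trans_le (rt_gen n hn h))).2 (rt_gen n hn h)

end MP_a3e05c_co.KL
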