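import Pool.Agent.Lib.MP_a3e05c_co.KL.Pot
import Pool.Agent.Lib.MP_a3e05c_co.KL.FFG
import Pool.Agent.Lib.MP_a3e05c_co.NCS.Cb

/-!
# EULER, scalar block S1: the numbers `bb m`

`bb_pos` and `bb_succ : bb (n + 1) * (2 * n + 2) = bb n * (2 * n + 1)` are in `KL/FFG.lean`.
-/

open Finset

namespace MP_a3e05c_co.KL

theorem bb_zero : bb 0 = 1 := by
  simp [bb]

theorem bb_succ' (m : ℕ) : bb (m + 1) = bb m * ((2 * m + 1) / (2 * m + 2)) := by
  rw [mul_div_assoc', eq_div_iff (by positivity)]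
  exact bb_succ m

theorem bb_anti {m n : ℕ} (h : m ≤ n) : bb n ≤ bb m := by
  induction n, h using Nat.le_induction with
  | base => exact le_rfl
  | succ n _ ih =>
    refine le_trans ?_ ih
    rw [bb_succ']
    have h1 := bb_pos n
    have h2 : (2 * (n : ℝ) + 1) / (2 * n + 2) ≤ 1 := by
      rw [div_le_one (by positivity)]
      linarith
    nlinarith

/-- `bb m ^ 2 * (4 m + 1)` is increasing -/
theorem bb_sq_mono {m n : ℕ} (h : m ≤ n) :
    bb m ^ 2 * (4 * m + 1) ≤ bb n ^ 2 * (4 * n + 1) := by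
  have h1 : NCS.cb m ^ 2 * ((m : ℝ) + 1 / 4) ≤ NCS.cb n ^ 2 * ((n : ℝ) + 1 / 4) := NCS.cb_mono h
  have e1 : NCS.cb m = bb m := rfl
  have e2 : NCS.cb n = bb n := rfl
  rw [e1, e2] at h1
  linarith

/-- `(1 / π) ∫ sin ^ (2 a) cos ^ (2 b)` -/
noncomputable def wab (a b : ℕ) : ℝ := bb a * bb b / ((a + b).choose a : ℝ)

theorem wab_eq_J (a b : ℕ) : wab a b = FFG_J b a := by
  have h := FFG_J_eq b a
  have h1 : (b + a).choose b = (a + b).choose a := by
    rw [add_comm b a]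
    exact (Nat.choose_symm_add (a := a) (b := b)).symm
  have hpos : (0 : ℝ) < ((a + b).choose a : ℝ) := by
    exact_mod_cast Nat.choose_pos (Nat.le_add_right a b)
  rw [h1] at h
  unfold wab
  rw [div_eq_iff hpos.ne', h]
  ring

theorem wab_zero (a : ℕ) : wab a 0 = bb a := by
  unfold wab
  rw [bb_zero]
  simp

theorem wab_add (a b : ℕ) : wab (a + 1) b + wab a (b + 1) = wab a b := by
  rw [wab_eq_J, wab_eq_J, wab_eq_J, FFG_J_succ]
  ring

/-- expansion in powers of `c = 1 - σ` -/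
theorem BN_expand {K N : ℕ} (hK : K ≤ N) (c : ℝ) :
    BN K (1 - c) (N - K) = ∑ j ∈ range (K + 1), (K.choose j : ℝ) * c ^ j * wab (N - j) j := by
  rw [FFG_bn]
  apply sum_congr rfl
  intro j hj
  rw [mem_range] at hj
  have h1 : N - K + (K - j) = N - j := by omega
  rw [h1, wab_eq_J]

/-- for `K < N`, `n = 2 N - 1`:
`C(K,j) / (2K)^j * w = bb N * bb j * ∏_{i<j} (K - i)/(K (n - 2 i)) ≤ bb N * bb j / n ^ j` -/
theorem coef_le {K N j : ℕ} (hK : K < N) (hK0 : 0 < K) (hj : j ≤ K) :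
    (K.choose j : ℝ) * (1 / (2 * K)) ^ j * wab (N - j) j ≤ bb N * bb j / (2 * N - 1) ^ j := by
  have h1 := FFG_term K N hK j hj
  have hN : (1 : ℝ) ≤ N := by
    have : 1 ≤ N := by omega
    exact_mod_cast this
  have hK' : (0 : ℝ) < K := by exact_mod_cast hK0
  have hn : (0 : ℝ) < 2 * (N : ℝ) - 1 := by linarith
  have hc : (0 : ℝ) < (N.choose j : ℝ) := by
    exact_mod_cast Nat.choose_pos (by omega)
  have hb := bb_pos j
  have h2 : N - j + j = N := by omega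
  have h3 : N.choose (N - j) = N.choose j := Nat.choose_symm (by omega)
  unfold wab
  rw [h2, h3, div_pow, one_pow]
  have e1 : (K.choose j : ℝ) * (1 / (2 * (K : ℝ)) ^ j) * (bb (N - j) * bb j / (N.choose j : ℝ)) =
      (K.choose j : ℝ) * bb (N - j) / ((2 * (K : ℝ)) ^ j * (N.choose j : ℝ)) * bb j := by
    field_simp
  have e2 : bb N * bb j / (2 * (N : ℝ) - 1) ^ j = bb N / (2 * (N : ℝ) - 1) ^ j * bb j := by
    ring
  rw [e1, e2]
  apply mul_le_mul_of_nonneg_right _ hb.le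
  rw [div_le_div_iff₀ (by positivity) (by positivity)]
  calc (K.choose j : ℝ) * bb (N - j) * (2 * (N : ℝ) - 1) ^ j ≤
      bb N * (N.choose j : ℝ) * (2 * (K : ℝ)) ^ j := h1
    _ = _ := by ring

/-- partial sums of the binomial series of `(1 - t)^(-1/2)` -/
theorem sum_bb_le (K : ℕ) {t : ℝ} (h0 : 0 ≤ t) (h1 : t < 1) :
    ∑ j ∈ range (K + 1), bb j * t ^ j ≤ 1 / Real.sqrt (1 - t) := by
  have hser := FFG_series K t h0 h1
  have h2 : 0 < 1 - t := by linarith
  have h3 : 0 < Real.sqrt (1 - t) := Real.sqrt_pos.2 h2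
  rw [le_div_iff₀ h3]
  have h4 : (∑ i ∈ range (K + 1), bb i * t ^ i) * Real.sqrt (1 - t) ≤ Real.sqrt 1 := by
    apply Real.le_sqrt_of_sq_le
    rw [mul_pow, Real.sq_sqrt h2.le]
    exact hser
  rwa [Real.sqrt_one] at h4

end MP_a3e05c_co.KL
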