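import Pool.Agent.Lib.MP_a3e05c_co.S1.Bb

/-!
# EULER, scalar block S1: upper bounds for `FM`
-/

open Finset

namespace MP_a3e05c_co.KL

theorem BN_pos {K : ℕ} {σ : ℝ} (h0 : 0 ≤ σ) (h1 : σ ≤ 1) (n : ℕ) : 0 < BN K σ n := by
  unfold BN
  rcases eq_or_lt_of_le h0 with h | h
  · apply sum_pos'
    · intro m _
      have h2 := bb_pos (n + m)
      have h3 : 0 ≤ 1 - σ := by linarith
      positivity
    · refine ⟨0, by simp, ?_⟩
      have h2 := bb_pos (n + 0)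
      rw [← h]
      simpa using h2
  · apply sum_pos'
    · intro m _
      have h2 := bb_pos (n + m)
      have h3 : 0 ≤ 1 - σ := by linarith
      positivity
    · refine ⟨K, by simp, ?_⟩
      have h2 := bb_pos (n + K)
      simp only [Nat.choose_self, Nat.cast_one, Nat.sub_self, pow_zero, mul_one, one_mul]
      positivity

private theorem FMB_cont (K : ℕ) (σ : ℝ) (n : ℕ) :
    Continuous fun x : ℝ => Real.sin x ^ (2 * n) * (1 - σ * Real.cos x ^ 2) ^ K := by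
  fun_prop

/-- `BN` is decreasing in `σ` (it is the mean of the decreasing function `bb`) -/
theorem BN_anti {K : ℕ} {σ τ : ℝ} (h0 : 0 ≤ σ) (h : σ ≤ τ) (h1 : τ ≤ 1) (n : ℕ) :
    BN K τ n ≤ BN K σ n := by
  rw [bn_eq_integral, bn_eq_integral]
  refine mul_le_mul_of_nonneg_left ?_ (by positivity)
  refine intervalIntegral.integral_mono_on Real.pi_pos.le
    ((FMB_cont _ _ _).intervalIntegrable _ _) ((FMB_cont _ _ _).intervalIntegrable _ _)
    fun x _ => ?_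
  have hs : 0 ≤ Real.sin x ^ (2 * n) := by
    rw [pow_mul]
    positivity
  refine mul_le_mul_of_nonneg_left (pow_le_pow_left₀ ?_ ?_ _) hs
  · have h3 := mul_le_mul_of_nonneg_right h1 (sq_nonneg (Real.cos x))
    have h4 := Real.cos_sq_le_one x
    linarith
  · have h3 := mul_le_mul_of_nonneg_right h (sq_nonneg (Real.cos x))
    linarith

private theorem FMB_mod (k : ℕ) : ((k % 2 : ℕ) : ℝ) ≤ k := by exact_mod_cast Nat.mod_le k 2

private theorem FMB_sigma {k : ℕ} {v : ℝ} (h0 : ((k % 2 : ℕ) : ℝ) ≤ v) (hv : v ≤ k) :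
    0 ≤ (v - (k % 2 : ℕ)) / (2 * (k / 2 : ℕ)) ∧ (v - (k % 2 : ℕ)) / (2 * (k / 2 : ℕ)) ≤ 1 := by
  have h1 : ((k % 2 : ℕ) : ℝ) + 2 * ((k / 2 : ℕ) : ℝ) = k := by
    exact_mod_cast Nat.mod_add_div k 2
  constructor
  · apply div_nonneg
    · linarith
    · positivity
  · rcases Nat.eq_zero_or_pos (k / 2) with h2 | h2
    · rw [h2]
      simp
    · have h3 : (0 : ℝ) < ((k / 2 : ℕ) : ℝ) := by exact_mod_cast h2
      rw [div_le_one (by positivity)]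
      linarith

theorem FM_pos {k M : ℕ} {v : ℝ} (hv : v ≤ k) : 0 < FM k M v := by
  unfold FM FF
  obtain ⟨h1, h2⟩ := FMB_sigma (k := k) (v := max v ((k % 2 : ℕ) : ℝ)) (le_max_right _ _)
    (max_le hv (FMB_mod k))
  exact BN_pos h1 h2 _

theorem FM_anti {k M : ℕ} {v w : ℝ} (h : v ≤ w) (hw : w ≤ k) : FM k M w ≤ FM k M v := by
  unfold FM
  exact FF_antitone (max_le_max_right _ h) (max_le hw (FMB_mod k))

/-- `F ≤ B(d) (1 - y / (d - 1))^(-1/2)` -/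
theorem log_FM_le_G {d k : ℕ} (hd : Even d) (hk : k < d) {y : ℝ} (hy0 : 0 ≤ y) (hyk : y ≤ k)
    (hyn : y < (d : ℝ) - 1) :
    Real.log (FM k (d - k) ((k : ℝ) - y)) ≤ Real.log (bb (d / 2)) + GG ((d : ℝ) - 1) y := by
  have h1 := FM_le_G hd hk hy0 hyn
  have h2 := FM_pos (k := k) (M := d - k) (v := (k : ℝ) - y) (by linarith)
  have hd1 : 0 < (d : ℝ) - 1 := by linarith
  have h3 : y / ((d : ℝ) - 1) < 1 := (div_lt_one hd1).2 hyn
  have h4 : 0 < 1 - y / ((d : ℝ) - 1) := by linarith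
  have h5 := Real.log_le_log h2 h1
  rw [Real.log_mul (bb_pos _).ne' (one_div_pos.2 (Real.sqrt_pos.2 h4)).ne', one_div, Real.log_inv,
    Real.log_sqrt h4.le] at h5
  unfold GG
  linarith

/-- the point where `G` is equal to the bound of `log_FM_le_cap` -/
noncomputable def YY (d k : ℕ) : ℝ := 4 * ((k / 2 : ℕ) : ℝ) * ((d : ℝ) - 1) / (2 * d + 1)

theorem GG_YY {d k : ℕ} (hk : k < d) (hd : 2 ≤ d) : GG ((d : ℝ) - 1) (YY d k) =
    1 / 2 * Real.log ((2 * d + 1) / (2 * d + 1 - 4 * ((k / 2 : ℕ) : ℝ))) := by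
  have hd2 : (2 : ℝ) ≤ d := by exact_mod_cast hd
  have h1 : (2 * ((k / 2 : ℕ) : ℝ)) ≤ k := by
    have h2 : 2 * (k / 2) ≤ k := Nat.mul_div_le k 2
    exact_mod_cast h2
  have hk' : (k : ℝ) + 1 ≤ d := by exact_mod_cast hk
  have h2 : 0 < 2 * (d : ℝ) + 1 - 4 * ((k / 2 : ℕ) : ℝ) := by linarith
  have h3 : (0 : ℝ) < 2 * d + 1 := by linarith
  have h4 : (d : ℝ) - 1 ≠ 0 := by linarith
  unfold GG YY
  have h5 : 1 - 4 * ((k / 2 : ℕ) : ℝ) * ((d : ℝ) - 1) / (2 * d + 1) / ((d : ℝ) - 1) =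
      ((2 * d + 1) / (2 * d + 1 - 4 * ((k / 2 : ℕ) : ℝ)))⁻¹ := by
    rw [inv_div]
    field_simp
  rw [h5, Real.log_inv]
  ring

/-- `F ≤ bb (d/2 - k/2) ≤ bb (d/2) * sqrt ((2 d + 1) / (2 d + 1 - 4 (k/2)))` -/
theorem log_FM_le_cap {d k : ℕ} (hd : Even d) (hk : k < d) {v : ℝ} (hv : v ≤ k) :
    Real.log (FM k (d - k) v) ≤ Real.log (bb (d / 2)) + GG ((d : ℝ) - 1) (YY d k) := by
  have hd2 : 2 ≤ d := by
    obtain ⟨m, hm⟩ := hd
    omega
  rw [GG_YY hk hd2]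
  -- `FM ≤ bb (d/2 - k/2)`
  have hFM : FM k (d - k) v ≤ bb (d / 2 - k / 2) := by
    unfold FM FF
    obtain ⟨h1, h2⟩ := FMB_sigma (k := k) (v := max v ((k % 2 : ℕ) : ℝ)) (le_max_right _ _)
      (max_le hv (FMB_mod k))
    refine (BN_anti le_rfl h1 h2 _).trans (le_of_eq ?_)
    have hn₀ : (d - k + k % 2) / 2 = d / 2 - k / 2 := by
      obtain ⟨m, hm⟩ := hd
      omega
    rw [hn₀]
    unfold BN
    rw [sum_range_succ', sum_eq_zero]
    · simp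
    · intro m _
      rw [zero_pow (Nat.succ_ne_zero m)]
      simp
  have h0 := FM_pos (k := k) (M := d - k) hv
  refine (Real.log_le_log h0 hFM).trans ?_
  have h1 := bb_sq_mono (m := d / 2 - k / 2) (n := d / 2) (Nat.sub_le _ _)
  have hkd : k / 2 ≤ d / 2 := Nat.div_le_div_right hk.le
  have hdd : (2 * ((d / 2 : ℕ) : ℝ)) = d := by
    obtain ⟨m, hm⟩ := hd
    have h2 : 2 * (d / 2) = d := by omega
    exact_mod_cast h2
  have e1 : ((d / 2 - k / 2 : ℕ) : ℝ) = ((d / 2 : ℕ) : ℝ) - ((k / 2 : ℕ) : ℝ) := Nat.cast_sub hkd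
  rw [e1] at h1
  have h2' : (2 * ((k / 2 : ℕ) : ℝ)) ≤ k := by
    have h2 : 2 * (k / 2) ≤ k := Nat.mul_div_le k 2
    exact_mod_cast h2
  have hk' : (k : ℝ) + 1 ≤ d := by exact_mod_cast hk
  have h3 : 0 < 2 * (d : ℝ) + 1 - 4 * ((k / 2 : ℕ) : ℝ) := by linarith
  have h4 : (0 : ℝ) < 2 * d + 1 := by positivity
  have e2 : 4 * (((d / 2 : ℕ) : ℝ) - ((k / 2 : ℕ) : ℝ)) + 1 =
      2 * (d : ℝ) + 1 - 4 * ((k / 2 : ℕ) : ℝ) := by linarith
  have e3 : 4 * ((d / 2 : ℕ) : ℝ) + 1 = 2 * (d : ℝ) + 1 := by linarith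
  rw [e2, e3] at h1
  have hb1 := bb_pos (d / 2 - k / 2)
  have hb2 := bb_pos (d / 2)
  have h5 : bb (d / 2 - k / 2) ^ 2 ≤ bb (d / 2) ^ 2 *
      ((2 * d + 1) / (2 * d + 1 - 4 * ((k / 2 : ℕ) : ℝ))) := by
    rw [mul_div_assoc', le_div_iff₀ h3]
    exact h1
  have h6 := Real.log_le_log (by positivity) h5
  rw [Real.log_mul (by positivity) (by positivity), Real.log_pow, Real.log_pow] at h6
  push_cast at h6
  linarith

end MP_a3e05c_co.KL
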