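import Mathlib

/-!
# EULER, scalar block S1: two rational inequalities
-/

namespace MP_a3e05c_co.KL

/-- `2 s ∂g_i/∂s`, up to sign -/
noncomputable def Pi (s i : ℝ) : ℝ :=
  i * (i - 1) * (2 * (s + 2 - i) + s) / ((s + 2 - i) * (s ^ 2 * (s + 2 - i) - i * (i - 1)))

/-- `∂ log (1 - ρ_i) / ∂s` -/
noncomputable def Ki (s i : ℝ) : ℝ := 1 / ((s + 2 - i) * (s + 1 - i)) - 1 / (s * (s + 1))

/-- First inequality, `1 ≤ j`, `j + 1 ≤ s` real numbers.  After clearing denominators (all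
positive) write `s = j + 1 + t` and `j = 1 + u`: expected to be a polynomial with nonnegative
coefficients in `t, u` (otherwise nlinarith / a sum of such pieces). -/
theorem Pi_step {s j : ℝ} (hj : 1 ≤ j) (hs : j + 1 ≤ s) :
    s / (s + 1) * ((j + 2) * Ki s (j + 1) - j * Ki s j) ≤ Pi s (j + 1) - Pi s j := by
  obtain ⟨u, hu, rfl⟩ : ∃ u : ℝ, 0 ≤ u ∧ j = 1 + u := ⟨j - 1, by linarith, by ring⟩
  obtain ⟨t, ht, rfl⟩ : ∃ t : ℝ, 0 ≤ t ∧ s = 2 + u + t := ⟨s - 2 - u, by linarith, by ring⟩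
  have hD1 : 0 < 1 * u ^ 2 * t + 1 * u ^ 2 + 2 * u * t ^ 2 + 8 * u * t + 5 * u + 1 * t ^ 3 + 6 * t ^ 2 +
      12 * t + 6 := by positivity
  have hD2 : 0 < 1 * u ^ 2 * t + 2 * u ^ 2 + 2 * u * t ^ 2 + 10 * u * t + 11 * u + 1 * t ^ 3 + 7 * t ^ 2 +
      16 * t + 12 := by positivity
  have h0 : 0 < 1 + t := by positivity
  have h1 : 0 < 2 + t := by positivity
  have h2 : 0 < 3 + t := by positivity
  have hs0 : 0 < 2 + u + t := by positivity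
  have hs1 : 0 < 3 + u + t := by positivity
  have hN : 0 ≤ 3 * u ^ 6 * t + 5 * u ^ 6 + 1 * u ^ 5 * t ^ 3 + 22 * u ^ 5 * t ^ 2 + 86 * u ^ 5 * t +
      85 * u ^ 5 + 5 * u ^ 4 * t ^ 4 + 77 * u ^ 4 * t ^ 3 + 393 * u ^ 4 * t ^ 2 +
      812 * u ^ 4 * t + 571 * u ^ 4 + 13 * u ^ 3 * t ^ 5 + 173 * u ^ 3 * t ^ 4 +
      950 * u ^ 3 * t ^ 3 + 2645 * u ^ 3 * t ^ 2 + 3658 * u ^ 3 * t + 1967 * u ^ 3 +
      15 * u ^ 2 * t ^ 6 + 216 * u ^ 2 * t ^ 5 + 1315 * u ^ 2 * t ^ 4 + 4357 * u ^ 2 * t ^ 3 +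
      8292 * u ^ 2 * t ^ 2 + 8539 * u ^ 2 * t + 3672 * u ^ 2 + 6 * u * t ^ 7 + 105 * u * t ^ 6 +
      779 * u * t ^ 5 + 3193 * u * t ^ 4 + 7857 * u * t ^ 3 + 11670 * u * t ^ 2 + 9714 * u * t +
      3492 * u + 6 * t ^ 7 + 90 * t ^ 6 + 576 * t ^ 5 + 2046 * t ^ 4 + 4374 * t ^ 3 +
      5652 * t ^ 2 + 4104 * t + 1296 := by
    positivity
  have e1 : Pi (2 + u + t) (1 + u + 1) = (2 + u) * (1 + u) * (2 * (2 + t) + (2 + u + t)) /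
      ((2 + t) * (1 * u ^ 2 * t + 1 * u ^ 2 + 2 * u * t ^ 2 + 8 * u * t + 5 * u + 1 * t ^ 3 + 6 * t ^ 2 +
      12 * t + 6)) := by
    unfold Pi
    congr 1
    · ring
    · ring
  have e2 : Pi (2 + u + t) (1 + u) = (1 + u) * u * (2 * (3 + t) + (2 + u + t)) /
      ((3 + t) * (1 * u ^ 2 * t + 2 * u ^ 2 + 2 * u * t ^ 2 + 10 * u * t + 11 * u + 1 * t ^ 3 + 7 * t ^ 2 +
      16 * t + 12)) := by
    unfold Pi
    congr 1
    · ring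
    · ring
  have e3 : Ki (2 + u + t) (1 + u + 1) = 1 / ((2 + t) * (1 + t)) -
      1 / ((2 + u + t) * (3 + u + t)) := by
    unfold Ki
    congr 2
    · ring
    · ring
  have e4 : Ki (2 + u + t) (1 + u) = 1 / ((3 + t) * (2 + t)) -
      1 / ((2 + u + t) * (3 + u + t)) := by
    unfold Ki
    congr 2
    · ring
    · ring
  have e5 : (2 + u + t + 1 : ℝ) = 3 + u + t := by ring
  rw [e1, e2, e3, e4, e5, ← sub_nonneg]
  generalize hA : (1 * u ^ 2 * t + 1 * u ^ 2 + 2 * u * t ^ 2 + 8 * u * t + 5 * u + 1 * t ^ 3 + 6 * t ^ 2 +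
      12 * t + 6) = a at *
  generalize hB : (1 * u ^ 2 * t + 2 * u ^ 2 + 2 * u * t ^ 2 + 10 * u * t + 11 * u + 1 * t ^ 3 + 7 * t ^ 2 +
      16 * t + 12) = b at *
  have hkey : (2 + u) * (1 + u) * (2 * (2 + t) + (2 + u + t)) / ((2 + t) * a) -
      (1 + u) * u * (2 * (3 + t) + (2 + u + t)) / ((3 + t) * b) -
      (2 + u + t) / (3 + u + t) * ((1 + u + 2) * (1 / ((2 + t) * (1 + t)) -
        1 / ((2 + u + t) * (3 + u + t))) - (1 + u) * (1 / ((3 + t) * (2 + t)) -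
        1 / ((2 + u + t) * (3 + u + t)))) =
      ((2 + u) * (1 + u) * (2 * (2 + t) + (2 + u + t)) * (1 + t) * (3 + t) * b *
          (3 + u + t) ^ 2 -
        (1 + u) * u * (2 * (3 + t) + (2 + u + t)) * (1 + t) * (2 + t) * a * (3 + u + t) ^ 2 -
        (2 + u + t) * (3 + u) * (3 + u + t) * (3 + t) * a * b +
        (2 + u + t) * (1 + u) * (3 + u + t) * (1 + t) * a * b +
        2 * (1 + t) * (2 + t) * (3 + t) * a * b) /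
        ((1 + t) * (2 + t) * (3 + t) * a * b * (3 + u + t) ^ 2) := by
    field_simp
    ring
  rw [hkey]
  refine div_nonneg ?_ (by positivity)
  have hN2 : (2 + u) * (1 + u) * (2 * (2 + t) + (2 + u + t)) * (1 + t) * (3 + t) * b *
          (3 + u + t) ^ 2 -
        (1 + u) * u * (2 * (3 + t) + (2 + u + t)) * (1 + t) * (2 + t) * a * (3 + u + t) ^ 2 -
        (2 + u + t) * (3 + u) * (3 + u + t) * (3 + t) * a * b +
        (2 + u + t) * (1 + u) * (3 + u + t) * (1 + t) * a * b +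
        2 * (1 + t) * (2 + t) * (3 + t) * a * b = 3 * u ^ 6 * t + 5 * u ^ 6 + 1 * u ^ 5 * t ^ 3 + 22 * u ^ 5 * t ^ 2 + 86 * u ^ 5 * t +
      85 * u ^ 5 + 5 * u ^ 4 * t ^ 4 + 77 * u ^ 4 * t ^ 3 + 393 * u ^ 4 * t ^ 2 +
      812 * u ^ 4 * t + 571 * u ^ 4 + 13 * u ^ 3 * t ^ 5 + 173 * u ^ 3 * t ^ 4 +
      950 * u ^ 3 * t ^ 3 + 2645 * u ^ 3 * t ^ 2 + 3658 * u ^ 3 * t + 1967 * u ^ 3 +
      15 * u ^ 2 * t ^ 6 + 216 * u ^ 2 * t ^ 5 + 1315 * u ^ 2 * t ^ 4 + 4357 * u ^ 2 * t ^ 3 +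
      8292 * u ^ 2 * t ^ 2 + 8539 * u ^ 2 * t + 3672 * u ^ 2 + 6 * u * t ^ 7 + 105 * u * t ^ 6 +
      779 * u * t ^ 5 + 3193 * u * t ^ 4 + 7857 * u * t ^ 3 + 11670 * u * t ^ 2 + 9714 * u * t +
      3492 * u + 6 * t ^ 7 + 90 * t ^ 6 + 576 * t ^ 5 + 2046 * t ^ 4 + 4374 * t ^ 3 +
      5652 * t ^ 2 + 4104 * t + 1296 := by
    rw [← hA, ← hB]
    ring
  rw [hN2]
  exact hN

/-- Second inequality, `2 ≤ k ≤ m` real numbers; `X = x^(m+2)_k`, `Z = X (m+2)/m`, `x = x^m_k`. -/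
theorem T_step {m k : ℝ} (hk : 2 ≤ k) (hkm : k ≤ m) :
    (k + 1) * ((k * (k - 1) / (m * (m + 2) * (m + 4 - k)) -
        k * (k - 1) / ((m + 2) ^ 2 * (m + 4 - k))) /
        (1 - k * (k - 1) / (m * (m + 2) * (m + 4 - k)))) -
      k * (((k - 1) * (k - 2) / (m * (m + 2) * (m + 5 - k)) -
        (k - 1) * (k - 2) / ((m + 2) ^ 2 * (m + 5 - k))) /
        (1 - (k - 1) * (k - 2) / ((m + 2) ^ 2 * (m + 5 - k)))) ≤
      (k * (k - 1) / (m ^ 2 * (m + 2 - k)) - k * (k - 1) / ((m + 2) ^ 2 * (m + 4 - k))) /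
        (1 - k * (k - 1) / ((m + 2) ^ 2 * (m + 4 - k))) := by
  obtain ⟨u, hu, rfl⟩ : ∃ u : ℝ, 0 ≤ u ∧ k = 2 + u := ⟨k - 2, by linarith, by ring⟩
  obtain ⟨t, ht, rfl⟩ : ∃ t : ℝ, 0 ≤ t ∧ m = 2 + u + t := ⟨m - 2 - u, by linarith, by ring⟩
  have hE1 : 0 < 1 * u ^ 2 * t + 3 * u ^ 2 + 2 * u * t ^ 2 + 14 * u * t + 21 * u + 1 * t ^ 3 + 10 * t ^ 2 +
      32 * t + 30 := by positivity
  have hE2 : 0 < 1 * u ^ 2 * t + 4 * u ^ 2 + 2 * u * t ^ 2 + 18 * u * t + 39 * u + 1 * t ^ 3 + 13 * t ^ 2 +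
      56 * t + 80 := by positivity
  have hE3 : 0 < 1 * u ^ 2 * t + 3 * u ^ 2 + 2 * u * t ^ 2 + 16 * u * t + 29 * u + 1 * t ^ 3 + 12 * t ^ 2 +
      48 * t + 62 := by positivity
  have hA : 0 < 2 + t := by positivity
  have hB : 0 < 4 + t := by positivity
  have hC : 0 < 5 + t := by positivity
  have hm : 0 < 2 + u + t := by positivity
  have hm2 : 0 < 4 + u + t := by positivity
  have hN : 0 ≤ 4 * u ^ 7 * t + 12 * u ^ 7 + 28 * u ^ 6 * t ^ 2 + 198 * u ^ 6 * t + 334 * u ^ 6 +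
      102 * u ^ 5 * t ^ 3 + 1086 * u ^ 5 * t ^ 2 + 3780 * u ^ 5 * t + 4274 * u ^ 5 +
      216 * u ^ 4 * t ^ 4 + 3096 * u ^ 4 * t ^ 3 + 16344 * u ^ 4 * t ^ 2 + 37568 * u ^ 4 * t +
      31624 * u ^ 4 + 268 * u ^ 3 * t ^ 5 + 4870 * u ^ 3 * t ^ 4 + 34812 * u ^ 3 * t ^ 3 +
      122154 * u ^ 3 * t ^ 2 + 209892 * u ^ 3 * t + 140816 * u ^ 3 + 192 * u ^ 2 * t ^ 6 +
      4238 * u ^ 2 * t ^ 5 + 38430 * u ^ 2 * t ^ 4 + 182880 * u ^ 2 * t ^ 3 +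
      480692 * u ^ 2 * t ^ 2 + 659960 * u ^ 2 * t + 368416 * u ^ 2 + 74 * u * t ^ 7 +
      1920 * u * t ^ 6 + 21108 * u * t ^ 5 + 127212 * u * t ^ 4 + 452928 * u * t ^ 3 +
      950384 * u * t ^ 2 + 1085024 * u * t + 517856 * u + 12 * t ^ 8 + 356 * t ^ 7 +
      4584 * t ^ 6 + 33392 * t ^ 5 + 150160 * t ^ 4 + 425760 * t ^ 3 + 741152 * t ^ 2 +
      721664 * t + 299520 := by
    positivity
  have r1 : (2 + u + t + 2 : ℝ) = 4 + u + t := by ring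
  have r2 : (2 + u + t + 4 - (2 + u) : ℝ) = 4 + t := by ring
  have r3 : (2 + u + t + 5 - (2 + u) : ℝ) = 5 + t := by ring
  have r4 : (4 + u + t - (2 + u) : ℝ) = 2 + t := by ring
  have r5 : (2 + u - 1 : ℝ) = 1 + u := by ring
  have r6 : (2 + u - 2 : ℝ) = u := by ring
  rw [r1, r2, r3, r4, r5, r6]
  generalize h1 : (1 * u ^ 2 * t + 3 * u ^ 2 + 2 * u * t ^ 2 + 14 * u * t + 21 * u + 1 * t ^ 3 + 10 * t ^ 2 +
      32 * t + 30) = a at *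
  generalize h2 : (1 * u ^ 2 * t + 4 * u ^ 2 + 2 * u * t ^ 2 + 18 * u * t + 39 * u + 1 * t ^ 3 + 13 * t ^ 2 +
      56 * t + 80) = b at *
  generalize h3 : (1 * u ^ 2 * t + 3 * u ^ 2 + 2 * u * t ^ 2 + 16 * u * t + 29 * u + 1 * t ^ 3 + 12 * t ^ 2 +
      48 * t + 62) = c at *
  have q1 : (1 : ℝ) - (2 + u) * (1 + u) / ((2 + u + t) * (4 + u + t) * (4 + t)) =
      a / ((2 + u + t) * (4 + u + t) * (4 + t)) := by
    rw [← h1]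
    field_simp
    ring
  have q2 : (1 : ℝ) - (1 + u) * u / ((4 + u + t) ^ 2 * (5 + t)) =
      b / ((4 + u + t) ^ 2 * (5 + t)) := by
    rw [← h2]
    field_simp
    ring
  have q3 : (1 : ℝ) - (2 + u) * (1 + u) / ((4 + u + t) ^ 2 * (4 + t)) =
      c / ((4 + u + t) ^ 2 * (4 + t)) := by
    rw [← h3]
    field_simp
    ring
  rw [q1, q2, q3, ← sub_nonneg]
  have hkey : ((2 + u) * (1 + u) / ((2 + u + t) ^ 2 * (2 + t)) -
        (2 + u) * (1 + u) / ((4 + u + t) ^ 2 * (4 + t))) / (c / ((4 + u + t) ^ 2 * (4 + t))) -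
      ((2 + u + 1) * (((2 + u) * (1 + u) / ((2 + u + t) * (4 + u + t) * (4 + t)) -
        (2 + u) * (1 + u) / ((4 + u + t) ^ 2 * (4 + t))) /
        (a / ((2 + u + t) * (4 + u + t) * (4 + t)))) -
      (2 + u) * (((1 + u) * u / ((2 + u + t) * (4 + u + t) * (5 + t)) -
        (1 + u) * u / ((4 + u + t) ^ 2 * (5 + t))) / (b / ((4 + u + t) ^ 2 * (5 + t))))) =
      (2 + u) * (1 + u) * (((4 + u + t) ^ 2 * (4 + t) - (2 + u + t) ^ 2 * (2 + t)) *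
          (4 + u + t) * a * b - 2 * (3 + u) * (2 + u + t) ^ 2 * (2 + t) * b * c +
          2 * u * (2 + u + t) * (2 + t) * (4 + u + t) * a * c) /
        ((2 + u + t) ^ 2 * (2 + t) * (4 + u + t) * a * b * c) := by
    field_simp
    ring
  rw [hkey]
  refine div_nonneg (mul_nonneg (by positivity) ?_) (by positivity)
  have hN2 : ((4 + u + t) ^ 2 * (4 + t) - (2 + u + t) ^ 2 * (2 + t)) *
          (4 + u + t) * a * b - 2 * (3 + u) * (2 + u + t) ^ 2 * (2 + t) * b * c +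
          2 * u * (2 + u + t) * (2 + t) * (4 + u + t) * a * c = 4 * u ^ 7 * t + 12 * u ^ 7 + 28 * u ^ 6 * t ^ 2 + 198 * u ^ 6 * t + 334 * u ^ 6 +
      102 * u ^ 5 * t ^ 3 + 1086 * u ^ 5 * t ^ 2 + 3780 * u ^ 5 * t + 4274 * u ^ 5 +
      216 * u ^ 4 * t ^ 4 + 3096 * u ^ 4 * t ^ 3 + 16344 * u ^ 4 * t ^ 2 + 37568 * u ^ 4 * t +
      31624 * u ^ 4 + 268 * u ^ 3 * t ^ 5 + 4870 * u ^ 3 * t ^ 4 + 34812 * u ^ 3 * t ^ 3 +
      122154 * u ^ 3 * t ^ 2 + 209892 * u ^ 3 * t + 140816 * u ^ 3 + 192 * u ^ 2 * t ^ 6 +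
      4238 * u ^ 2 * t ^ 5 + 38430 * u ^ 2 * t ^ 4 + 182880 * u ^ 2 * t ^ 3 +
      480692 * u ^ 2 * t ^ 2 + 659960 * u ^ 2 * t + 368416 * u ^ 2 + 74 * u * t ^ 7 +
      1920 * u * t ^ 6 + 21108 * u * t ^ 5 + 127212 * u * t ^ 4 + 452928 * u * t ^ 3 +
      950384 * u * t ^ 2 + 1085024 * u * t + 517856 * u + 12 * t ^ 8 + 356 * t ^ 7 +
      4584 * t ^ 6 + 33392 * t ^ 5 + 150160 * t ^ 4 + 425760 * t ^ 3 + 741152 * t ^ 2 +
      721664 * t + 299520 := by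
    rw [← h1, ← h2, ← h3]
    ring
  rw [hN2]
  exact hN

end MP_a3e05c_co.KL
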