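import Pool.Agent.Lib.MP_a3e05c_co.S1.Basic
import Pool.Agent.Lib.MP_a3e05c_co.S1.Rat

/-!
# EULER, scalar block S1: derivatives with respect to the degree
-/

open Finset

namespace MP_a3e05c_co.KL

private theorem MDer_den {s : ℝ} (i : ℕ) :
    HasDerivAt (fun s : ℝ => s ^ 2 * (s + 2 - i)) (2 * s * (s + 2 - i) + s ^ 2 * 1) s := by
  have h1 : HasDerivAt (fun s : ℝ => s ^ 2) (2 * s) s := by
    simpa using hasDerivAt_pow 2 s
  have h2 : HasDerivAt (fun s : ℝ => s + 2 - (i : ℝ)) 1 s :=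
    ((hasDerivAt_id s).add_const 2).sub_const (i : ℝ)
  exact h1.mul h2

theorem hasDerivAt_gg {s : ℝ} {i : ℕ} (h1 : 1 ≤ i) (hi : (i : ℝ) ≤ s) :
    HasDerivAt (fun s : ℝ => gg s i) (-(Pi s i / (2 * s))) s := by
  have h1' : (1 : ℝ) ≤ i := by exact_mod_cast h1
  have hs : 0 < s := by linarith
  have hc : 0 < s + 2 - (i : ℝ) := by linarith
  have hden : s ^ 2 * (s + 2 - (i : ℝ)) ≠ 0 := by positivity
  have hx := one_sub_xx_pos h1 hi
  have hD : HasDerivAt (fun s : ℝ => xx s i)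
      ((0 * (s ^ 2 * (s + 2 - i)) - (i : ℝ) * ((i : ℝ) - 1) *
        (2 * s * (s + 2 - i) + s ^ 2 * 1)) / (s ^ 2 * (s + 2 - i)) ^ 2) s :=
    (hasDerivAt_const s ((i : ℝ) * ((i : ℝ) - 1))).div (MDer_den i) hden
  have hE := ((hD.const_sub 1).log hx.ne').const_mul (-(1 / 2) : ℝ)
  refine hE.congr_deriv ?_
  have hx2 : 1 - xx s i = (s ^ 2 * (s + 2 - i) - i * (i - 1)) / (s ^ 2 * (s + 2 - i)) := by
    unfold xx
    field_simp
  have hpos : 0 < s ^ 2 * (s + 2 - (i : ℝ)) - i * (i - 1) := by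
    have h3 : 0 < (s ^ 2 * (s + 2 - (i : ℝ)) - i * (i - 1)) / (s ^ 2 * (s + 2 - i)) := by
      rw [← hx2]
      exact hx
    exact (div_pos_iff_of_pos_right (by positivity)).1 h3
  rw [hx2]
  unfold Pi
  generalize s ^ 2 * (s + 2 - (i : ℝ)) - i * (i - 1) = w at *
  generalize s + 2 - (i : ℝ) = c at *
  field_simp
  ring

/-- from `(j + 2) h_(j+1) = j h_j + g_(j+1) - g_j` -/
theorem hp_eq_sum (s : ℝ) {j : ℕ} (h1 : 1 ≤ j) : (j : ℝ) * (j + 1) * hp s j =
    ∑ i ∈ Ico 1 j, ((i : ℝ) + 1) * (gg s (i + 1) - gg s i) := by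
  induction j, h1 using Nat.le_induction with
  | base =>
    have h := hp_rec s (le_refl 1)
    have h2 : pp s 1 = 0 := by
      unfold pp
      rw [sum_range_succ, sum_range_one, gg_zero, gg_one]
      simp
    rw [h2, gg_one] at h
    rw [Ico_self, sum_empty]
    push_cast at h ⊢
    linarith
  | succ j hj ih =>
    rw [sum_Ico_succ_top hj, ← ih]
    have ha := hp_rec s hj
    have hb := hp_rec s (show 1 ≤ j + 1 by omega)
    have hc : pp s (j + 1) - pp s j = hp s (j + 1) := rfl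
    push_cast at hb ⊢
    have hd : gg s (j + 1) - gg s j = ((j : ℝ) + 2) * hp s (j + 1) - j * hp s j := by
      linarith
    rw [hd]
    ring

theorem Ki_eq_sum {s : ℝ} {j : ℕ} (h1 : 1 ≤ j) : (j : ℝ) * (j + 1) * Ki s j =
    ∑ i ∈ Ico 1 j, ((i : ℝ) + 1) * (((i : ℝ) + 2) * Ki s ((i : ℝ) + 1) - i * Ki s i) := by
  induction j, h1 using Nat.le_induction with
  | base =>
    rw [Ico_self, sum_empty]
    have h : Ki s ((1 : ℕ) : ℝ) = 0 := by
      unfold Ki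
      push_cast
      rw [sub_eq_zero]
      congr 1
      ring
    rw [h]
    simp
  | succ j hj ih =>
    rw [sum_Ico_succ_top hj, ← ih]
    push_cast
    ring

/-- `-h_j' ≥ K_j / (2 (s + 1))` -/
theorem hp_der {s : ℝ} {j : ℕ} (h1 : 1 ≤ j) (hj : (j : ℝ) ≤ s) :
    ∃ D : ℝ, HasDerivAt (fun s : ℝ => hp s j) D s ∧ D ≤ -(Ki s j / (2 * (s + 1))) := by
  have h1' : (1 : ℝ) ≤ j := by exact_mod_cast h1
  have hs : 0 < s := by linarith
  have hjj : (0 : ℝ) < (j : ℝ) * (j + 1) := by positivity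
  have hfun : (fun s : ℝ => hp s j) = fun s : ℝ => ((j : ℝ) * (j + 1))⁻¹ *
      ∑ i ∈ Ico 1 j, ((i : ℝ) + 1) * (gg s (i + 1) - gg s i) := by
    funext t
    rw [← hp_eq_sum t h1, ← mul_assoc, inv_mul_cancel₀ hjj.ne', one_mul]
  have hsum : HasDerivAt (fun s : ℝ => ∑ i ∈ Ico 1 j, ((i : ℝ) + 1) * (gg s (i + 1) - gg s i))
      (∑ i ∈ Ico 1 j, ((i : ℝ) + 1) * (-(Pi s ((i + 1 : ℕ) : ℝ) / (2 * s)) -
        -(Pi s i / (2 * s)))) s := by
    apply HasDerivAt.fun_sum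
    intro i hi
    rw [mem_Ico] at hi
    have hij : ((i : ℝ) + 1) ≤ j := by exact_mod_cast hi.2
    have ha : HasDerivAt (fun s : ℝ => gg s (i + 1)) (-(Pi s ((i + 1 : ℕ) : ℝ) / (2 * s))) s :=
      hasDerivAt_gg (by omega) (by push_cast; linarith)
    have hb : HasDerivAt (fun s : ℝ => gg s i) (-(Pi s i / (2 * s))) s :=
      hasDerivAt_gg hi.1 (by linarith)
    exact (ha.sub hb).const_mul _
  refine ⟨_, by rw [hfun]; exact hsum.const_mul _, ?_⟩
  have hle : ∑ i ∈ Ico 1 j, ((i : ℝ) + 1) * (-(Pi s ((i + 1 : ℕ) : ℝ) / (2 * s)) -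
        -(Pi s i / (2 * s))) ≤ ∑ i ∈ Ico 1 j, -(1 / (2 * (s + 1))) *
        (((i : ℝ) + 1) * (((i : ℝ) + 2) * Ki s ((i : ℝ) + 1) - i * Ki s i)) := by
    apply sum_le_sum
    intro i hi
    rw [mem_Ico] at hi
    have hi1 : (1 : ℝ) ≤ i := by exact_mod_cast hi.1
    have hij : ((i : ℝ) + 1) ≤ j := by exact_mod_cast hi.2
    have hst := Pi_step hi1 (hij.trans hj)
    push_cast
    have e1 : ((i : ℝ) + 1) * (-(Pi s ((i : ℝ) + 1) / (2 * s)) - -(Pi s i / (2 * s))) =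
        -(((i : ℝ) + 1) / (2 * s) * (Pi s ((i : ℝ) + 1) - Pi s i)) := by
      field_simp
      ring
    have e2 : -(1 / (2 * (s + 1))) * (((i : ℝ) + 1) * (((i : ℝ) + 2) * Ki s ((i : ℝ) + 1) -
        i * Ki s i)) = -(((i : ℝ) + 1) / (2 * s) * (s / (s + 1) *
        (((i : ℝ) + 2) * Ki s ((i : ℝ) + 1) - i * Ki s i))) := by
      field_simp
    rw [e1, e2, neg_le_neg_iff]
    exact mul_le_mul_of_nonneg_left hst (by positivity)
  rw [← mul_sum, ← Ki_eq_sum h1] at hle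
  calc ((j : ℝ) * (j + 1))⁻¹ * ∑ i ∈ Ico 1 j, ((i : ℝ) + 1) *
        (-(Pi s ((i + 1 : ℕ) : ℝ) / (2 * s)) - -(Pi s i / (2 * s)))
      ≤ ((j : ℝ) * (j + 1))⁻¹ * (-(1 / (2 * (s + 1))) * ((j : ℝ) * (j + 1) * Ki s j)) :=
        mul_le_mul_of_nonneg_left hle (by positivity)
    _ = -(Ki s j / (2 * (s + 1))) := by
        field_simp

/-- `1 - ρ_j = (s + 1) (s + 1 - j) / (s (s + 2 - j))` -/
theorem one_sub_rr {s : ℝ} {j : ℕ} (h1 : 1 ≤ j) (hj : (j : ℝ) ≤ s) :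
    1 - rr s j = (s + 1) * (s + 1 - j) / (s * (s + 2 - j)) := by
  have h1' : (1 : ℝ) ≤ j := by exact_mod_cast h1
  have hs : 0 < s := by linarith
  have hc : 0 < s + 2 - (j : ℝ) := by linarith
  unfold rr
  rw [eq_div_iff (by positivity), sub_mul, div_mul_cancel₀ _ (by positivity)]
  ring

theorem hasDerivAt_log_rr {s : ℝ} {j : ℕ} (h1 : 1 ≤ j) (hj : (j : ℝ) ≤ s) :
    HasDerivAt (fun s : ℝ => Real.log (1 - rr s j)) (Ki s j) s := by
  have h1' : (1 : ℝ) ≤ j := by exact_mod_cast h1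
  have hs : 0 < s := by linarith
  have hc : 0 < s + 2 - (j : ℝ) := by linarith
  have hc1 : 0 < s + 1 - (j : ℝ) := by linarith
  have hden : s * (s + 2 - (j : ℝ)) ≠ 0 := by positivity
  have hpos : 0 < 1 - rr s j := by
    rw [one_sub_rr h1 hj]
    positivity
  have h2 : HasDerivAt (fun s : ℝ => s * (s + 2 - (j : ℝ))) (1 * (s + 2 - (j : ℝ)) + s * 1) s :=
    (hasDerivAt_id s).mul (((hasDerivAt_id s).add_const 2).sub_const (j : ℝ))
  have hD : HasDerivAt (fun s : ℝ => rr s j)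
      ((0 * (s * (s + 2 - (j : ℝ))) - ((j : ℝ) - 1) * (1 * (s + 2 - (j : ℝ)) + s * 1)) /
        (s * (s + 2 - (j : ℝ))) ^ 2) s :=
    (hasDerivAt_const s ((j : ℝ) - 1)).div h2 hden
  refine ((hD.const_sub 1).log hpos.ne').congr_deriv ?_
  rw [one_sub_rr h1 hj]
  unfold Ki
  have hs1 : 0 < s + 1 := by linarith
  rw [div_sub_div _ _ (by positivity) (by positivity), div_eq_div_iff (by positivity)
    (by positivity)]
  field_simp
  ring

theorem Ki_nonneg {s : ℝ} {j : ℕ} (h1 : 1 ≤ j) (hj : (j : ℝ) ≤ s) : 0 ≤ Ki s j := by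
  have h1' : (1 : ℝ) ≤ j := by exact_mod_cast h1
  have hs : 0 < s := by linarith
  unfold Ki
  rw [sub_nonneg]
  have hc1 : 0 < s + 1 - (j : ℝ) := by linarith
  have hc : 0 < s + 2 - (j : ℝ) := by linarith
  apply one_div_le_one_div_of_le (by positivity)
  rw [mul_comm s]
  apply mul_le_mul _ _ hc1.le (by linarith)
  · linarith
  · linarith

private theorem MDer_Ki {s : ℝ} {j : ℕ} (h1 : 1 ≤ j) (hj : (j : ℝ) ≤ s) :
    Ki s j = ((j : ℝ) - 1) * (1 / (s + 1 - j) + 1 / (s + 1)) * (1 / (s * (s + 2 - j))) := by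
  have h1' : (1 : ℝ) ≤ j := by exact_mod_cast h1
  have hs : 0 < s := by linarith
  have hc1 : 0 < s + 1 - (j : ℝ) := by linarith
  have hc : 0 < s + 2 - (j : ℝ) := by linarith
  have hs1 : 0 < s + 1 := by linarith
  unfold Ki
  field_simp
  ring

theorem Ki_anti {s s' : ℝ} {j : ℕ} (h1 : 1 ≤ j) (hj : (j : ℝ) ≤ s) (hs : s ≤ s') :
    Ki s' j ≤ Ki s j := by
  have h1' : (1 : ℝ) ≤ j := by exact_mod_cast h1
  have hs0 : 0 < s := by linarith
  have hc1 : 0 < s + 1 - (j : ℝ) := by linarith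
  have hc : 0 < s + 2 - (j : ℝ) := by linarith
  have hs1 : 0 < s + 1 := by linarith
  have hj0 : 0 ≤ (j : ℝ) - 1 := by linarith
  rw [MDer_Ki h1 hj, MDer_Ki h1 (hj.trans hs)]
  apply mul_le_mul
  · apply mul_le_mul_of_nonneg_left _ hj0
    apply add_le_add
    · apply one_div_le_one_div_of_le hc1
      linarith
    · apply one_div_le_one_div_of_le hs1
      linarith
  · apply one_div_le_one_div_of_le (by positivity)
    apply mul_le_mul hs (by linarith) hc.le (by linarith)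
  · apply one_div_nonneg.2
    apply mul_nonneg (by linarith)
    linarith
  · apply mul_nonneg hj0
    positivity

end MP_a3e05c_co.KL
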