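import Pool.Agent.Lib.MP_a3e05c_co.S1.MDer

/-!
# EULER, scalar block S1: decrease of `h_j` with the degree
-/

open Finset

namespace MP_a3e05c_co.KL

private theorem MStar_alg {p q c t : ℝ} (hc : 0 < c) (ht : 0 ≤ t) (htc : t < c) (hq : 0 ≤ q)
    (hpq : q ≤ p) : 0 ≤ p / (2 * (c - t)) + q / (2 * (c + t)) - 1 / (2 * c) * (q + p) := by
  have h1 : 0 < c - t := by linarith
  have h2 : 0 < c + t := by linarith
  have h3 : p / (2 * (c - t)) + q / (2 * (c + t)) - 1 / (2 * c) * (q + p) =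
      (p * (t * (c + t)) - q * (t * (c - t))) / (2 * c * (c - t) * (c + t)) := by
    field_simp
    ring
  rw [h3]
  apply div_nonneg _ (by positivity)
  have h4 : q * (t * (c - t)) ≤ p * (t * (c + t)) := by
    apply mul_le_mul hpq
    · apply mul_le_mul_of_nonneg_left _ ht
      linarith
    · exact mul_nonneg ht h1.le
    · linarith
  linarith

/-- For `t ∈ [0, 1]` let `D t = h_j(m+1-t) - h_j(m+1+t) - (L(m+1+t) - L(m+1-t)) / (2 (m+2))`,
`L s = log (1 - ρ_j(s))`, `L' = K`.  `D 0 = 0` and `D' ≥ 0`: `K(m+1-t)/(2(m+2-t)) +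
K(m+1+t)/(2(m+2+t)) ≥ (K(m+1-t) + K(m+1+t)) / (2(m+2))` because `K(m+1-t) ≥ K(m+1+t)`. -/
theorem mstar {m j : ℕ} (h1 : 1 ≤ j) (hj : j ≤ m) :
    1 / (2 * ((m : ℝ) + 2)) * (Real.log (1 - rr ((m : ℝ) + 2) j) - Real.log (1 - rr m j)) ≤
      hp m j - hp ((m : ℝ) + 2) j := by
  have hj' : (j : ℝ) ≤ m := by exact_mod_cast hj
  have hm0 : (1 : ℝ) ≤ m := by exact_mod_cast h1.trans hj
  set F : ℝ → ℝ := fun t => hp ((m : ℝ) + 1 - t) j - hp ((m : ℝ) + 1 + t) j -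
    1 / (2 * ((m : ℝ) + 2)) * (Real.log (1 - rr ((m : ℝ) + 1 + t) j) -
      Real.log (1 - rr ((m : ℝ) + 1 - t) j)) with hF
  have hder : ∀ t ∈ Set.Icc (0 : ℝ) 1, ∃ D : ℝ, HasDerivAt F D t ∧ 0 ≤ D := by
    intro t ht
    have ha : (j : ℝ) ≤ (m : ℝ) + 1 - t := by linarith [ht.2]
    have hb : (j : ℝ) ≤ (m : ℝ) + 1 + t := by linarith [ht.1]
    obtain ⟨Da, hDa, hDa'⟩ := hp_der h1 ha
    obtain ⟨Db, hDb, hDb'⟩ := hp_der h1 hb
    have hLa := hasDerivAt_log_rr h1 ha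
    have hLb := hasDerivAt_log_rr h1 hb
    have ia : HasDerivAt (fun t : ℝ => (m : ℝ) + 1 - t) (-1) t := by
      simpa using (hasDerivAt_id t).const_sub ((m : ℝ) + 1)
    have ib : HasDerivAt (fun t : ℝ => (m : ℝ) + 1 + t) 1 t := by
      simpa using (hasDerivAt_id t).const_add ((m : ℝ) + 1)
    have c1 : HasDerivAt (fun t : ℝ => hp ((m : ℝ) + 1 - t) j) (Da * -1) t := hDa.comp t ia
    have c2 : HasDerivAt (fun t : ℝ => hp ((m : ℝ) + 1 + t) j) (Db * 1) t := hDb.comp t ib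
    have c3 : HasDerivAt (fun t : ℝ => Real.log (1 - rr ((m : ℝ) + 1 - t) j))
      (Ki ((m : ℝ) + 1 - t) j * -1) t := hLa.comp t ia
    have c4 : HasDerivAt (fun t : ℝ => Real.log (1 - rr ((m : ℝ) + 1 + t) j))
      (Ki ((m : ℝ) + 1 + t) j * 1) t := hLb.comp t ib
    have c5 := (c1.sub c2).sub ((c4.sub c3).const_mul (1 / (2 * ((m : ℝ) + 2))))
    refine ⟨_, c5, ?_⟩
    have k1 := Ki_nonneg h1 hb
    have k2 := Ki_anti h1 ha (show (m : ℝ) + 1 - t ≤ (m : ℝ) + 1 + t by linarith [ht.1])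
    have k3 := MStar_alg (c := (m : ℝ) + 2) (t := t) (by linarith) ht.1 (by linarith [ht.2]) k1 k2
    have e1 : (m : ℝ) + 1 - t + 1 = (m : ℝ) + 2 - t := by ring
    have e2 : (m : ℝ) + 1 + t + 1 = (m : ℝ) + 2 + t := by ring
    rw [e1] at hDa'
    rw [e2] at hDb'
    have e3 : 1 / (2 * ((m : ℝ) + 2)) * (Ki ((m : ℝ) + 1 + t) j * 1 - Ki ((m : ℝ) + 1 - t) j * -1) =
      1 / (2 * ((m : ℝ) + 2)) * (Ki ((m : ℝ) + 1 + t) j + Ki ((m : ℝ) + 1 - t) j) := by ring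
    rw [e3]
    linarith
  have hmono : MonotoneOn F (Set.Icc 0 1) := by
    apply monotoneOn_of_deriv_nonneg (convex_Icc 0 1)
    · intro t ht
      obtain ⟨D, hD, -⟩ := hder t ht
      exact hD.continuousAt.continuousWithinAt
    · intro t ht
      obtain ⟨D, hD, -⟩ := hder t (interior_subset ht)
      exact hD.differentiableAt.differentiableWithinAt
    · intro t ht
      obtain ⟨D, hD, hD'⟩ := hder t (interior_subset ht)
      rw [hD.deriv]
      exact hD'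
  have h2 := hmono (Set.left_mem_Icc.2 zero_le_one) (Set.right_mem_Icc.2 zero_le_one) zero_le_one
  have h3 : F 0 = 0 := by
    simp only [hF]
    simp
  have e1 : (m : ℝ) + 1 - 1 = m := by ring
  have e2 : (m : ℝ) + 1 + 1 = m + 2 := by ring
  rw [h3] at h2
  simp only [hF] at h2
  rw [e1, e2] at h2
  linarith

end MP_a3e05c_co.KL
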