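import Pool.Agent.Lib.MP_a3e05c_co.KL.Pot

/-!
# EULER, scalar block S1: from pure types to mixtures
-/

open Finset

namespace MP_a3e05c_co.KL

/-- `G_n` is convex on `[0, n)` -/
theorem GG_convexOn {n : ℝ} (hn : 0 < n) : ConvexOn ℝ (Set.Ico 0 n) (GG n) := by
  refine ⟨convex_Ico 0 n, ?_⟩
  intro x hx y hy a b ha hb hab
  have hx1 : (1 - x / n) ∈ Set.Ioi (0 : ℝ) := by
    have := (div_lt_one hn).2 hx.2
    simp only [Set.mem_Ioi]
    linarith
  have hy1 : (1 - y / n) ∈ Set.Ioi (0 : ℝ) := by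
    have := (div_lt_one hn).2 hy.2
    simp only [Set.mem_Ioi]
    linarith
  have h := strictConcaveOn_log_Ioi.concaveOn.2 hx1 hy1 ha hb hab
  have e : a • (1 - x / n) + b • (1 - y / n) = 1 - (a • x + b • y) / n := by
    simp only [smul_eq_mul]
    have : b = 1 - a := by linarith
    subst this
    field_simp
    ring
  rw [e] at h
  simp only [smul_eq_mul] at h ⊢
  unfold GG
  nlinarith [h]

theorem GG_nonneg {n y : ℝ} (hn : 0 < n) (hy : 0 ≤ y) (hy' : y < n) : 0 ≤ GG n y := by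
  unfold GG
  have h1 : y / n < 1 := (div_lt_one hn).2 hy'
  have h2 : 0 ≤ y / n := div_nonneg hy hn.le
  have h3 : Real.log (1 - y / n) ≤ 0 := Real.log_nonpos (by linarith) (by linarith)
  linarith

/-- The line `θ ↦ θ S + (1 - θ) L z` and the critical inequality. -/
private theorem Mix_line {k Y r S z θ Λ y LY : ℝ} {L : ℝ → ℝ} (hk : 0 < k) (hY : Y ≤ k)
    (hL : ConvexOn ℝ (Set.Icc 0 Y) L) (hLY : LY = L Y)
    (hL0 : ∀ y ∈ Set.Icc 0 Y, 0 ≤ L y ∧ L y ≤ L Y) (hr : k * r ≤ Y) (hr1 : r < 1)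
    (hz0 : 0 ≤ z) (hz : z ≤ k * r) (hθ : 0 ≤ θ) (hθ1 : θ ≤ 1)
    (hcrit : (k - Y) * S ≤ k * (1 - r) * (S - LY)) (hS : LY ≤ S)
    (hy : y = θ * k + (1 - θ) * z) (hΛ1 : y ≤ Y → Λ ≤ L y) (hΛ2 : Λ ≤ LY) :
    Λ ≤ θ * S + (1 - θ) * L z := by
  have hzY : z ≤ Y := hz.trans hr
  have hY0 : 0 ≤ Y := hz0.trans hzY
  have hzm : z ∈ Set.Icc 0 Y := ⟨hz0, hzY⟩
  have hYm : Y ∈ Set.Icc 0 Y := ⟨hY0, le_refl Y⟩
  have hLz0 : 0 ≤ L z := (hL0 z hzm).1
  have hLY0 : 0 ≤ LY := by
    rw [hLY]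
    exact (hL0 Y hYm).1
  have hS0 : 0 ≤ S := hLY0.trans hS
  have hkz : 0 < k - z := by nlinarith
  -- the main scalar inequality
  have hmain : (k - z) * LY ≤ (Y - z) * S := by
    have h1 : (k * r - z) * LY ≤ (k * r - z) * S :=
      mul_le_mul_of_nonneg_left hS (by linarith)
    nlinarith [h1, hcrit]
  rcases le_or_gt y Y with hyY | hyY
  · have hΛ := hΛ1 hyY
    rcases eq_or_lt_of_le hzY with hzY' | hzY'
    · -- z = Y
      have h1 : LY ≤ θ * S + (1 - θ) * L z := by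
        rw [hzY', ← hLY]
        nlinarith [mul_le_mul_of_nonneg_left hS hθ]
      exact hΛ2.trans h1
    · have hd : 0 < Y - z := by linarith
      set s := θ * (k - z) / (Y - z) with hs
      have hs0 : 0 ≤ s := div_nonneg (mul_nonneg hθ hkz.le) hd.le
      have hsd : s * (Y - z) = θ * (k - z) := by
        rw [hs]
        field_simp
      have hs1 : s ≤ 1 := by
        rw [hs, div_le_one hd]
        nlinarith [hyY, hy]
      have hyc : (1 - s) • z + s • Y = y := by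
        simp only [smul_eq_mul]
        rw [hy]
        linarith [hsd]
      have hc := hL.2 hzm hYm (sub_nonneg.2 hs1) hs0 (by ring)
      rw [hyc] at hc
      simp only [smul_eq_mul] at hc
      rw [← hLY] at hc
      refine hΛ.trans (hc.trans ?_)
      -- `s (LY - L z) ≤ θ (S - L z)`
      have h2 : (k - z) * (LY - L z) ≤ (Y - z) * (S - L z) := by
        have h3 : 0 ≤ (k - Y) * L z := mul_nonneg (by linarith) hLz0
        nlinarith [hmain, h3]
      have h4 : s * (LY - L z) * (Y - z) ≤ θ * (S - L z) * (Y - z) := by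
        have h5 : s * (LY - L z) * (Y - z) = θ * ((k - z) * (LY - L z)) := by
          calc s * (LY - L z) * (Y - z) = (s * (Y - z)) * (LY - L z) := by ring
            _ = θ * ((k - z) * (LY - L z)) := by rw [hsd]; ring
        rw [h5]
        calc θ * ((k - z) * (LY - L z)) ≤ θ * ((Y - z) * (S - L z)) :=
              mul_le_mul_of_nonneg_left h2 hθ
          _ = θ * (S - L z) * (Y - z) := by ring
      have h6 : s * (LY - L z) ≤ θ * (S - L z) := le_of_mul_le_mul_right h4 hd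
      linarith [h6]
  · -- y > Y
    refine hΛ2.trans ?_
    have h1 : Y - z ≤ θ * (k - z) := by
      rw [hy] at hyY
      nlinarith [hyY]
    have h2 : (k - z) * LY ≤ (k - z) * (θ * S) := by
      calc (k - z) * LY ≤ (Y - z) * S := hmain
        _ ≤ θ * (k - z) * S := mul_le_mul_of_nonneg_right h1 hS0
        _ = (k - z) * (θ * S) := by ring
    have h3 : LY ≤ θ * S := le_of_mul_le_mul_left h2 hkz
    have h4 : 0 ≤ (1 - θ) * L z := mul_nonneg (by linarith) hLz0
    linarith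

/-- Mixture of pure types (`i ∉ F`) and full vertices (`i ∈ F`, `ρ = 1`).  `L` is convex and
nonnegative on `[0, Y]`, `S = p + k σ` where `σ` is a lower bound of the gain of a full vertex.

Proof. `F = ∅`: Jensen.  `F = univ`: `∑ h ≥ k σ`, `S ≥ L Y`.  Otherwise `θ = #F / k`,
`z = k * (mean of ρ over the complement of F) ≤ k r ≤ Y`, by Jensen
`p + ∑ h ≥ θ S + (1 - θ) L z`, `y = ∑ ρ = θ k + (1 - θ) z`.  The line `θ ↦ θ S + (1 - θ) L z`
(as function of `y`) is at least `L Y` at `y = Y` by `hcrit`, hence at least `L y` for `y ≤ Y`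
(convexity on `[z, Y]`) and at least `L Y` for `y ≥ Y` (it is increasing). -/
theorem mix_full {k : ℕ} (hk : 1 ≤ k) {L : ℝ → ℝ} {Y r p σ Λ : ℝ} {ρ h : Fin k → ℝ}
    (F : Finset (Fin k)) (hY : Y ≤ k) (hL : ConvexOn ℝ (Set.Icc 0 Y) L)
    (hL0 : ∀ y ∈ Set.Icc 0 Y, 0 ≤ L y ∧ L y ≤ L Y)
    (hr : k * r ≤ Y) (hr1 : r < 1)
    (hF : ∀ i ∈ F, ρ i = 1 ∧ σ ≤ h i)
    (hnF : ∀ i ∉ F, 0 ≤ ρ i ∧ ρ i ≤ r ∧ L (k * ρ i) ≤ p + k * h i)
    (hcrit : (k - Y) * (p + k * σ) ≤ k * (1 - r) * (p + k * σ - L Y))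
    (hS : L Y ≤ p + k * σ)
    (hΛ1 : ∑ i, ρ i ≤ Y → Λ ≤ L (∑ i, ρ i)) (hΛ2 : Λ ≤ L Y) :
    Λ ≤ p + ∑ i, h i := by
  have hk0 : (0 : ℝ) < k := by exact_mod_cast hk
  have hsumF : (F.card : ℝ) * σ ≤ ∑ i ∈ F, h i := by
    have h1 : ∑ _i ∈ F, σ ≤ ∑ i ∈ F, h i := Finset.sum_le_sum fun i hi => (hF i hi).2
    simpa using h1
  have hsumρF : ∑ i ∈ F, ρ i = (F.card : ℝ) := by
    rw [Finset.sum_congr rfl fun i hi => (hF i hi).1]
    simp
  have hsplit : ∀ f : Fin k → ℝ, ∑ i, f i = ∑ i ∈ F, f i + ∑ i ∈ Fᶜ, f i := fun f =>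
    (Finset.sum_add_sum_compl F f).symm
  have hcardN : F.card + Fᶜ.card = k := by
    rw [Finset.card_add_card_compl]
    simp
  have hcard : (F.card : ℝ) + (Fᶜ.card : ℝ) = k := by exact_mod_cast hcardN
  rcases Nat.eq_zero_or_pos Fᶜ.card with hc0 | hc0
  · -- `F = univ`
    have hemp : Fᶜ = ∅ := Finset.card_eq_zero.1 hc0
    rw [hc0] at hcard
    have hFk : (F.card : ℝ) = k := by simpa using hcard
    rw [hsplit h, hemp]
    simp only [Finset.sum_empty, add_zero]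
    rw [hFk] at hsumF
    linarith
  · have hc : (0 : ℝ) < (Fᶜ.card : ℝ) := by exact_mod_cast hc0
    set c : ℝ := (Fᶜ.card : ℝ) with hcdef
    set m : ℝ := (F.card : ℝ) with hmdef
    have hm0 : 0 ≤ m := by
      rw [hmdef]
      positivity
    have hmem : ∀ i ∈ Fᶜ, 0 ≤ ρ i ∧ ρ i ≤ r ∧ L (k * ρ i) ≤ p + k * h i := fun i hi =>
      hnF i (Finset.mem_compl.1 hi)
    set R : ℝ := ∑ i ∈ Fᶜ, ρ i with hR
    have hR0 : 0 ≤ R := Finset.sum_nonneg fun i hi => (hmem i hi).1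
    have hRr : R ≤ c * r := by
      have h1 : ∑ i ∈ Fᶜ, ρ i ≤ ∑ _i ∈ Fᶜ, r := Finset.sum_le_sum fun i hi => (hmem i hi).2.1
      simpa [hcdef] using h1
    set z : ℝ := k * R / c with hzdef
    have hzc : z * c = k * R := by
      rw [hzdef]
      field_simp
    have hz0 : 0 ≤ z := div_nonneg (mul_nonneg hk0.le hR0) hc.le
    have hzr : z ≤ k * r := by
      rw [hzdef, div_le_iff₀ hc]
      calc (k : ℝ) * R ≤ k * (c * r) := mul_le_mul_of_nonneg_left hRr hk0.le
        _ = k * r * c := by ring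
    -- Jensen
    have hJ : L z ≤ ∑ i ∈ Fᶜ, (1 / c) * L (k * ρ i) := by
      have h1 := hL.map_sum_le (t := Fᶜ) (w := fun _ => 1 / c) (p := fun i => k * ρ i)
        (fun i _ => by positivity)
        (by
          rw [Finset.sum_const, nsmul_eq_mul, ← hcdef]
          field_simp)
        (fun i hi => by
          refine ⟨mul_nonneg hk0.le (hmem i hi).1, ?_⟩
          exact (mul_le_mul_of_nonneg_left (hmem i hi).2.1 hk0.le).trans hr)
      simp only [smul_eq_mul] at h1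
      have h2 : ∑ i ∈ Fᶜ, 1 / c * (k * ρ i) = z := by
        rw [hzdef, hR, ← Finset.mul_sum, ← Finset.mul_sum]
        field_simp
      rw [h2] at h1
      exact h1
    have hJ2 : c * L z ≤ c * p + k * ∑ i ∈ Fᶜ, h i := by
      have h1 : ∑ i ∈ Fᶜ, (1 / c) * L (k * ρ i) ≤ ∑ i ∈ Fᶜ, (1 / c) * (p + k * h i) :=
        Finset.sum_le_sum fun i hi =>
          mul_le_mul_of_nonneg_left (hmem i hi).2.2 (by positivity)
      have h2 : ∑ i ∈ Fᶜ, (1 / c) * (p + k * h i) = (1 / c) * (c * p + k * ∑ i ∈ Fᶜ, h i) := by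
        rw [← Finset.mul_sum, Finset.sum_add_distrib, Finset.sum_const, nsmul_eq_mul,
          ← Finset.mul_sum, ← hcdef]
      have h3 := hJ.trans (h1.trans h2.le)
      calc c * L z ≤ c * ((1 / c) * (c * p + k * ∑ i ∈ Fᶜ, h i)) :=
            mul_le_mul_of_nonneg_left h3 hc.le
        _ = c * p + k * ∑ i ∈ Fᶜ, h i := by field_simp
    have hθ0 : 0 ≤ m / k := div_nonneg hm0 hk0.le
    have hθ1 : m / k ≤ 1 := by
      rw [div_le_one hk0]
      linarith
    have h1θ : 1 - m / k = c / k := by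
      field_simp
      linarith
    have hy : ∑ i, ρ i = m / k * k + (1 - m / k) * z := by
      rw [hsplit ρ, hsumρF, h1θ, ← hR]
      have e1 : m / k * k = m := by field_simp
      have e2 : c / k * z = R := by
        rw [hzdef]
        field_simp
      rw [e1, e2]
    have hfin := Mix_line (k := k) (Y := Y) (r := r) (S := p + k * σ) (z := z) (θ := m / k)
      (Λ := Λ) (y := ∑ i, ρ i) (LY := L Y) (L := L) hk0 hY hL rfl hL0 hr hr1 hz0 hzr hθ0 hθ1
      hcrit hS hy hΛ1 hΛ2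
    refine hfin.trans ?_
    rw [h1θ, hsplit h]
    have h5 : m / k * (p + k * σ) + c / k * L z ≤ p + (m * σ + ∑ i ∈ Fᶜ, h i) := by
      have h6 : k * (m / k * (p + k * σ) + c / k * L z) ≤ k * (p + (m * σ + ∑ i ∈ Fᶜ, h i)) := by
        have e3 : k * (m / k * (p + k * σ) + c / k * L z) = m * (p + k * σ) + c * L z := by
          field_simp
        rw [e3]
        have e4 : (k : ℝ) * p = m * p + c * p := by
          rw [← hcard]
          ring
        nlinarith [hJ2, e4]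
      exact le_of_mul_le_mul_left h6 hk0
    linarith

end MP_a3e05c_co.KL
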