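import Pool.Agent.Lib.MP_a3e05c_co.S1.RK
import Pool.Agent.Lib.MP_a3e05c_co.S1.Mix2
import Pool.Agent.Lib.MP_a3e05c_co.S1.Hs

/-!
# EULER, scalar block S1: full neighbours, the criterion
-/

open Finset

namespace MP_a3e05c_co.KL

/-- the hypotheses `hS`, `hcrit` of `mix_full2` for `L = G_(d-1)`, `Y = YY d k`, `r = rk k`,
`p = p_(d-1)(k)` -/
def Crit (d k : ℕ) (σ : ℝ) : Prop :=
  GG ((d : ℝ) - 1) (YY d k) ≤ pp ((d : ℝ) - 1) k + k * σ ∧
    ∀ z ∈ Set.Icc (0 : ℝ) (k * rk k),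
      (k - YY d k) * (pp ((d : ℝ) - 1) k + k * σ - GG ((d : ℝ) - 1) z) ≤
        (k - z) * (pp ((d : ℝ) - 1) k + k * σ - GG ((d : ℝ) - 1) (YY d k))

/-- simple form of the criterion, without `p` and `G z` -/
def Simp (d k : ℕ) (σ : ℝ) : Prop :=
  (k - YY d k) * (k * σ) ≤ k * (1 - rk k) * (k * σ - GG ((d : ℝ) - 1) (YY d k))

private theorem N2A_real {k : ℕ} (hk2 : 2 ≤ k) : (0 : ℝ) < k * (1 - rk k) := by
  have h1 := rk_lt_half k
  have h2 : (2 : ℝ) ≤ k := by exact_mod_cast hk2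
  exact mul_pos (by linarith) (by linarith)

private theorem N2A_cast {d k : ℕ} (hk : k < d) : (k : ℝ) ≤ (d : ℝ) - 1 := by
  have h1 : (k : ℝ) + 1 ≤ d := by exact_mod_cast hk
  linarith

/-- tangent line of the convex function `G` -/
private theorem N2A_tangent {s z z0 : ℝ} (hs : 0 < s) (hz : z < s) (hz0 : z0 < s) :
    GG s z0 - (z0 - z) / (2 * (s - z0)) ≤ GG s z := by
  unfold GG
  have h1 : z / s < 1 := (div_lt_one hs).2 hz
  have h2 : z0 / s < 1 := (div_lt_one hs).2 hz0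
  have h3 : 0 < 1 - z / s := by linarith
  have h4 : 0 < 1 - z0 / s := by linarith
  have h5 : 0 < s - z0 := by linarith
  have h6 := Real.log_le_sub_one_of_pos (div_pos h3 h4)
  rw [Real.log_div h3.ne' h4.ne'] at h6
  have h7 : (1 - z / s) / (1 - z0 / s) - 1 = 2 * ((z0 - z) / (2 * (s - z0))) := by
    have h8 : (1 - z / s) / (1 - z0 / s) = (s - z) / (s - z0) := by
      have h9 : 1 - z / s = (s - z) / s := by
        rw [sub_div, div_self hs.ne']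
      have h10 : 1 - z0 / s = (s - z0) / s := by
        rw [sub_div, div_self hs.ne']
      rw [h9, h10, div_div_div_cancel_right₀ hs.ne']
    rw [h8]
    field_simp
    ring
  rw [h7] at h6
  linarith

/-- the difference of the two sides is linear in `S` with slope `Y - z ≥ 0`; `G z ≥ 0`,
`k - z ≥ k (1 - r)` -/
theorem crit_of_simp {d k : ℕ} (hd : Even d) (hk2 : 2 ≤ k) (hk : k < d) {σ : ℝ} (hσ : 0 ≤ σ)
    (h : Simp d k σ) : Crit d k σ := by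
  unfold Simp at h
  have hkd : (k : ℝ) ≤ (d : ℝ) - 1 := N2A_cast hk
  have hk0 : (2 : ℝ) ≤ k := by exact_mod_cast hk2
  have hp : 0 ≤ pp ((d : ℝ) - 1) k := pp_nonneg hkd
  have hY := YY_le (d := d) (k := k) (by omega) hk
  have hY0 := YY_nonneg (d := d) (k := k) (by omega)
  have hrY := k_rk_le_YY hd hk2 hk
  have hr := N2A_real hk2
  have hkσ : 0 ≤ (k : ℝ) * σ := mul_nonneg (by linarith) hσ
  have hS : 0 ≤ (k : ℝ) * σ - GG ((d : ℝ) - 1) (YY d k) := by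
    have h1 : 0 ≤ (k - YY d k) * (k * σ) := mul_nonneg (by linarith [hY.1]) hkσ
    by_contra hn
    push Not at hn
    have h2 := mul_neg_of_pos_of_neg hr hn
    linarith
  refine ⟨by linarith, fun z hz => ?_⟩
  have hz1 : z ≤ YY d k := hz.2.trans hrY
  have hG : 0 ≤ GG ((d : ℝ) - 1) z := GG_nonneg (by linarith) hz.1 (by linarith [hY.2])
  have h1 : 0 ≤ (YY d k - z) * pp ((d : ℝ) - 1) k := mul_nonneg (by linarith) hp
  have h2 : 0 ≤ (k - YY d k) * GG ((d : ℝ) - 1) z := mul_nonneg (by linarith [hY.1]) hG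
  have h3 : 0 ≤ ((k : ℝ) * rk k - z) * (k * σ - GG ((d : ℝ) - 1) (YY d k)) :=
    mul_nonneg (by linarith [hz.2]) hS
  nlinarith [h, h1, h2, h3]

/-- both `YY`-terms decrease when `d` increases: `k - YY d k` and
`GG (d-1) (YY d k) = (1/2) log (1 + 4K / (2d + 1 - 4K))`, `K = k / 2` -/
theorem simp_mono {d d₀ k : ℕ} (h : d₀ ≤ d) (hk2 : 2 ≤ k) (hk : k < d₀) {σ : ℝ} (hσ : 0 ≤ σ)
    (h0 : Simp d₀ k σ) : Simp d k σ := by
  unfold Simp at h0 ⊢
  have hk0 : (2 : ℝ) ≤ k := by exact_mod_cast hk2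
  have hr := N2A_real hk2
  have hkσ : 0 ≤ (k : ℝ) * σ := mul_nonneg (by linarith) hσ
  have hd : (d₀ : ℝ) ≤ d := by exact_mod_cast h
  have hkd : (k : ℝ) ≤ (d₀ : ℝ) - 1 := N2A_cast hk
  have hK : 2 * ((k / 2 : ℕ) : ℝ) ≤ k := by
    have h2 : 2 * (k / 2) ≤ k := Nat.mul_div_le k 2
    exact_mod_cast h2
  have hK0 : (0 : ℝ) ≤ ((k / 2 : ℕ) : ℝ) := Nat.cast_nonneg _
  have hY : YY d₀ k ≤ YY d k := by
    unfold YY
    rw [div_le_div_iff₀ (by linarith) (by linarith)]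
    have h1 : ((d₀ : ℝ) - 1) * (2 * d + 1) ≤ ((d : ℝ) - 1) * (2 * d₀ + 1) := by nlinarith
    have h2 := mul_le_mul_of_nonneg_left h1 (by linarith : (0 : ℝ) ≤ 4 * ((k / 2 : ℕ) : ℝ))
    calc 4 * ((k / 2 : ℕ) : ℝ) * ((d₀ : ℝ) - 1) * (2 * d + 1) =
        4 * ((k / 2 : ℕ) : ℝ) * (((d₀ : ℝ) - 1) * (2 * d + 1)) := by ring
      _ ≤ 4 * ((k / 2 : ℕ) : ℝ) * (((d : ℝ) - 1) * (2 * d₀ + 1)) := h2
      _ = 4 * ((k / 2 : ℕ) : ℝ) * ((d : ℝ) - 1) * (2 * d₀ + 1) := by ring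
  have hG : GG ((d : ℝ) - 1) (YY d k) ≤ GG ((d₀ : ℝ) - 1) (YY d₀ k) := by
    rw [GG_YY (by omega) (by omega), GG_YY hk (by omega)]
    have h1 : 0 < 2 * (d : ℝ) + 1 - 4 * ((k / 2 : ℕ) : ℝ) := by linarith
    have h2 : 0 < 2 * (d₀ : ℝ) + 1 - 4 * ((k / 2 : ℕ) : ℝ) := by linarith
    refine mul_le_mul_of_nonneg_left (Real.log_le_log (div_pos (by linarith) h1) ?_) (by norm_num)
    rw [div_le_div_iff₀ h1 h2]
    have h3 := mul_le_mul_of_nonneg_left hd hK0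
    nlinarith [h3]
  have h1 : (k - YY d k) * (k * σ) ≤ (k - YY d₀ k) * (k * σ) :=
    mul_le_mul_of_nonneg_right (by linarith) hkσ
  have h2 : k * (1 - rk k) * (k * σ - GG ((d₀ : ℝ) - 1) (YY d₀ k)) ≤
      k * (1 - rk k) * (k * σ - GG ((d : ℝ) - 1) (YY d k)) :=
    mul_le_mul_of_nonneg_left (by linarith) hr.le
  linarith

/-- the two conditions say that the derivative at `z = k r` is `≤ 0` and that the inequality
holds at `z = k r`; the difference of the two sides is convex in `z` -/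
theorem crit_of_end {d k : ℕ} (hd : Even d) (hk2 : 2 ≤ k) (hk : k < d) {σ P : ℝ} (hσ : 0 ≤ σ)
    (hP : P ≤ pp ((d : ℝ) - 1) k)
    (h1 : (k - YY d k) / (2 * ((d : ℝ) - 1 - k * rk k)) ≤
      P + k * σ - GG ((d : ℝ) - 1) (YY d k))
    (h2 : (k - YY d k) * (P + k * σ - GG ((d : ℝ) - 1) (k * rk k)) ≤
      k * (1 - rk k) * (P + k * σ - GG ((d : ℝ) - 1) (YY d k))) : Crit d k σ := by
  have hkd : (k : ℝ) ≤ (d : ℝ) - 1 := N2A_cast hk
  have hk0 : (2 : ℝ) ≤ k := by exact_mod_cast hk2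
  have hY := YY_le (d := d) (k := k) (by omega) hk
  have hrY := k_rk_le_YY hd hk2 hk
  have hs : (0 : ℝ) < (d : ℝ) - 1 := by linarith
  have hz0 : (k : ℝ) * rk k < (d : ℝ) - 1 := lt_of_le_of_lt hrY hY.2
  have h3 : 0 ≤ (k - YY d k) / (2 * ((d : ℝ) - 1 - k * rk k)) :=
    div_nonneg (by linarith [hY.1]) (by linarith)
  refine ⟨by linarith, fun z hz => ?_⟩
  have hz1 : z ≤ YY d k := hz.2.trans hrY
  have hT := N2A_tangent hs (lt_of_le_of_lt hz1 hY.2) hz0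
  have e1 : (k - YY d k) * ((k * rk k - z) / (2 * ((d : ℝ) - 1 - k * rk k))) =
      (k * rk k - z) * ((k - YY d k) / (2 * ((d : ℝ) - 1 - k * rk k))) := by ring
  have h4 : (k - YY d k) * (GG ((d : ℝ) - 1) (k * rk k) -
      (k * rk k - z) / (2 * ((d : ℝ) - 1 - k * rk k))) ≤ (k - YY d k) * GG ((d : ℝ) - 1) z :=
    mul_le_mul_of_nonneg_left hT (by linarith [hY.1])
  have h5 : (k * rk k - z) * ((k - YY d k) / (2 * ((d : ℝ) - 1 - k * rk k))) ≤
      (k * rk k - z) * (P + k * σ - GG ((d : ℝ) - 1) (YY d k)) :=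
    mul_le_mul_of_nonneg_left h1 (by linarith [hz.2])
  have h6 : 0 ≤ (YY d k - z) * (pp ((d : ℝ) - 1) k - P) :=
    mul_nonneg (by linarith) (by linarith)
  rw [mul_sub, e1] at h4
  nlinarith [h2, h4, h5, h6]

end MP_a3e05c_co.KL
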