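import Pool.Agent.Lib.MP_a3e05c_co.S1.Basic
import Pool.Agent.Lib.MP_a3e05c_co.S1.Rat

/-!
# EULER, scalar block S1: increase of the slack with the degree of the neighbours
-/

open Finset

namespace MP_a3e05c_co.KL

private theorem TPlus_log_le {A B : ℝ} (hA : 0 < A) (hB : 0 < B) :
    Real.log A - Real.log B ≤ (A - B) / B := by
  have h := Real.log_le_sub_one_of_pos (div_pos hA hB)
  rw [Real.log_div hA.ne' hB.ne'] at h
  have h1 : (A - B) / B = A / B - 1 := by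
    field_simp
  rw [h1]
  exact h

private theorem TPlus_log_ge {A B : ℝ} (hA : 0 < A) (hB : 0 < B) :
    (A - B) / A ≤ Real.log A - Real.log B := by
  have h := TPlus_log_le hB hA
  have h1 : (B - A) / A = -((A - B) / A) := by ring
  rw [h1] at h
  linarith

/-- `Z_k` -/
private noncomputable def TPlus_Z (m k : ℝ) : ℝ := k * (k - 1) / (m * (m + 2) * (m + 4 - k))

private theorem TPlus_Z_pos {m k : ℝ} (hk : 1 ≤ k) (hkm : k ≤ m) : 0 < 1 - TPlus_Z m k := by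
  unfold TPlus_Z
  have h1 : 0 < m * (m + 2) * (m + 4 - k) := by
    apply mul_pos
    · apply mul_pos <;> linarith
    · linarith
  have h2 : k * (k - 1) / (m * (m + 2) * (m + 4 - k)) < 1 := by
    rw [div_lt_one h1]
    have h3 : m * (m + 2) * 4 ≤ m * (m + 2) * (m + 4 - k) := by
      apply mul_le_mul_of_nonneg_left
      · linarith
      · apply mul_nonneg <;> linarith
    nlinarith
  linarith

private theorem TPlus_GG {m k : ℕ} (hk : 1 ≤ k) (hkm : k ≤ m) :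
    GG m (k * rr ((m : ℝ) + 2) k) = -(1 / 2) * Real.log (1 - TPlus_Z m k) := by
  unfold GG rr TPlus_Z
  have hm : (1 : ℝ) ≤ m := by exact_mod_cast hk.trans hkm
  have hkm' : (k : ℝ) ≤ m := by exact_mod_cast hkm
  have h1 : (m : ℝ) + 2 + 2 - k ≠ 0 := by linarith
  have h2 : (m : ℝ) + 4 - k ≠ 0 := by linarith
  congr 3
  have h3 : (m : ℝ) + 2 + 2 - k = m + 4 - k := by ring
  rw [h3]
  field_simp

private theorem TPlus_main (m : ℕ) (k : ℕ) (hk : 1 ≤ k) : k ≤ m →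
    ((k : ℝ) + 1) * (GG m (k * rr ((m : ℝ) + 2) k) - gg ((m : ℝ) + 2) k) ≤
      ∑ i ∈ range (k + 1), (gg m i - gg ((m : ℝ) + 2) i) := by
  induction k, hk using Nat.le_induction with
  | base =>
    intro hm
    have hm' : (1 : ℝ) ≤ m := by exact_mod_cast hm
    rw [sum_range_succ, sum_range_one, gg_zero, gg_zero, gg_one, gg_one]
    have h1 : GG (m : ℝ) (((1 : ℕ) : ℝ) * rr ((m : ℝ) + 2) 1) = 0 := by
      unfold GG rr
      simp
    rw [h1]
    simp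
  | succ k hk ih =>
    intro hkm
    have h1 := ih (by omega)
    rw [sum_range_succ]
    rw [TPlus_GG (by omega) hkm]
    rw [TPlus_GG hk (by omega)] at h1
    have hk' : (1 : ℝ) ≤ k := by exact_mod_cast hk
    have hkm' : (k : ℝ) + 1 ≤ m := by exact_mod_cast hkm
    have hX := one_sub_xx_pos (s := (m : ℝ) + 2) (i := k + 1) (by omega) (by push_cast; linarith)
    have hX' := one_sub_xx_pos (s := (m : ℝ) + 2) (i := k) hk (by linarith)
    have hx := one_sub_xx_pos (s := (m : ℝ)) (i := k + 1) (by omega) (by push_cast; linarith)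
    have hZ := TPlus_Z_pos (m := (m : ℝ)) (k := (k : ℝ) + 1) (by linarith) (by linarith)
    have hZ' := TPlus_Z_pos (m := (m : ℝ)) (k := (k : ℝ)) (by linarith) (by linarith)
    have a1 := TPlus_log_le hX hZ
    have a2 := TPlus_log_ge hX' hZ'
    have a3 := TPlus_log_ge hX hx
    have a4 := T_step (m := (m : ℝ)) (k := (k : ℝ) + 1) (by linarith) (by linarith)
    have eX : xx ((m : ℝ) + 2) (k + 1) = ((k : ℝ) + 1) * ((k : ℝ) + 1 - 1) /
        (((m : ℝ) + 2) ^ 2 * ((m : ℝ) + 4 - ((k : ℝ) + 1))) := by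
      unfold xx
      push_cast
      congr 2
      ring
    have eX' : xx ((m : ℝ) + 2) k = ((k : ℝ) + 1 - 1) * ((k : ℝ) + 1 - 2) /
        (((m : ℝ) + 2) ^ 2 * ((m : ℝ) + 5 - ((k : ℝ) + 1))) := by
      unfold xx
      congr 1
      · ring
      · ring
    have ex : xx (m : ℝ) (k + 1) = ((k : ℝ) + 1) * ((k : ℝ) + 1 - 1) /
        ((m : ℝ) ^ 2 * ((m : ℝ) + 2 - ((k : ℝ) + 1))) := by
      unfold xx
      push_cast
      rfl
    have eZ : TPlus_Z (m : ℝ) ((k : ℝ) + 1) = ((k : ℝ) + 1) * ((k : ℝ) + 1 - 1) /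
        ((m : ℝ) * ((m : ℝ) + 2) * ((m : ℝ) + 4 - ((k : ℝ) + 1))) := rfl
    have eZ' : TPlus_Z (m : ℝ) (k : ℝ) = ((k : ℝ) + 1 - 1) * ((k : ℝ) + 1 - 2) /
        ((m : ℝ) * ((m : ℝ) + 2) * ((m : ℝ) + 5 - ((k : ℝ) + 1))) := by
      unfold TPlus_Z
      congr 1
      · ring
      · ring
    rw [← eX, ← eX', ← ex, ← eZ, ← eZ'] at a4
    have b1 : 1 - xx ((m : ℝ) + 2) (k + 1) - (1 - TPlus_Z (m : ℝ) ((k : ℝ) + 1)) =
        TPlus_Z (m : ℝ) ((k : ℝ) + 1) - xx ((m : ℝ) + 2) (k + 1) := by ring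
    have b2 : 1 - xx ((m : ℝ) + 2) k - (1 - TPlus_Z (m : ℝ) (k : ℝ)) =
        TPlus_Z (m : ℝ) (k : ℝ) - xx ((m : ℝ) + 2) k := by ring
    have b3 : 1 - xx ((m : ℝ) + 2) (k + 1) - (1 - xx (m : ℝ) (k + 1)) =
        xx (m : ℝ) (k + 1) - xx ((m : ℝ) + 2) (k + 1) := by ring
    rw [b1] at a1
    rw [b2] at a2
    rw [b3] at a3
    unfold gg at h1 ⊢
    push_cast at h1 ⊢
    set lX := Real.log (1 - xx ((m : ℝ) + 2) (k + 1)) with hlX
    set lX' := Real.log (1 - xx ((m : ℝ) + 2) k) with hlX'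
    set lx := Real.log (1 - xx (m : ℝ) (k + 1)) with hlx
    set lZ := Real.log (1 - TPlus_Z (m : ℝ) ((k : ℝ) + 1)) with hlZ
    set lZ' := Real.log (1 - TPlus_Z (m : ℝ) (k : ℝ)) with hlZ'
    have c1 := mul_le_mul_of_nonneg_left a1 (show (0 : ℝ) ≤ (k : ℝ) + 1 + 1 by linarith)
    have c2 := mul_le_mul_of_nonneg_left a2 (show (0 : ℝ) ≤ (k : ℝ) + 1 by linarith)
    nlinarith [c1, c2, a3, a4, h1]

/-- With `X_k = x^(m+2)_k`, `Z_k = X_k (m+2) / m`, `x_k = x^m_k`: the claim is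
`(k + 1) a_k ≤ ∑_{i ≤ k} b_i`, `a_k = (1/2) log ((1 - X_k) / (1 - Z_k))`,
`b_k = (1/2) log ((1 - X_k) / (1 - x_k))`.  Induction on `k`:
`(k + 1) a_k - k a_(k-1) ≤ b_k` by `T_step` and `(A - B) / A ≤ log (A / B) ≤ (A - B) / B`. -/
theorem tplus {m k : ℕ} (hk : 1 ≤ k) (hkm : k ≤ m) :
    GG m (k * rr ((m : ℝ) + 2) k) - gg ((m : ℝ) + 2) k ≤ pp m k - pp ((m : ℝ) + 2) k := by
  have h := TPlus_main m k hk hkm
  have hk0 : (0 : ℝ) < (k : ℝ) + 1 := by positivity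
  unfold pp
  rw [← sub_div, le_div_iff₀ hk0, ← sum_sub_distrib]
  linarith

end MP_a3e05c_co.KL
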