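import Pool.Agent.Lib.MP_a3e05c_co.S1.Same
import Pool.Agent.Lib.MP_a3e05c_co.S1.MStar
import Pool.Agent.Lib.MP_a3e05c_co.S1.TPlus

/-!
# EULER, scalar block S1: pure types, all degrees
-/

open Finset

namespace MP_a3e05c_co.KL

private theorem Pure_hasDerivAt_GG {n k t : ℝ} (hk : 0 < k) (hn : 0 < n) (ht : 0 < n - k * t) :
    HasDerivAt (fun t : ℝ => 1 / k * GG n (k * t)) (1 / (2 * (n - k * t))) t := by
  have h1 : HasDerivAt (fun t : ℝ => 1 - k * t / n) (-(k / n)) t := by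
    have h2 : HasDerivAt (fun t : ℝ => k * t / n) (k / n) t := by
      have h3 := ((hasDerivAt_id t).const_mul k).div_const n
      simpa using h3
    simpa using h2.const_sub 1
  have h4 : 0 < 1 - k * t / n := by
    have : 1 - k * t / n = (n - k * t) / n := by
      field_simp
    rw [this]
    exact div_pos ht hn
  have h5 := (h1.log h4.ne').const_mul (-(1 / 2) : ℝ)
  have h6 := h5.const_mul (1 / k)
  unfold GG
  have e : 1 / (2 * (n - k * t)) = 1 / k * (-(1 / 2) * (-(k / n) / (1 - k * t / n))) := by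
    have e1 : 1 - k * t / n = (n - k * t) / n := by
      field_simp
    rw [e1]
    have h7 := ht.ne'
    field_simp
  rw [e]
  exact h6

/-- `(1/k) (G_n(k b) - G_n(k a)) = (1/2) ∫_a^b dρ / (n - k ρ)` increases with `k` and decreases
with `n`. -/
theorem GG_scale {n m j k a b : ℝ} (hj : 0 < j) (hjk : j ≤ k) (hn : 0 < n) (hnm : n ≤ m)
    (ha : 0 ≤ a) (hab : a ≤ b) (hb : k * b < n) :
    1 / j * (GG m (j * b) - GG m (j * a)) ≤ 1 / k * (GG n (k * b) - GG n (k * a)) := by
  have hk : 0 < k := hj.trans_le hjk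
  have hm : 0 < m := hn.trans_le hnm
  have key : ∀ t ∈ Set.Icc a b, 0 < n - k * t ∧ n - k * t ≤ m - j * t := by
    intro t ht
    have h0 : 0 ≤ t := ha.trans ht.1
    have h1 : k * t ≤ k * b := mul_le_mul_of_nonneg_left ht.2 hk.le
    have h2 : j * t ≤ k * t := mul_le_mul_of_nonneg_right hjk h0
    exact ⟨by linarith, by linarith⟩
  have hder : ∀ t ∈ Set.Icc a b, HasDerivAt
      (fun t : ℝ => 1 / k * GG n (k * t) - 1 / j * GG m (j * t))
      (1 / (2 * (n - k * t)) - 1 / (2 * (m - j * t))) t := by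
    intro t ht
    obtain ⟨h1, h2⟩ := key t ht
    exact (Pure_hasDerivAt_GG hk hn h1).sub (Pure_hasDerivAt_GG hj hm (h1.trans_le h2))
  have hmono : MonotoneOn (fun t : ℝ => 1 / k * GG n (k * t) - 1 / j * GG m (j * t))
      (Set.Icc a b) := by
    apply monotoneOn_of_deriv_nonneg (convex_Icc a b)
    · intro t ht
      exact (hder t ht).continuousAt.continuousWithinAt
    · intro t ht
      exact (hder t (interior_subset ht)).differentiableAt.differentiableWithinAt
    · intro t ht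
      have ht' := interior_subset ht
      rw [(hder t ht').deriv]
      obtain ⟨h1, h2⟩ := key t ht'
      rw [sub_nonneg]
      apply one_div_le_one_div_of_le
      · linarith
      · linarith
  have h := hmono (Set.left_mem_Icc.2 hab) (Set.right_mem_Icc.2 hab) hab
  simp only at h
  rw [mul_sub, mul_sub]
  linarith

private theorem Pure_den_pos {s : ℝ} {j : ℕ} (h1 : 1 ≤ j) (hj : (j : ℝ) ≤ s) :
    0 < s * (s + 2 - j) := by
  have h1' : (1 : ℝ) ≤ j := by exact_mod_cast h1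
  apply mul_pos
  · linarith
  · linarith

theorem rr_lt_half {s : ℝ} {j : ℕ} (h1 : 1 ≤ j) (hj : (j : ℝ) ≤ s) : rr s j < 1 / 2 := by
  have h1' : (1 : ℝ) ≤ j := by exact_mod_cast h1
  unfold rr
  rw [div_lt_iff₀ (Pure_den_pos h1 hj)]
  nlinarith

theorem rr_nonneg {s : ℝ} {j : ℕ} (h1 : 1 ≤ j) (hj : (j : ℝ) ≤ s) : 0 ≤ rr s j := by
  have h1' : (1 : ℝ) ≤ j := by exact_mod_cast h1
  unfold rr
  exact div_nonneg (by linarith) (Pure_den_pos h1 hj).le

theorem rr_anti {s s' : ℝ} {j : ℕ} (h1 : 1 ≤ j) (hj : (j : ℝ) ≤ s) (hs : s ≤ s') :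
    rr s' j ≤ rr s j := by
  have h1' : (1 : ℝ) ≤ j := by exact_mod_cast h1
  unfold rr
  apply div_le_div_of_nonneg_left (by linarith) (Pure_den_pos h1 hj)
  apply mul_le_mul hs (by linarith) (by linarith) (by linarith)

/-- `mstar` and `GG_scale` (with `k ≤ n`, both in degree `n`) -/
theorem RR_down {n k j m : ℕ} (h1 : 1 ≤ j) (hjm : j ≤ m) (hjk : j ≤ k) (hk : k ≤ n)
    (hm : m + 2 ≤ n) : RR n k ((m : ℝ) + 2) j ≤ RR n k m j := by
  have hjm' : (j : ℝ) ≤ m := by exact_mod_cast hjm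
  have hj1 : (1 : ℝ) ≤ j := by exact_mod_cast h1
  have hjk' : (j : ℝ) ≤ k := by exact_mod_cast hjk
  have hk' : (k : ℝ) ≤ n := by exact_mod_cast hk
  have hm' : (m : ℝ) + 2 ≤ n := by exact_mod_cast hm
  have hk0 : (0 : ℝ) < k := by linarith
  have hn0 : (0 : ℝ) < n := by linarith
  have hms := mstar h1 hjm
  have ha : 0 ≤ rr ((m : ℝ) + 2) j := rr_nonneg h1 (by linarith)
  have hab : rr ((m : ℝ) + 2) j ≤ rr m j := rr_anti h1 hjm' (by linarith)
  have hb : rr (m : ℝ) j < 1 / 2 := rr_lt_half h1 hjm'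
  set A := rr ((m : ℝ) + 2) j with hA
  set B := rr (m : ℝ) j with hB
  have hsc := GG_scale (n := n) (m := n) (j := k) (k := n) (a := A) (b := B) hk0 hk' hn0 le_rfl
    ha hab (by nlinarith)
  have e1 : GG (n : ℝ) (n * B) = -(1 / 2) * Real.log (1 - B) := by
    unfold GG
    rw [mul_div_cancel_left₀ _ hn0.ne']
  have e2 : GG (n : ℝ) (n * A) = -(1 / 2) * Real.log (1 - A) := by
    unfold GG
    rw [mul_div_cancel_left₀ _ hn0.ne']
  rw [e1, e2] at hsc
  have hlog : 0 ≤ Real.log (1 - A) - Real.log (1 - B) := by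
    rw [sub_nonneg]
    apply Real.log_le_log
    · linarith
    · linarith
  have h2 : 1 / (n : ℝ) * (-(1 / 2) * Real.log (1 - B) - -(1 / 2) * Real.log (1 - A)) ≤
      1 / (2 * ((m : ℝ) + 2)) * (Real.log (1 - A) - Real.log (1 - B)) := by
    have e3 : 1 / (n : ℝ) * (-(1 / 2) * Real.log (1 - B) - -(1 / 2) * Real.log (1 - A)) =
        1 / (2 * (n : ℝ)) * (Real.log (1 - A) - Real.log (1 - B)) := by
      field_simp
      ring
    rw [e3]
    apply mul_le_mul_of_nonneg_right _ hlog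
    apply one_div_le_one_div_of_le
    · positivity
    · linarith
  have h3 : 1 / (k : ℝ) * (GG n (k * B) - GG n (k * A)) ≤ hp m j - hp ((m : ℝ) + 2) j :=
    hsc.trans (h2.trans hms)
  have h4 : GG n (k * B) - GG n (k * A) ≤ k * (hp m j - hp ((m : ℝ) + 2) j) := by
    have h5 := mul_le_mul_of_nonneg_left h3 hk0.le
    rwa [← mul_assoc, mul_one_div_cancel hk0.ne', one_mul] at h5
  unfold RR
  rw [← hA, ← hB]
  linarith

/-- `tplus` (for `k = j`), `hp_rec`, `GG_eq_gg` and `GG_scale` -/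
theorem RR_up {n k j m : ℕ} (h1 : 1 ≤ j) (hjk : j ≤ k) (hk : k ≤ n) (hm : n ≤ m) :
    RR n k m j ≤ RR n k ((m : ℝ) + 2) j := by
  have hj1 : (1 : ℝ) ≤ j := by exact_mod_cast h1
  have hjk' : (j : ℝ) ≤ k := by exact_mod_cast hjk
  have hk' : (k : ℝ) ≤ n := by exact_mod_cast hk
  have hm' : (n : ℝ) ≤ m := by exact_mod_cast hm
  have hj0 : (0 : ℝ) < j := by linarith
  have hk0 : (0 : ℝ) < k := by linarith
  have hn0 : (0 : ℝ) < n := by linarith
  have hm0 : (0 : ℝ) < m := by linarith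
  have hjm' : (j : ℝ) ≤ m := by linarith
  have htp := tplus (m := m) h1 (by omega : j ≤ m)
  have ha : 0 ≤ rr ((m : ℝ) + 2) j := rr_nonneg h1 (by linarith)
  have hab : rr ((m : ℝ) + 2) j ≤ rr m j := rr_anti h1 hjm' (by linarith)
  have hb : rr (m : ℝ) j < 1 / 2 := rr_lt_half h1 hjm'
  have hr1 := hp_rec (m : ℝ) h1
  have hr2 := hp_rec ((m : ℝ) + 2) h1
  have hg := GG_eq_gg hm0.ne' j
  set A := rr ((m : ℝ) + 2) j with hA
  set B := rr (m : ℝ) j with hB
  have hsc := GG_scale (n := n) (m := m) (j := j) (k := k) (a := A) (b := B) hj0 hjk' hn0 hm'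
    ha hab (by nlinarith)
  have h2 : (j : ℝ) * (hp m j - hp ((m : ℝ) + 2) j) ≤ GG m (j * B) - GG m (j * A) := by
    rw [mul_sub]
    linarith
  have h3 : hp m j - hp ((m : ℝ) + 2) j ≤ 1 / j * (GG m (j * B) - GG m (j * A)) := by
    have h5 := mul_le_mul_of_nonneg_left h2 (one_div_pos.2 hj0).le
    rwa [← mul_assoc, one_div_mul_cancel hj0.ne', one_mul] at h5
  have h4 : k * (hp m j - hp ((m : ℝ) + 2) j) ≤ GG n (k * B) - GG n (k * A) := by
    have h5 := mul_le_mul_of_nonneg_left (h3.trans hsc) hk0.le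
    rwa [← mul_assoc, mul_one_div_cancel hk0.ne', one_mul] at h5
  unfold RR
  rw [← hA, ← hB]
  linarith

theorem RR_ge_same {n n' k j : ℕ} (hpar : n % 2 = n' % 2) (h1 : 1 ≤ j) (hjk : j ≤ k) (hk : k ≤ n)
    (hj : j ≤ n') : RR n k n j ≤ RR n k n' j := by
  rcases le_total n n' with h | h
  · obtain ⟨i, rfl⟩ : ∃ i, n' = n + 2 * i := ⟨(n' - n) / 2, by omega⟩
    clear hj h hpar
    induction i with
    | zero => simp
    | succ i ih =>
      refine ih.trans ?_
      have h2 := RR_up (m := n + 2 * i) h1 hjk hk (by omega)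
      have e : ((n + 2 * (i + 1) : ℕ) : ℝ) = ((n + 2 * i : ℕ) : ℝ) + 2 := by
        push_cast
        ring
      rw [e]
      exact h2
  · have key : ∀ i : ℕ, n' + 2 * i ≤ n → RR n k ((n' + 2 * i : ℕ) : ℝ) j ≤ RR n k n' j := by
      intro i
      induction i with
      | zero =>
        intro _
        simp
      | succ i ih =>
        intro hi
        refine le_trans ?_ (ih (by omega))
        have h2 := RR_down (m := n' + 2 * i) h1 (by omega) hjk hk (by omega)
        have e : ((n' + 2 * (i + 1) : ℕ) : ℝ) = ((n' + 2 * i : ℕ) : ℝ) + 2 := by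
          push_cast
          ring
        rw [e]
        exact h2
    have h3 := key ((n - n') / 2) (by omega)
    have e : n' + 2 * ((n - n') / 2) = n := by omega
    rw [e] at h3
    exact h3

theorem RR_nonneg {n n' k j : ℕ} (hpar : n % 2 = n' % 2) (h1 : 1 ≤ j) (hjk : j ≤ k) (hk : k ≤ n)
    (hj : j ≤ n') : 0 ≤ RR n k n' j := by
  have hk' : (k : ℝ) ≤ n := by exact_mod_cast hk
  exact (RR_same h1 hjk hk').trans (RR_ge_same hpar h1 hjk hk hj)

end MP_a3e05c_co.KL
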