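import Pool.Agent.Lib.MP_a3e05c_co.S1.FMB

/-!
# EULER, scalar block S1: the largest `ρ` of a non-full neighbour
-/

open Finset

namespace MP_a3e05c_co.KL

/-- `(m - 1) / (2 m)`, `m` the largest odd number `≤ k` (for `k = 2`: `1 / 9`) -/
noncomputable def rk (k : ℕ) : ℝ :=
  if k = 2 then 1 / 9 else (((k - 1) / 2 : ℕ) : ℝ) / (2 * (((k - 1) / 2 : ℕ) : ℝ) + 1)

theorem rk_nonneg (k : ℕ) : 0 ≤ rk k := by
  unfold rk
  split_ifs
  · norm_num
  · positivity

theorem rk_lt_half (k : ℕ) : rk k < 1 / 2 := by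
  unfold rk
  split_ifs
  · norm_num
  · have h : (0 : ℝ) ≤ (((k - 1) / 2 : ℕ) : ℝ) := Nat.cast_nonneg _
    rw [div_lt_div_iff₀ (by linarith) (by norm_num)]
    linarith

/-- `s / (2 s + 1)` is increasing -/
private theorem RK_mono {s t : ℕ} (h : s ≤ t) :
    (s : ℝ) / (2 * s + 1) ≤ (t : ℝ) / (2 * t + 1) := by
  have h1 : (s : ℝ) ≤ t := by exact_mod_cast h
  have h2 : (0 : ℝ) ≤ s := Nat.cast_nonneg _
  have h3 : (0 : ℝ) ≤ t := Nat.cast_nonneg _
  rw [div_le_div_iff₀ (by linarith) (by linarith)]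
  nlinarith

private theorem RK_third {k : ℕ} (hk : 3 ≤ k) : (1 : ℝ) / 3 ≤ rk k := by
  unfold rk
  rw [if_neg (by omega)]
  have h := RK_mono (s := 1) (t := (k - 1) / 2) (by omega)
  norm_num at h
  norm_num
  exact h

/-- `D` is even: for odd `j` the smallest possible degree is `j + 1`, for even `j` it is `j + 2` -/
theorem rr_le_rk {D j k : ℕ} (hD : Even D) (h1 : 1 ≤ j) (hj : j < D) (hjk : j ≤ k) (hk : 2 ≤ k) :
    rr ((D : ℝ) - 1) j ≤ rk k := by
  obtain ⟨e, he⟩ := hD
  have hj1 : (1 : ℝ) ≤ j := by exact_mod_cast h1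
  have hjD : (j : ℝ) + 1 ≤ D := by exact_mod_cast hj
  have hrr : rr ((D : ℝ) - 1) j = ((j : ℝ) - 1) / (((D : ℝ) - 1) * ((D : ℝ) + 1 - j)) := by
    unfold rr
    congr 2
    ring
  rw [hrr]
  rcases Nat.even_or_odd j with hev | hodd
  · obtain ⟨i, hi⟩ := hev
    have hD2 : j + 2 ≤ D := by omega
    have hD2' : (j : ℝ) + 2 ≤ D := by exact_mod_cast hD2
    have hj2 : (2 : ℝ) ≤ j := by
      have : 2 ≤ j := by omega
      exact_mod_cast this
    have h3 : ((j : ℝ) - 1) / (((D : ℝ) - 1) * ((D : ℝ) + 1 - j)) ≤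
        ((j : ℝ) - 1) / (((j : ℝ) + 1) * 3) := by
      apply div_le_div_of_nonneg_left (by linarith) (by positivity)
      exact mul_le_mul (by linarith) (by linarith) (by norm_num) (by linarith)
    refine h3.trans ?_
    rcases Nat.lt_or_ge 2 k with hk3 | hk2
    · refine le_trans ?_ (RK_third hk3)
      rw [div_le_div_iff₀ (by positivity) (by norm_num)]
      nlinarith
    · have hjj : j = 2 := by omega
      have hkk : k = 2 := by omega
      subst hjj
      subst hkk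
      unfold rk
      norm_num
  · obtain ⟨i, hi⟩ := hodd
    have h3 : ((j : ℝ) - 1) / (((D : ℝ) - 1) * ((D : ℝ) + 1 - j)) ≤
        ((j : ℝ) - 1) / ((j : ℝ) * 2) := by
      apply div_le_div_of_nonneg_left (by linarith) (by positivity)
      exact mul_le_mul (by linarith) (by linarith) (by norm_num) (by linarith)
    refine h3.trans ?_
    have h4 : ((j : ℝ) - 1) / ((j : ℝ) * 2) = (i : ℝ) / (2 * i + 1) := by
      rw [hi]
      push_cast
      have h5 : (0 : ℝ) ≤ i := Nat.cast_nonneg _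
      rw [div_eq_div_iff (by positivity) (by positivity)]
      ring
    rw [h4]
    by_cases hk2 : k = 2
    · have hi0 : i = 0 := by omega
      rw [hi0]
      simpa using rk_nonneg k
    · unfold rk
      rw [if_neg hk2]
      exact RK_mono (by omega)

theorem k_rk_le_YY {d k : ℕ} (hd : Even d) (hk2 : 2 ≤ k) (hk : k < d) : k * rk k ≤ YY d k := by
  obtain ⟨e, he⟩ := hd
  have hd4 : (4 : ℝ) ≤ d := by
    have : 4 ≤ d := by omega
    exact_mod_cast this
  have hlow : ((k / 2 : ℕ) : ℝ) * (4 / 3) ≤ YY d k := by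
    unfold YY
    rw [le_div_iff₀ (by linarith)]
    have h5 : (0 : ℝ) ≤ ((k / 2 : ℕ) : ℝ) := Nat.cast_nonneg _
    nlinarith
  refine le_trans ?_ hlow
  by_cases h2 : k = 2
  · subst h2
    unfold rk
    norm_num
  · unfold rk
    rw [if_neg h2]
    obtain ⟨t, ht⟩ : ∃ t, (k - 1) / 2 = t := ⟨_, rfl⟩
    rw [ht]
    have h3 : (0 : ℝ) ≤ t := Nat.cast_nonneg _
    rcases Nat.even_or_odd k with hev | hodd
    · obtain ⟨i, hi⟩ := hev
      have hkt : k = 2 * t + 2 := by omega
      have hkh : k / 2 = t + 1 := by omega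
      rw [hkh, hkt]
      push_cast
      rw [mul_div_assoc', div_le_iff₀ (by positivity)]
      nlinarith
    · obtain ⟨i, hi⟩ := hodd
      have hkt : k = 2 * t + 1 := by omega
      have hkh : k / 2 = t := by omega
      rw [hkh, hkt]
      push_cast
      rw [mul_div_assoc', div_le_iff₀ (by positivity)]
      nlinarith

theorem YY_nonneg {d k : ℕ} (hd : 2 ≤ d) : 0 ≤ YY d k := by
  have hd' : (2 : ℝ) ≤ d := by exact_mod_cast hd
  unfold YY
  apply div_nonneg
  · apply mul_nonneg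
    · positivity
    · linarith
  · linarith

theorem YY_le {d k : ℕ} (hd : 2 ≤ d) (hk : k < d) : YY d k ≤ k ∧ YY d k < (d : ℝ) - 1 := by
  have hd' : (2 : ℝ) ≤ d := by exact_mod_cast hd
  have hk' : (k : ℝ) + 1 ≤ d := by exact_mod_cast hk
  have h0 : (0 : ℝ) ≤ ((k / 2 : ℕ) : ℝ) := Nat.cast_nonneg _
  have h1 : 2 * ((k / 2 : ℕ) : ℝ) ≤ k := by
    have : 2 * (k / 2) ≤ k := Nat.mul_div_le k 2
    exact_mod_cast this
  unfold YY
  constructor
  · rw [div_le_iff₀ (by linarith)]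
    nlinarith
  · rw [div_lt_iff₀ (by linarith)]
    nlinarith

end MP_a3e05c_co.KL
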