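import Pool.Agent.Lib.MP_a3e05c_co.S1.Basic

/-!
# EULER, scalar block S1: pure types of the same degree
-/

open Finset

namespace MP_a3e05c_co.KL

/-- slack of the pure type inequality: vertex of degree `n + 1` with `k` alive neighbours, all of
degree `s + 1` with `j` alive neighbours -/
noncomputable def RR (n : ℝ) (k : ℕ) (s : ℝ) (j : ℕ) : ℝ := pp n k + k * hp s j - GG n (k * rr s j)

private theorem Same_rr_nonneg {s : ℝ} {j : ℕ} (h1 : 1 ≤ j) (hs : (j : ℝ) ≤ s) : 0 ≤ rr s j := by
  have hj : (1 : ℝ) ≤ j := by exact_mod_cast h1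
  unfold rr
  apply div_nonneg
  · linarith
  · apply mul_nonneg <;> linarith

/-- `(k + 1) ρ_j ≤ s / a` with `a = s + 2 - j` -/
private theorem Same_rr_mul {s : ℝ} {k j : ℕ} (h1 : 1 ≤ j) (hjk : j ≤ k) (hk : (k : ℝ) + 1 ≤ s) :
    ((k : ℝ) + 1) * rr s j ≤ s / (s + 2 - j) := by
  have hj : (1 : ℝ) ≤ j := by exact_mod_cast h1
  have hjk' : (j : ℝ) ≤ k := by exact_mod_cast hjk
  have hs : 0 < s := by linarith
  have ha : 0 < s + 2 - (j : ℝ) := by linarith
  have h2 : ((k : ℝ) + 1) * rr s j ≤ s * rr s j :=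
    mul_le_mul_of_nonneg_right hk (Same_rr_nonneg h1 (by linarith))
  refine h2.trans ?_
  have h3 : s * rr s j = ((j : ℝ) - 1) / (s + 2 - j) := by
    unfold rr
    field_simp
  rw [h3]
  apply div_le_div_of_nonneg_right _ ha.le
  linarith

/-- the last increment: `R_{k+1} ≥ R_k + h_{k+1} + h_j - ρ_j / (2 (s - (k + 1) ρ_j))` -/
private theorem Same_succ {s : ℝ} {k j : ℕ} (h1 : 1 ≤ j) (hjk : j ≤ k) (hk : (k : ℝ) + 1 ≤ s) :
    RR s k s j + (hp s (k + 1) + hp s j - rr s j / (2 * (s - ((k : ℝ) + 1) * rr s j))) ≤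
      RR s (k + 1) s j := by
  have hj : (1 : ℝ) ≤ j := by exact_mod_cast h1
  have hjk' : (j : ℝ) ≤ k := by exact_mod_cast hjk
  have hs : 0 < s := by linarith
  have ha : 3 ≤ s + 2 - (j : ℝ) := by linarith
  have hr := Same_rr_nonneg (s := s) h1 (by linarith)
  have hm := Same_rr_mul h1 hjk hk
  set r := rr s j with hrdef
  have hlt : ((k : ℝ) + 1) * r < s := by
    refine lt_of_le_of_lt hm ?_
    rw [div_lt_iff₀ (by linarith)]
    nlinarith
  have hp1 : 0 < 1 - ((k : ℝ) + 1) * r / s := by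
    rw [sub_pos, div_lt_one hs]
    exact hlt
  have hp0 : 0 < 1 - (k : ℝ) * r / s := by
    rw [sub_pos, div_lt_one hs]
    nlinarith
  have hpp : hp s (k + 1) = pp s (k + 1) - pp s k := by
    unfold hp
    rfl
  have hlog : GG s (((k : ℝ) + 1) * r) - GG s ((k : ℝ) * r) ≤
      r / (2 * (s - ((k : ℝ) + 1) * r)) := by
    unfold GG
    have e1 : -(1 / 2) * Real.log (1 - ((k : ℝ) + 1) * r / s) -
        -(1 / 2) * Real.log (1 - (k : ℝ) * r / s) =
        1 / 2 * Real.log ((1 - (k : ℝ) * r / s) / (1 - ((k : ℝ) + 1) * r / s)) := by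
      rw [Real.log_div hp0.ne' hp1.ne']
      ring
    rw [e1]
    have e2 := Real.log_le_sub_one_of_pos (div_pos hp0 hp1)
    have e3 : (1 - (k : ℝ) * r / s) / (1 - ((k : ℝ) + 1) * r / s) - 1 =
        r / (s - ((k : ℝ) + 1) * r) := by
      have h4 : s - ((k : ℝ) + 1) * r ≠ 0 := by
        have := sub_pos.2 hlt
        exact this.ne'
      have h5 : 1 - ((k : ℝ) + 1) * r / s = (s - ((k : ℝ) + 1) * r) / s := by
        field_simp
      have h6 : 1 - (k : ℝ) * r / s = (s - (k : ℝ) * r) / s := by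
        field_simp
      rw [h5, h6, div_div_div_cancel_right₀ hs.ne', div_sub_one h4]
      congr 1
      ring
    rw [e3] at e2
    have e4 : r / (2 * (s - ((k : ℝ) + 1) * r)) = 1 / 2 * (r / (s - ((k : ℝ) + 1) * r)) := by
      rw [div_mul_eq_div_div_swap]
      ring
    rw [e4]
    linarith
  unfold RR
  rw [← hrdef, hpp]
  push_cast
  linarith

/-- Induction on `k` from `k = j` (equality: `hp_rec`, `GG_eq_gg`).  Step: `GG` has derivative
`1 / (2 (s - y))`, so it is enough that `h_k + h_j ≥ ρ_j / (2 (s - k ρ_j))`.  With `a = s + 2 - j`: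
`h_k ≥ ρ_k / (3 s) ≥ ρ_j a / (3 s (a - 1))`, `h_j ≥ ρ_j / (3 s)`, `k ρ_j ≤ s / a`, `a ≥ 3`. -/
theorem RR_same {s : ℝ} {k j : ℕ} (h1 : 1 ≤ j) (hjk : j ≤ k) (hk : (k : ℝ) ≤ s) :
    0 ≤ RR s k s j := by
  induction k, hjk using Nat.le_induction with
  | base =>
    have hj : (1 : ℝ) ≤ j := by exact_mod_cast h1
    have hs : s ≠ 0 := by
      have : 0 < s := by linarith
      exact this.ne'
    unfold RR
    rw [hp_rec s h1, GG_eq_gg hs, sub_self]
  | succ k hjk ih =>
    have hk' : (k : ℝ) + 1 ≤ s := by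
      push_cast at hk
      exact hk
    have h2 := ih (by linarith)
    have h3 := Same_succ h1 hjk hk'
    refine le_trans ?_ h3
    have hj : (1 : ℝ) ≤ j := by exact_mod_cast h1
    have hjk' : (j : ℝ) ≤ k := by exact_mod_cast hjk
    have hs : 0 < s := by linarith
    have hr := Same_rr_nonneg (s := s) h1 (by linarith)
    have hm := Same_rr_mul h1 hjk hk'
    have hh1 := hp_ge (s := s) (k := k + 1) (by omega) hk
    have hh2 := hp_ge (s := s) (k := j) h1 (by linarith)
    set a : ℝ := s + 2 - (j : ℝ) with ha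
    have ha3 : 3 ≤ a := by
      rw [ha]
      linarith
    have ha0 : 0 < a := by linarith
    have ha1 : 0 < a - 1 := by linarith
    -- `s - (k+1) ρ_j ≥ s (a - 1) / a`
    have h4 : s * (a - 1) / a ≤ s - ((k : ℝ) + 1) * rr s j := by
      have : s * (a - 1) / a = s - s / a := by
        field_simp
      rw [this]
      linarith
    have h5 : rr s j / (2 * (s - ((k : ℝ) + 1) * rr s j)) ≤ rr s j * a / (2 * s * (a - 1)) := by
      have h6 : 0 < s * (a - 1) / a := by positivity
      calc rr s j / (2 * (s - ((k : ℝ) + 1) * rr s j)) ≤ rr s j / (2 * (s * (a - 1) / a)) := by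
            apply div_le_div_of_nonneg_left hr (by positivity)
            linarith
        _ = rr s j * a / (2 * s * (a - 1)) := by
            field_simp
    -- `ρ_{k+1} ≥ ρ_j a / (a - 1)`
    have h7 : rr s j * a / (a - 1) ≤ rr s (k + 1) := by
      have e1 : rr s j * a / (a - 1) = ((j : ℝ) - 1) / (s * (a - 1)) := by
        unfold rr
        rw [← ha]
        field_simp
      have e2 : rr s (k + 1) = (k : ℝ) / (s * (s + 1 - k)) := by
        unfold rr
        push_cast
        congr 1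
        · ring
        · ring
      rw [e1, e2]
      have h8 : 0 < s + 1 - (k : ℝ) := by linarith
      have h9 : s + 1 - (k : ℝ) ≤ a - 1 := by
        rw [ha]
        linarith
      apply div_le_div₀ (by linarith) (by linarith) (by positivity)
      exact mul_le_mul_of_nonneg_left h9 hs.le
    have h10 : rr s j * a / (a - 1) / (3 * s) ≤ hp s (k + 1) := by
      refine le_trans ?_ hh1
      exact div_le_div_of_nonneg_right h7 (by positivity)
    have h11 : rr s j * a / (2 * s * (a - 1)) ≤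
        rr s j * a / (a - 1) / (3 * s) + rr s j / (3 * s) := by
      have e3 : rr s j * a / (a - 1) / (3 * s) + rr s j / (3 * s) -
          rr s j * a / (2 * s * (a - 1)) = rr s j * (a - 2) / (6 * s * (a - 1)) := by
        field_simp
        ring
      have e4 : 0 ≤ rr s j * (a - 2) / (6 * s * (a - 1)) := by
        apply div_nonneg
        · apply mul_nonneg hr
          linarith
        · positivity
      linarith
    linarith

/-- the last increment: `R_{k+1} ≥ R_k + h_{k+1} + h_j - ρ_j / (2 (s - (k + 1) ρ_j))` -/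
theorem RR_same_succ {s : ℝ} {k j : ℕ} (h1 : 1 ≤ j) (hjk : j ≤ k) (hk : (k : ℝ) + 1 ≤ s) :
    RR s k s j + (hp s (k + 1) + hp s j - rr s j / (2 * (s - ((k : ℝ) + 1) * rr s j))) ≤
      RR s (k + 1) s j :=
  Same_succ h1 hjk hk

end MP_a3e05c_co.KL
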